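import Pool.Agent.Lib.MP_579b69_co.Round

namespace Contain

variable {V : Type*} {Adj : V → V → Prop}

/-! ### counting with macro squares -/

/-- number of blocks in the macro square `(u,v)` -/
noncomputable def accQ (f : ℕ → ℕ → V) (b : ℕ) (B : Set V) (u v : ℕ) : ℕ :=
  cnt f B (u * b) ((u + 1) * b) (v * b) ((v + 1) * b)

theorem accQ_flip (f : ℕ → ℕ → V) (b : ℕ) (B : Set V) (u v : ℕ) :
    accQ (_root_.flip f) b B v u = accQ f b B u v := cnt_flip f B _ _ _ _

theorem acc_strip (f : ℕ → ℕ → V) (b : ℕ) (B : Set V) (i v0 v1 : ℕ) (h : v0 ≤ v1) :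
    cnt f B (i * b) ((i + 1) * b) (v0 * b) (v1 * b) = ∑ v ∈ Finset.Ico v0 v1, accQ f b B i v := by
  induction v1, h using Nat.le_induction with
  | base => simp [cnt]
  | succ n hn ih =>
    rw [Finset.sum_Ico_succ_top hn, ← ih]
    apply cnt_split_y
    · exact Nat.mul_le_mul_right b hn
    · exact Nat.mul_le_mul_right b (Nat.le_succ n)

theorem acc_strip_flip (f : ℕ → ℕ → V) (b : ℕ) (B : Set V) (i v0 v1 : ℕ) (h : v0 ≤ v1) :
    cnt (_root_.flip f) B (i * b) ((i + 1) * b) (v0 * b) (v1 * b) =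
      ∑ u ∈ Finset.Ico v0 v1, accQ f b B u i := by
  rw [acc_strip (_root_.flip f) b B i v0 v1 h]
  exact Finset.sum_congr rfl fun u _ => accQ_flip f b B u i

open Classical in
/-- sum of the numbers `Q u v` over the pairs in `[0,M)²` with the property `T` -/
noncomputable def accW (M : ℕ) (Q : ℕ → ℕ → ℕ) (T : ℕ → ℕ → Prop) : ℕ :=
  ∑ u ∈ Finset.range M, ∑ v ∈ Finset.range M, if T u v then Q u v else 0

theorem accW_le_add {M : ℕ} {Q : ℕ → ℕ → ℕ} {T T1 T2 : ℕ → ℕ → Prop}
    (h1 : ∀ u v, u < M → v < M → T1 u v → T u v) (h2 : ∀ u v, u < M → v < M → T2 u v → T u v)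
    (h12 : ∀ u v, u < M → v < M → T1 u v → T2 u v → False) :
    accW M Q T1 + accW M Q T2 ≤ accW M Q T := by
  classical
  unfold accW
  rw [← Finset.sum_add_distrib]
  refine Finset.sum_le_sum fun u hu => ?_
  rw [← Finset.sum_add_distrib]
  refine Finset.sum_le_sum fun v hv => ?_
  rw [Finset.mem_range] at hu hv
  by_cases a1 : T1 u v
  · by_cases a2 : T2 u v
    · exact absurd a2 (fun a2 => h12 u v hu hv a1 a2)
    · rw [if_pos a1, if_neg a2, if_pos (h1 u v hu hv a1)]; simp
  · by_cases a2 : T2 u v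
    · rw [if_neg a1, if_pos a2, if_pos (h2 u v hu hv a2)]; simp
    · rw [if_neg a1, if_neg a2]; exact Nat.zero_le _

/-- two families overlapping in `T3` -/
theorem accW_le_add3 {M : ℕ} {Q : ℕ → ℕ → ℕ} {T T1 T2 T3 : ℕ → ℕ → Prop}
    (h1 : ∀ u v, u < M → v < M → T1 u v → T u v) (h2 : ∀ u v, u < M → v < M → T2 u v → T u v)
    (h12 : ∀ u v, u < M → v < M → T1 u v → T2 u v → T3 u v) :
    accW M Q T1 + accW M Q T2 ≤ accW M Q T + accW M Q T3 := by
  classical
  unfold accW
  rw [← Finset.sum_add_distrib, ← Finset.sum_add_distrib]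
  refine Finset.sum_le_sum fun u hu => ?_
  rw [← Finset.sum_add_distrib, ← Finset.sum_add_distrib]
  refine Finset.sum_le_sum fun v hv => ?_
  rw [Finset.mem_range] at hu hv
  by_cases a1 : T1 u v
  · by_cases a2 : T2 u v
    · rw [if_pos a1, if_pos a2, if_pos (h1 u v hu hv a1), if_pos (h12 u v hu hv a1 a2)]
    · rw [if_pos a1, if_neg a2, if_pos (h1 u v hu hv a1)]; simp
  · by_cases a2 : T2 u v
    · rw [if_neg a1, if_pos a2, if_pos (h2 u v hu hv a2)]; simp
    · rw [if_neg a1, if_neg a2]; exact Nat.zero_le _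

/-- columns -/
theorem acc_cols {M : ℕ} (Q : ℕ → ℕ → ℕ) (s : Finset ℕ) (lo hi : ℕ → ℕ) (hs : ∀ i ∈ s, i < M)
    (hhi : ∀ i ∈ s, hi i ≤ M) :
    ∑ i ∈ s, ∑ v ∈ Finset.Ico (lo i) (hi i), Q i v =
      accW M Q (fun u v => u ∈ s ∧ lo u ≤ v ∧ v < hi u) := by
  classical
  unfold accW
  have e1 : s = (Finset.range M).filter (· ∈ s) := by
    ext i
    rw [Finset.mem_filter, Finset.mem_range]
    exact ⟨fun h => ⟨hs i h, h⟩, fun h => h.2⟩
  rw [e1, Finset.sum_filter, ← e1]
  refine Finset.sum_congr rfl fun u _ => ?_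
  by_cases hu : u ∈ s
  · rw [if_pos hu]
    have e2 : Finset.Ico (lo u) (hi u) = (Finset.range M).filter (fun v => lo u ≤ v ∧ v < hi u) := by
      ext v
      rw [Finset.mem_filter, Finset.mem_range, Finset.mem_Ico]
      exact ⟨fun h => ⟨lt_of_lt_of_le h.2 (hhi u hu), h⟩, fun h => h.2⟩
    rw [e2, Finset.sum_filter]
    refine Finset.sum_congr rfl fun v _ => ?_
    by_cases hv : lo u ≤ v ∧ v < hi u
    · rw [if_pos hv, if_pos ⟨hu, hv⟩]
    · rw [if_neg hv, if_neg (fun h => hv h.2)]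
  · rw [if_neg hu]
    symm
    apply Finset.sum_eq_zero
    intro v _
    rw [if_neg (fun h => hu h.1)]

theorem accW_swap (M : ℕ) (Q : ℕ → ℕ → ℕ) (T : ℕ → ℕ → Prop) :
    accW M (fun u v => Q v u) (fun u v => T v u) = accW M Q T := by
  classical
  unfold accW
  rw [Finset.sum_comm]

/-- rows: the row with index `i` is the row `n - i` -/
theorem acc_rows {M n a : ℕ} (Q : ℕ → ℕ → ℕ) (lo hi : ℕ → ℕ) (hn : n < M)
    (hhi : ∀ i, a ≤ i → i ≤ n → hi i ≤ M) :
    ∑ i ∈ Finset.Ico a (n + 1), ∑ u ∈ Finset.Ico (lo i) (hi i), Q u (n - i) =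
      accW M Q (fun u v => a + v ≤ n ∧ lo (n - v) ≤ u ∧ u < hi (n - v)) := by
  classical
  have h1 := acc_cols (M := M) (fun v u => Q u v) (Finset.range (n + 1 - a))
    (fun v => lo (n - v)) (fun v => hi (n - v)) (fun i hi => by rw [Finset.mem_range] at hi; omega)
    (fun i hi => by rw [Finset.mem_range] at hi; exact hhi _ (by omega) (by omega))
  have h2 : ∑ i ∈ Finset.Ico a (n + 1), ∑ u ∈ Finset.Ico (lo i) (hi i), Q u (n - i) =
      ∑ v ∈ Finset.range (n + 1 - a), ∑ u ∈ Finset.Ico (lo (n - v)) (hi (n - v)), Q u v := by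
    refine Finset.sum_bij' (fun i _ => n - i) (fun v _ => n - v) ?_ ?_ ?_ ?_ ?_
    · intro i hi; rw [Finset.mem_Ico] at hi; rw [Finset.mem_range]; omega
    · intro v hv; rw [Finset.mem_range] at hv; rw [Finset.mem_Ico]; omega
    · intro i hi; rw [Finset.mem_Ico] at hi; omega
    · intro v hv; rw [Finset.mem_range] at hv; omega
    · intro i hi
      rw [Finset.mem_Ico] at hi
      have e : n - (n - i) = i := by omega
      rw [e]
  rw [h2, h1, ← accW_swap M Q]
  unfold accW
  refine Finset.sum_congr rfl fun u _ => Finset.sum_congr rfl fun v _ => ?_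
  have : (u ∈ Finset.range (n + 1 - a) ∧ lo (n - u) ≤ v ∧ v < hi (n - u)) ↔
      (a + u ≤ n ∧ lo (n - u) ≤ v ∧ v < hi (n - u)) := by
    rw [Finset.mem_range]
    constructor
    · rintro ⟨h, h'⟩; exact ⟨by omega, h'⟩
    · rintro ⟨h, h'⟩; exact ⟨by omega, h'⟩
  simp only [this]

/-- `Theta` as a sum over macro squares -/
theorem acc_Theta (f : ℕ → ℕ → V) {b n M : ℕ} (hb : 0 < b) (hM : n ≤ M) (B : Set V) :
    Theta f b n B = accW M (accQ f b B) (fun u v => u + v < n) := by
  classical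
  unfold Theta accW
  rw [Finset.card_eq_sum_card_fiberwise
    (f := fun p : ℕ × ℕ => (p.1 / b, p.2 / b)) (t := Finset.range M ×ˢ Finset.range M)]
  · rw [Finset.sum_product]
    refine Finset.sum_congr rfl fun u _ => Finset.sum_congr rfl fun v _ => ?_
    by_cases h : u + v < n
    · rw [if_pos h]
      unfold accQ cnt
      congr 1
      ext p
      simp only [Finset.mem_filter, Finset.mem_product, Finset.mem_range, Finset.mem_Ico,
        Prod.mk.injEq]
      constructor
      · rintro ⟨⟨_, _, h4⟩, h5, h6⟩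
        refine ⟨⟨⟨?_, ?_⟩, ⟨?_, ?_⟩⟩, h4⟩
        · rw [← h5]; exact Nat.div_mul_le_self _ _
        · rw [← h5]; rw [add_mul, one_mul]; exact Nat.lt_div_mul_add hb
        · rw [← h6]; exact Nat.div_mul_le_self _ _
        · rw [← h6]; rw [add_mul, one_mul]; exact Nat.lt_div_mul_add hb
      · rintro ⟨⟨⟨h1, h2⟩, ⟨h3, h4⟩⟩, h5⟩
        have e1 : p.1 / b = u := Nat.div_eq_of_lt_le h1 h2
        have e2 : p.2 / b = v := Nat.div_eq_of_lt_le h3 h4
        refine ⟨⟨⟨?_, ?_⟩, ?_, h5⟩, e1, e2⟩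
        · exact lt_of_lt_of_le h2 (Nat.mul_le_mul_right b (by omega))
        · exact lt_of_lt_of_le h4 (Nat.mul_le_mul_right b (by omega))
        · rw [e1, e2]; exact h
    · rw [if_neg h, Finset.card_eq_zero, Finset.filter_eq_empty_iff]
      intro p hp heq
      rw [Finset.mem_filter] at hp
      rw [Prod.mk.injEq] at heq
      rw [heq.1, heq.2] at hp
      exact h hp.2.1
  · intro p hp
    rw [Finset.mem_coe, Finset.mem_filter] at hp
    rw [Finset.mem_coe, Finset.mem_product, Finset.mem_range, Finset.mem_range]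
    obtain ⟨_, h1, _⟩ := hp
    constructor
    · show p.1 / b < M
      exact lt_of_le_of_lt (Nat.le_add_right _ _) (lt_of_lt_of_le h1 hM)
    · show p.2 / b < M
      exact lt_of_le_of_lt (Nat.le_add_left _ _) (lt_of_lt_of_le h1 hM)

theorem acc_split {g : ℕ → ℤ} {a N : ℕ} (h : a ≤ N) :
    ∑ i ∈ Finset.range N, g i = ∑ i ∈ Finset.range a, g i + ∑ i ∈ Finset.Ico a N, g i := by
  rw [Finset.range_eq_Ico, Finset.range_eq_Ico]
  exact (Finset.sum_Ico_consecutive g (Nat.zero_le a) h).symm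

theorem acc_split' {g : ℕ → ℤ} {a c N : ℕ} (h : a ≤ c) (h' : c ≤ N) :
    ∑ i ∈ Finset.Ico a N, g i = ∑ i ∈ Finset.Ico a c, g i + ∑ i ∈ Finset.Ico c N, g i :=
  (Finset.sum_Ico_consecutive g h h').symm

theorem acc_sum_light (c c' : ℕ → ℤ) (LC AC LR AR : ℕ → ℕ) {b s ρ r n m : ℕ} (hρr : ρ ≤ r)
    (hrn : r ≤ n) (hm : 21 ≤ m) (hc : ∀ i ≤ n, c i ≤ b)
    (p1 : ∀ i < ρ - 4, c i - s - LC i - AC i ≤ c' i)
    (p2 : ∀ i, ρ - 4 ≤ i → i < ρ → -(AC i : ℤ) ≤ c' i)
    (p3 : ∀ i, ρ ≤ i → i < r → c i - 2 * s - LR i - AC i ≤ c' i)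
    (p4 : ∀ i, r ≤ i → i < r + m - 20 → (b : ℤ) - 2 * s - AC i ≤ c' i)
    (p5 : ∀ i, r + m - 20 ≤ i → i < r + m → 0 ≤ c' i)
    (p6 : ∀ i, r ≤ i → i ≤ n → c i - s - LR i - AR i ≤ c' (i + m)) :
    ∑ i ∈ Finset.range (n + 1), c i + (m : ℤ) * b ≤
      ∑ i ∈ Finset.range (n + m + 1), c' i + 24 * b + 2 * s * (n + m + 1)
        + (∑ i ∈ Finset.range (ρ - 4), (LC i : ℤ) + ∑ i ∈ Finset.Ico ρ (n + 1), (LR i : ℤ))
        + (∑ i ∈ Finset.range (r + m - 20), (AC i : ℤ) + ∑ i ∈ Finset.Ico r (n + 1), (AR i : ℤ)) := by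
  -- splittings
  have s1 : ∑ i ∈ Finset.range (n + m + 1), c' i =
      ∑ i ∈ Finset.range (ρ - 4), c' i + (∑ i ∈ Finset.Ico (ρ - 4) ρ, c' i +
        (∑ i ∈ Finset.Ico ρ r, c' i + (∑ i ∈ Finset.Ico r (r + m - 20), c' i +
          (∑ i ∈ Finset.Ico (r + m - 20) (r + m), c' i +
            ∑ i ∈ Finset.Ico (r + m) (n + m + 1), c' i)))) := by
    rw [acc_split (a := ρ - 4) (by omega : ρ - 4 ≤ n + m + 1),
      acc_split' (a := ρ - 4) (c := ρ) (N := n + m + 1) (by omega) (by omega),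
      acc_split' (a := ρ) (c := r) (N := n + m + 1) (by omega) (by omega),
      acc_split' (a := r) (c := r + m - 20) (N := n + m + 1) (by omega) (by omega),
      acc_split' (a := r + m - 20) (c := r + m) (N := n + m + 1) (by omega) (by omega)]
  have s2 : ∑ i ∈ Finset.range (n + 1), c i =
      ∑ i ∈ Finset.range (ρ - 4), c i + (∑ i ∈ Finset.Ico (ρ - 4) ρ, c i +
        (∑ i ∈ Finset.Ico ρ r, c i + ∑ i ∈ Finset.Ico r (n + 1), c i)) := by
    rw [acc_split (a := ρ - 4) (by omega : ρ - 4 ≤ n + 1),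
      acc_split' (a := ρ - 4) (c := ρ) (N := n + 1) (by omega) (by omega),
      acc_split' (a := ρ) (c := r) (N := n + 1) (by omega) (by omega)]
  have s3 : ∑ i ∈ Finset.Ico ρ (n + 1), (LR i : ℤ) =
      ∑ i ∈ Finset.Ico ρ r, (LR i : ℤ) + ∑ i ∈ Finset.Ico r (n + 1), (LR i : ℤ) :=
    acc_split' (g := fun i => (LR i : ℤ)) (by omega) (by omega)
  have s4 : ∑ i ∈ Finset.range (r + m - 20), (AC i : ℤ) =
      ∑ i ∈ Finset.range (ρ - 4), (AC i : ℤ) + (∑ i ∈ Finset.Ico (ρ - 4) ρ, (AC i : ℤ) +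
        (∑ i ∈ Finset.Ico ρ r, (AC i : ℤ) + ∑ i ∈ Finset.Ico r (r + m - 20), (AC i : ℤ))) := by
    rw [acc_split (g := fun i => (AC i : ℤ)) (a := ρ - 4) (by omega : ρ - 4 ≤ r + m - 20),
      acc_split' (g := fun i => (AC i : ℤ)) (a := ρ - 4) (c := ρ) (N := r + m - 20) (by omega)
        (by omega),
      acc_split' (g := fun i => (AC i : ℤ)) (a := ρ) (c := r) (N := r + m - 20) (by omega)
        (by omega)]
  -- the pieces
  have q1 : ∑ i ∈ Finset.range (ρ - 4), (c i - s - LC i - AC i) ≤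
      ∑ i ∈ Finset.range (ρ - 4), c' i :=
    Finset.sum_le_sum fun i hi => p1 i (Finset.mem_range.mp hi)
  have q2 : ∑ i ∈ Finset.Ico (ρ - 4) ρ, (-(AC i : ℤ)) ≤ ∑ i ∈ Finset.Ico (ρ - 4) ρ, c' i :=
    Finset.sum_le_sum fun i hi => p2 i (Finset.mem_Ico.mp hi).1 (Finset.mem_Ico.mp hi).2
  have q3 : ∑ i ∈ Finset.Ico ρ r, (c i - 2 * s - LR i - AC i) ≤ ∑ i ∈ Finset.Ico ρ r, c' i :=
    Finset.sum_le_sum fun i hi => p3 i (Finset.mem_Ico.mp hi).1 (Finset.mem_Ico.mp hi).2
  have q4 : ∑ i ∈ Finset.Ico r (r + m - 20), ((b : ℤ) - 2 * s - AC i) ≤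
      ∑ i ∈ Finset.Ico r (r + m - 20), c' i :=
    Finset.sum_le_sum fun i hi => p4 i (Finset.mem_Ico.mp hi).1 (Finset.mem_Ico.mp hi).2
  have q5 : 0 ≤ ∑ i ∈ Finset.Ico (r + m - 20) (r + m), c' i :=
    Finset.sum_nonneg fun i hi => p5 i (Finset.mem_Ico.mp hi).1 (Finset.mem_Ico.mp hi).2
  have q6 : ∑ i ∈ Finset.Ico r (n + 1), (c i - s - LR i - AR i) ≤
      ∑ i ∈ Finset.Ico (r + m) (n + m + 1), c' i := by
    have e := Finset.sum_Ico_add' c' r (n + 1) m
    rw [show n + 1 + m = n + m + 1 by ring] at e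
    rw [← e]
    exact Finset.sum_le_sum fun i hi => p6 i (Finset.mem_Ico.mp hi).1
      (by have := (Finset.mem_Ico.mp hi).2; omega)
  have q7 : ∑ i ∈ Finset.Ico (ρ - 4) ρ, c i ≤ 4 * b := by
    calc ∑ i ∈ Finset.Ico (ρ - 4) ρ, c i ≤ ∑ i ∈ Finset.Ico (ρ - 4) ρ, (b : ℤ) :=
          Finset.sum_le_sum fun i hi => hc i (by have := (Finset.mem_Ico.mp hi).2; omega)
      _ = ((ρ - (ρ - 4) : ℕ) : ℤ) * b := by
          rw [Finset.sum_const, Nat.card_Ico, nsmul_eq_mul]
      _ ≤ 4 * b := by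
          apply mul_le_mul_of_nonneg_right _ (Int.natCast_nonneg b)
          have : ρ - (ρ - 4) ≤ 4 := by omega
          exact_mod_cast this
  simp only [Finset.sum_sub_distrib, Finset.sum_neg_distrib, Finset.sum_const, Finset.card_range,
    Nat.card_Ico, nsmul_eq_mul] at q1 q2 q3 q4 q6
  have hs0 : (0 : ℤ) ≤ s := Int.natCast_nonneg s
  have hk : ((ρ - 4 : ℕ) : ℤ) * s + ((r - ρ : ℕ) : ℤ) * (2 * s) + ((r + m - 20 - r : ℕ) : ℤ) * (2 * s)
      + ((n + 1 - r : ℕ) : ℤ) * s ≤ 2 * s * (n + m + 1) := by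
    have e : ((ρ - 4 : ℕ) : ℤ) * s + ((r - ρ : ℕ) : ℤ) * (2 * s) +
        ((r + m - 20 - r : ℕ) : ℤ) * (2 * s) + ((n + 1 - r : ℕ) : ℤ) * s =
        (((ρ - 4) + 2 * (r - ρ) + 2 * (r + m - 20 - r) + (n + 1 - r) : ℕ) : ℤ) * s := by
      push_cast
      ring
    rw [e, show 2 * (s : ℤ) * (n + m + 1) = ((2 * (n + m + 1) : ℕ) : ℤ) * s by push_cast; ring]
    apply mul_le_mul_of_nonneg_right _ hs0
    have : (ρ - 4) + 2 * (r - ρ) + 2 * (r + m - 20 - r) + (n + 1 - r) ≤ 2 * (n + m + 1) := by omega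
    exact_mod_cast this
  have hk2 : ((r + m - 20 - r : ℕ) : ℤ) * b = (m : ℤ) * b - 20 * b := by
    have : ((r + m - 20 - r : ℕ) : ℤ) = (m : ℤ) - 20 := by omega
    rw [this]; ring
  linarith

theorem acc_sum_heavy (c c' : ℕ → ℤ) (LC AC LR AR : ℕ → ℕ) {b s ρ n m : ℕ} (hρ : ρ ≤ n + 1)
    (hc : ∀ i ≤ n, c i ≤ b)
    (p1 : ∀ i < ρ - 4, c i - s - LC i - AC i ≤ c' i)
    (p2 : ∀ i, ρ - 4 ≤ i → i < ρ + m → 0 ≤ c' i)
    (p3 : ∀ i, ρ ≤ i → i ≤ n → c i - s - LR i - AR i ≤ c' (i + m)) :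
    ∑ i ∈ Finset.range (n + 1), c i ≤
      ∑ i ∈ Finset.range (n + m + 1), c' i + 4 * b + s * (n + 1)
        + (∑ i ∈ Finset.range (ρ - 4), (LC i : ℤ) + ∑ i ∈ Finset.Ico ρ (n + 1), (LR i : ℤ))
        + (∑ i ∈ Finset.range (ρ - 4), (AC i : ℤ) + ∑ i ∈ Finset.Ico ρ (n + 1), (AR i : ℤ)) := by
  have s1 : ∑ i ∈ Finset.range (n + m + 1), c' i =
      ∑ i ∈ Finset.range (ρ - 4), c' i + (∑ i ∈ Finset.Ico (ρ - 4) (ρ + m), c' i +
            ∑ i ∈ Finset.Ico (ρ + m) (n + m + 1), c' i) := by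
    rw [acc_split (a := ρ - 4) (by omega : ρ - 4 ≤ n + m + 1),
      acc_split' (a := ρ - 4) (c := ρ + m) (N := n + m + 1) (by omega) (by omega)]
  have s2 : ∑ i ∈ Finset.range (n + 1), c i =
      ∑ i ∈ Finset.range (ρ - 4), c i + (∑ i ∈ Finset.Ico (ρ - 4) ρ, c i +
        ∑ i ∈ Finset.Ico ρ (n + 1), c i) := by
    rw [acc_split (a := ρ - 4) (by omega : ρ - 4 ≤ n + 1),
      acc_split' (a := ρ - 4) (c := ρ) (N := n + 1) (by omega) (by omega)]
  have q1 : ∑ i ∈ Finset.range (ρ - 4), (c i - s - LC i - AC i) ≤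
      ∑ i ∈ Finset.range (ρ - 4), c' i :=
    Finset.sum_le_sum fun i hi => p1 i (Finset.mem_range.mp hi)
  have q5 : 0 ≤ ∑ i ∈ Finset.Ico (ρ - 4) (ρ + m), c' i :=
    Finset.sum_nonneg fun i hi => p2 i (Finset.mem_Ico.mp hi).1 (Finset.mem_Ico.mp hi).2
  have q6 : ∑ i ∈ Finset.Ico ρ (n + 1), (c i - s - LR i - AR i) ≤
      ∑ i ∈ Finset.Ico (ρ + m) (n + m + 1), c' i := by
    have e := Finset.sum_Ico_add' c' ρ (n + 1) m
    rw [show n + 1 + m = n + m + 1 by ring] at e
    rw [← e]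
    exact Finset.sum_le_sum fun i hi => p3 i (Finset.mem_Ico.mp hi).1
      (by have := (Finset.mem_Ico.mp hi).2; omega)
  have q7 : ∑ i ∈ Finset.Ico (ρ - 4) ρ, c i ≤ 4 * b := by
    calc ∑ i ∈ Finset.Ico (ρ - 4) ρ, c i ≤ ∑ i ∈ Finset.Ico (ρ - 4) ρ, (b : ℤ) :=
          Finset.sum_le_sum fun i hi => hc i (by have := (Finset.mem_Ico.mp hi).2; omega)
      _ = ((ρ - (ρ - 4) : ℕ) : ℤ) * b := by
          rw [Finset.sum_const, Nat.card_Ico, nsmul_eq_mul]
      _ ≤ 4 * b := by
          apply mul_le_mul_of_nonneg_right _ (Int.natCast_nonneg b)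
          have : ρ - (ρ - 4) ≤ 4 := by omega
          exact_mod_cast this
  simp only [Finset.sum_sub_distrib, Finset.sum_const, Finset.card_range,
    Nat.card_Ico, nsmul_eq_mul] at q1 q6
  have hs0 : (0 : ℤ) ≤ s := Int.natCast_nonneg s
  have hk : ((ρ - 4 : ℕ) : ℤ) * s + ((n + 1 - ρ : ℕ) : ℤ) * s ≤ s * (n + 1) := by
    have e : ((ρ - 4 : ℕ) : ℤ) * s + ((n + 1 - ρ : ℕ) : ℤ) * s =
        (((ρ - 4) + (n + 1 - ρ) : ℕ) : ℤ) * s := by
      push_cast
      ring
    rw [e, show (s : ℤ) * (n + 1) = ((n + 1 : ℕ) : ℤ) * s by push_cast; ring]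
    apply mul_le_mul_of_nonneg_right _ hs0
    have : (ρ - 4) + (n + 1 - ρ) ≤ n + 1 := by omega
    exact_mod_cast this
  linarith

open Classical in
/-- double counting -/
theorem acc_double {M : ℕ} (Q : ℕ → ℕ → ℕ) (G : Finset ℕ) (m : ℕ) (T : ℕ → ℕ → ℕ → Prop)
    (T0 : ℕ → ℕ → Prop) (h : ∀ r ∈ G, ∀ u v, T r u v → T0 u v ∧ r ≤ u ∧ u < r + m) :
    ∑ r ∈ G, accW M Q (T r) ≤ m * accW M Q T0 := by
  unfold accW
  rw [Finset.sum_comm, Finset.mul_sum]
  refine Finset.sum_le_sum fun u _ => ?_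
  rw [Finset.sum_comm, Finset.mul_sum]
  refine Finset.sum_le_sum fun v _ => ?_
  by_cases h0 : T0 u v
  · rw [if_pos h0, ← Finset.sum_filter, Finset.sum_const, smul_eq_mul]
    apply Nat.mul_le_mul_right
    calc (G.filter fun r => T r u v).card ≤ (Finset.Ico (u + 1 - m) (u + 1)).card := by
          apply Finset.card_le_card
          intro r hr
          rw [Finset.mem_filter] at hr
          have := (h r hr.1 u v hr.2).2
          rw [Finset.mem_Ico]
          omega
      _ ≤ m := by rw [Nat.card_Ico]; omega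
  · rw [if_neg h0, mul_zero]
    apply le_of_eq
    apply Finset.sum_eq_zero
    intro r hr
    rw [if_neg (fun ht => h0 (h r hr u v ht).1)]

theorem ColF.mono_c {f : ℕ → ℕ → V} {s Nb ζ i j : ℕ} {c c' : ℤ} {O B : Set V} (h : c' ≤ c)
    (hc : ColF f s Nb ζ i j c O B) : ColF f s Nb ζ i j c' O B := by
  obtain ⟨x1, N, h1, h2, h3, h4, h5⟩ := hc
  exact ⟨x1, N, h1, h2, h3, h4, by linarith⟩

/-- the quantities of the accounting, as sums over macro squares -/
theorem acc_facts {f : ℕ → ℕ → V} {s Nb n m : ℕ} {B0 B' : Set V} (hb : 0 < Nb * s) (hB : B0 ⊆ B')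
    (hm : 1 ≤ m) :
    (∀ i, lateC f s Nb n B0 B' i =
      ∑ v ∈ Finset.Ico (n - i - 4) (n - i), accQ f (Nb * s) (B' \ B0) i v) ∧
    (∀ i, aheadC f s Nb n m B' i =
      ∑ v ∈ Finset.Ico (n - i) (n + m - i), accQ f (Nb * s) B' i v) ∧
    (∀ i ≤ n, lateC (_root_.flip f) s Nb n B0 B' (n - i) =
      ∑ u ∈ Finset.Ico (i - 4) i, accQ f (Nb * s) (B' \ B0) u (n - i)) ∧
    (∀ i ≤ n, aheadC (_root_.flip f) s Nb n m B' (n - i) =
      ∑ u ∈ Finset.Ico i (i + m), accQ f (Nb * s) B' u (n - i)) ∧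
    (∀ i ≤ n, nearC (_root_.flip f) s Nb n B' (n - i) ≤ aheadC f s Nb n m B' i) ∧
    (Theta f (Nb * s) (n + m) B' : ℤ) - Theta f (Nb * s) n B0 =
      accW (n + m + 1) (accQ f (Nb * s) (B' \ B0)) (fun u v => u + v < n) +
      accW (n + m + 1) (accQ f (Nb * s) B') (fun u v => n ≤ u + v ∧ u + v < n + m) := by
  classical
  refine ⟨?_, ?_, ?_, ?_, ?_, ?_⟩
  · intro i
    exact acc_strip f (Nb * s) (B' \ B0) i (n - i - 4) (n - i) (by omega)
  · intro i
    exact acc_strip f (Nb * s) B' i (n - i) (n + m - i) (by omega)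
  · intro i hi
    unfold lateC
    rw [acc_strip_flip f (Nb * s) (B' \ B0) (n - i) (n - (n - i) - 4) (n - (n - i)) (by omega)]
    rw [show n - (n - i) = i by omega]
  · intro i hi
    unfold aheadC
    rw [acc_strip_flip f (Nb * s) B' (n - i) (n - (n - i)) (n + m - (n - i)) (by omega)]
    rw [show n - (n - i) = i by omega, show n + m - (n - i) = i + m by omega]
  · intro i hi
    have e1 : nearC (_root_.flip f) s Nb n B' (n - i) = accQ f (Nb * s) B' i (n - i) := by
      unfold nearC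
      rw [show n - (n - i) = i by omega]
      exact cnt_flip f B' _ _ _ _
    have e2 : aheadC f s Nb n m B' i =
        ∑ v ∈ Finset.Ico (n - i) (n + m - i), accQ f (Nb * s) B' i v :=
      acc_strip f (Nb * s) B' i (n - i) (n + m - i) (by omega)
    rw [e1, e2]
    exact Finset.single_le_sum (f := fun v => accQ f (Nb * s) B' i v) (fun _ _ => Nat.zero_le _)
      (Finset.mem_Ico.mpr ⟨le_rfl, by omega⟩)
  · rw [acc_Theta f hb (by omega : n + m ≤ n + m + 1) B',
      acc_Theta f hb (by omega : n ≤ n + m + 1) B0]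
    have key : accW (n + m + 1) (accQ f (Nb * s) B') (fun u v => u + v < n + m) =
        accW (n + m + 1) (accQ f (Nb * s) B0) (fun u v => u + v < n) +
        (accW (n + m + 1) (accQ f (Nb * s) (B' \ B0)) (fun u v => u + v < n) +
        accW (n + m + 1) (accQ f (Nb * s) B') (fun u v => n ≤ u + v ∧ u + v < n + m)) := by
      unfold accW
      rw [← Finset.sum_add_distrib, ← Finset.sum_add_distrib]
      refine Finset.sum_congr rfl fun u _ => ?_
      rw [← Finset.sum_add_distrib, ← Finset.sum_add_distrib]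
      refine Finset.sum_congr rfl fun v _ => ?_
      have hd : accQ f (Nb * s) B' u v = accQ f (Nb * s) B0 u v + accQ f (Nb * s) (B' \ B0) u v :=
        cnt_diff f hB _ _ _ _
      by_cases h1 : u + v < n
      · rw [if_pos h1, if_pos h1, if_pos (by omega), if_neg (by omega), hd]
        omega
      · rw [if_neg h1, if_neg h1]
        by_cases h2 : u + v < n + m
        · rw [if_pos h2, if_pos ⟨by omega, h2⟩]; omega
        · rw [if_neg h2, if_neg (fun h => h2 h.2)]; omega
    rw [key]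
    push_cast
    ring

/-- **Round accounting** (pure counting): from the raw result of a round produce a final
snapshot at level `n + m`, with the potential inequality. -/
theorem round_acc {f : ℕ → ℕ → V} (hinj : ∀ l p l' p', f l p = f l' p' → l = l' ∧ p = p')
    {s Nb n ρ m Dp Kk : ℕ} {c : ℕ → ℤ} {B0 O B' : Set V} (hs : 0 < s) (hNb : 0 < Nb)
    (hm : 21 ≤ m) (hρ : ρ ≤ n + 1) (hc : ∀ i ≤ n, c i ≤ (Nb * s : ℕ)) (hB : B0 ⊆ B')
    (hraw : RawAll f s Nb n ρ m c B0 O B')
    (hDp : 0 < Dp) (hKk : 0 < Kk) (hn : Kk * Dp * m ≤ n)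
    (hbig : ((2 * n * (Nb * s) : ℕ) : ℤ) ≤ Kk * ∑ i ∈ Finset.Ico ρ (n + 1), c i) :
    ∃ (ρ1 ρ2 : ℕ) (c' : ℕ → ℤ), SnapF f s Nb (n + m) ρ1 ρ2 c' O B' ∧ ρ2 ≤ ρ1 + m + 4 ∧
      Dp * (∑ i ∈ Finset.range (n + 1), c i + ((m * (Nb * s) : ℕ) : ℤ)) ≤
        Dp * (∑ i ∈ Finset.range (n + m + 1), c' i +
          ((24 * (Nb * s) + 2 * s * (n + m + 1) : ℕ) : ℤ)) +
        (Dp + 1) * ((Theta f (Nb * s) (n + m) B' : ℤ) - Theta f (Nb * s) n B0) := by
  classical
  have hb : 0 < Nb * s := Nat.mul_pos hNb hs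
  obtain ⟨F1, F2, F3, F4, F5, F6⟩ := acc_facts (f := f) (n := n) hb hB (by omega : 1 ≤ m)
  set D : ℕ := accW (n + m + 1) (accQ f (Nb * s) (B' \ B0)) (fun u v => u + v < n) with hD
  set A : ℕ := accW (n + m + 1) (accQ f (Nb * s) B') (fun u v => n ≤ u + v ∧ u + v < n + m)
    with hA
  set LC : ℕ → ℕ := fun i => lateC f s Nb n B0 B' i with hLC
  set AC : ℕ → ℕ := fun i => aheadC f s Nb n m B' i with hAC
  set LR : ℕ → ℕ := fun i => lateC (_root_.flip f) s Nb n B0 B' (n - i) with hLR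
  set AR : ℕ → ℕ := fun i => aheadC (_root_.flip f) s Nb n m B' (n - i) with hAR
  set NR : ℕ → ℕ := fun i => nearC (_root_.flip f) s Nb n B' (n - i) with hNR
  -- late squares
  have late : ∑ i ∈ Finset.range (ρ - 4), LC i + ∑ i ∈ Finset.Ico ρ (n + 1), LR i ≤ D := by
    have e1 : ∑ i ∈ Finset.range (ρ - 4), LC i =
        accW (n + m + 1) (accQ f (Nb * s) (B' \ B0))
          (fun u v => u ∈ Finset.range (ρ - 4) ∧ n - u - 4 ≤ v ∧ v < n - u) := by
      rw [← acc_cols (M := n + m + 1) (accQ f (Nb * s) (B' \ B0)) (Finset.range (ρ - 4))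
        (fun i => n - i - 4) (fun i => n - i)
        (fun i hi => by rw [Finset.mem_range] at hi; omega) (fun i _ => by omega)]
      exact Finset.sum_congr rfl fun i _ => F1 i
    have e2 : ∑ i ∈ Finset.Ico ρ (n + 1), LR i =
        accW (n + m + 1) (accQ f (Nb * s) (B' \ B0))
          (fun u v => ρ + v ≤ n ∧ n - v - 4 ≤ u ∧ u < n - v) := by
      rw [← acc_rows (M := n + m + 1) (n := n) (a := ρ) (accQ f (Nb * s) (B' \ B0))
        (fun i => i - 4) (fun i => i) (by omega) (fun i _ hi => by omega)]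
      exact Finset.sum_congr rfl fun i hi =>
        F3 i (by have := (Finset.mem_Ico.mp hi).2; omega)
    rw [e1, e2]
    apply accW_le_add
    · rintro u v _ _ ⟨_, _, h3⟩; omega
    · rintro u v _ _ ⟨_, _, h3⟩; omega
    · rintro u v _ _ ⟨h1, _, _⟩ ⟨h4, h5, h6⟩
      rw [Finset.mem_range] at h1
      omega
  -- ahead squares, heavy case and complete rows
  have ahead0 : ∑ i ∈ Finset.range (ρ - 4), AC i + ∑ i ∈ Finset.Ico ρ (n + 1), AR i ≤ A := by
    have e1 : ∑ i ∈ Finset.range (ρ - 4), AC i =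
        accW (n + m + 1) (accQ f (Nb * s) B')
          (fun u v => u ∈ Finset.range (ρ - 4) ∧ n - u ≤ v ∧ v < n + m - u) := by
      rw [← acc_cols (M := n + m + 1) (accQ f (Nb * s) B') (Finset.range (ρ - 4))
        (fun i => n - i) (fun i => n + m - i)
        (fun i hi => by rw [Finset.mem_range] at hi; omega) (fun i _ => by omega)]
      exact Finset.sum_congr rfl fun i _ => F2 i
    have e2 : ∑ i ∈ Finset.Ico ρ (n + 1), AR i =
        accW (n + m + 1) (accQ f (Nb * s) B')
          (fun u v => ρ + v ≤ n ∧ n - v ≤ u ∧ u < n - v + m) := by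
      rw [← acc_rows (M := n + m + 1) (n := n) (a := ρ) (accQ f (Nb * s) B')
        (fun i => i) (fun i => i + m) (by omega) (fun i _ hi => by omega)]
      exact Finset.sum_congr rfl fun i hi =>
        F4 i (by have := (Finset.mem_Ico.mp hi).2; omega)
    rw [e1, e2]
    apply accW_le_add
    · rintro u v _ _ ⟨h1, h2, h3⟩
      rw [Finset.mem_range] at h1
      omega
    · rintro u v _ _ ⟨h1, h2, h3⟩; omega
    · rintro u v _ _ ⟨h1, _, _⟩ ⟨h4, h5, h6⟩
      rw [Finset.mem_range] at h1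
      omega
  -- zones inside the ahead regions
  have zoneC : ∀ i, cnt f B' (i * (Nb * s)) ((i + 1) * (Nb * s)) ((n + m - i - 20) * (Nb * s))
      ((n + m - i) * (Nb * s)) ≤ AC i := by
    intro i
    exact cnt_mono_rect f B' le_rfl le_rfl (Nat.mul_le_mul_right _ (by omega)) le_rfl
  have zoneR : ∀ i ≤ n, cnt (_root_.flip f) B' ((n - i) * (Nb * s)) ((n - i + 1) * (Nb * s))
      ((i + m - 20) * (Nb * s)) ((i + m) * (Nb * s)) ≤ AR i := by
    intro i hi
    exact cnt_mono_rect (_root_.flip f) B' le_rfl le_rfl (Nat.mul_le_mul_right _ (by omega))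
      (Nat.mul_le_mul_right _ (by omega))
  by_cases hX : Dp * m * (Nb * s) ≤ D + A
  · -- heavy case
    let c' : ℕ → ℤ := fun i => if i < ρ - 4 then c i - s - LC i - AC i
      else if i < ρ + m then 0 else c (i - m) - s - LR (i - m) - AR (i - m)
    have c1 : ∀ i, i < ρ - 4 → c' i = c i - s - LC i - AC i := fun i hi => if_pos hi
    have c2 : ∀ i, ρ - 4 ≤ i → i < ρ + m → c' i = 0 := by
      intro i h1 h2
      show (if i < ρ - 4 then _ else if i < ρ + m then _ else _) = _
      rw [if_neg (by omega), if_pos h2]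
    have c3 : ∀ i, ρ + m ≤ i → c' i = c (i - m) - s - LR (i - m) - AR (i - m) := by
      intro i h1
      show (if i < ρ - 4 then _ else if i < ρ + m then _ else _) = _
      rw [if_neg (by omega), if_neg (by omega)]
    refine ⟨ρ - 4, ρ + m, c', ?_, by omega, ?_⟩
    · refine ⟨by omega, by omega, ?_, ?_, ?_, ?_, ?_, ?_⟩
      · intro i hi
        rcases Nat.lt_or_ge i (ρ - 4) with h | h
        · rw [c1 i h]
          have := hc i (by omega)
          omega
        · rcases Nat.lt_or_ge i (ρ + m) with h' | h'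
          · rw [c2 i h h']; positivity
          · rw [c3 i h']
            have := hc (i - m) (by omega)
            omega
      · intro i h1 h2; exact c2 i h1 h2
      · intro i hi hpos
        rw [c1 i hi] at hpos ⊢
        exact hraw.own_col i (by omega) hpos
      · intro i h1 h2 hpos
        rw [c3 i h1] at hpos ⊢
        have := hraw.own_row (i - m) (by omega) (by omega) hpos
        rw [show i - m + m = i by omega] at this
        rw [show n + m - i = n - (i - m) by omega]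
        exact this
      · intro i hi
        rw [c1 i hi]
        have h1 := zoneC i
        have h2 := hc i (by omega)
        omega
      · intro i h1 h2
        rw [c3 i h1]
        have h3 := zoneR (i - m) (by omega)
        rw [show i - m + m = i by omega] at h3
        rw [show n + m - i = n - (i - m) by omega]
        have h4 := hc (i - m) (by omega)
        omega
    · have hsum := acc_sum_heavy c c' LC AC LR AR (b := Nb * s) (s := s) (ρ := ρ) (n := n) (m := m)
        hρ hc (fun i hi => (c1 i hi).ge) (fun i h1 h2 => (c2 i h1 h2).ge)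
        (fun i h1 h2 => by
          have := c3 (i + m) (by omega)
          rw [show i + m - m = i by omega] at this
          exact this.ge)
      rw [F6]
      have l1 : (∑ i ∈ Finset.range (ρ - 4), (LC i : ℤ) + ∑ i ∈ Finset.Ico ρ (n + 1), (LR i : ℤ)) ≤
          (D : ℤ) := by exact_mod_cast late
      have l2 : (∑ i ∈ Finset.range (ρ - 4), (AC i : ℤ) + ∑ i ∈ Finset.Ico ρ (n + 1), (AR i : ℤ)) ≤
          (A : ℤ) := by exact_mod_cast ahead0
      have hX' : (Dp : ℤ) * m * (Nb * s : ℕ) ≤ (D : ℤ) + A := by exact_mod_cast hX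
      have hDp' : (0 : ℤ) < Dp := by exact_mod_cast hDp
      have hs0 : (0 : ℤ) ≤ s := Int.natCast_nonneg s
      have hm0 : (0 : ℤ) ≤ m := Int.natCast_nonneg m
      have hn0 : (0 : ℤ) ≤ n := Int.natCast_nonneg n
      have hb0 : (0 : ℤ) ≤ (Nb * s : ℕ) := Int.natCast_nonneg _
      have h1 : ∑ i ∈ Finset.range (n + 1), c i ≤ ∑ i ∈ Finset.range (n + m + 1), c' i +
          ((24 * (Nb * s) + 2 * s * (n + m + 1) : ℕ) : ℤ) + D + A := by
        have e : ((24 * (Nb * s) + 2 * s * (n + m + 1) : ℕ) : ℤ) =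
            24 * ((Nb * s : ℕ) : ℤ) + 2 * s * (n + m + 1) := by push_cast; ring
        rw [e]
        have h3 : (0 : ℤ) ≤ (s : ℤ) * (n + 2 * m + 1) := by positivity
        linarith
      have h2 := mul_le_mul_of_nonneg_left h1 hDp'.le
      have e2 : ((m * (Nb * s) : ℕ) : ℤ) = m * ((Nb * s : ℕ) : ℤ) := by push_cast; ring
      rw [e2]
      linarith
  · -- light case
    push Not at hX
    set G : Finset ℕ := (Finset.Ico ρ (n + 1)).filter (fun r => (LR r + AR r : ℤ) < c r) with hG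
    have hρn : ρ ≤ n := by
      by_contra hcon
      have hρ' : ρ = n + 1 := by omega
      rw [hρ', Finset.Ico_self, Finset.sum_empty, mul_zero] at hbig
      have h1 : 0 < Kk * Dp * m := Nat.mul_pos (Nat.mul_pos hKk hDp) (by omega)
      have h2 : 0 < 2 * n * (Nb * s) := Nat.mul_pos (by omega) hb
      have h3 : (0 : ℤ) < ((2 * n * (Nb * s) : ℕ) : ℤ) := by exact_mod_cast h2
      linarith
    -- size of G
    have hGcard : Dp * m ≤ G.card := by
      have h1 : ∑ i ∈ Finset.Ico ρ (n + 1), c i ≤ (G.card : ℤ) * (Nb * s : ℕ) + (D + A) := by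
        calc ∑ i ∈ Finset.Ico ρ (n + 1), c i
            ≤ ∑ i ∈ Finset.Ico ρ (n + 1), ((if (LR i + AR i : ℤ) < c i then ((Nb * s : ℕ) : ℤ) else 0)
                + (LR i + AR i)) := by
              refine Finset.sum_le_sum fun i hi => ?_
              have := hc i (by have := (Finset.mem_Ico.mp hi).2; omega)
              split_ifs with h
              · have h0 : (0 : ℤ) ≤ LR i + AR i := by positivity
                linarith
              · push Not at h; linarith
          _ = (G.card : ℤ) * (Nb * s : ℕ) + (∑ i ∈ Finset.Ico ρ (n + 1), (LR i : ℤ) +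
                ∑ i ∈ Finset.Ico ρ (n + 1), (AR i : ℤ)) := by
              rw [Finset.sum_add_distrib, Finset.sum_add_distrib, ← Finset.sum_filter,
                Finset.sum_const, nsmul_eq_mul]
          _ ≤ (G.card : ℤ) * (Nb * s : ℕ) + (D + A) := by
              have l1 : ∑ i ∈ Finset.Ico ρ (n + 1), LR i ≤ D := le_trans (Nat.le_add_left _ _) late
              have l2 : ∑ i ∈ Finset.Ico ρ (n + 1), AR i ≤ A :=
                le_trans (Nat.le_add_left _ _) ahead0
              have l1' : ∑ i ∈ Finset.Ico ρ (n + 1), (LR i : ℤ) ≤ D := by exact_mod_cast l1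
              have l2' : ∑ i ∈ Finset.Ico ρ (n + 1), (AR i : ℤ) ≤ A := by exact_mod_cast l2
              linarith
      have hKk' : (0 : ℤ) < Kk := by exact_mod_cast hKk
      have h2 : ((2 * n * (Nb * s) : ℕ) : ℤ) ≤ Kk * ((G.card : ℤ) * (Nb * s : ℕ) + (D + A)) :=
        hbig.trans (mul_le_mul_of_nonneg_left h1 hKk'.le)
      have h3 : 2 * n * (Nb * s) ≤ Kk * (G.card * (Nb * s) + (D + A)) := by exact_mod_cast h2
      have h4 : Kk * (D + A) ≤ Kk * (Dp * m * (Nb * s)) := Nat.mul_le_mul_left _ hX.le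
      have h5 : Kk * Dp * m * (Nb * s) ≤ n * (Nb * s) := Nat.mul_le_mul_right _ hn
      have h6 : Kk * (Dp * m * (Nb * s)) = Kk * Dp * m * (Nb * s) := by ring
      have h7 : (Kk * (Nb * s)) * (Dp * m) ≤ (Kk * (Nb * s)) * G.card := by
        have e1 : Kk * (G.card * (Nb * s) + (D + A)) = (Kk * (Nb * s)) * G.card + Kk * (D + A) := by
          ring
        have e2 : (Kk * (Nb * s)) * (Dp * m) = Kk * Dp * m * (Nb * s) := by ring
        have e3 : 2 * n * (Nb * s) = n * (Nb * s) + n * (Nb * s) := by ring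
        rw [e1, e3] at h3
        rw [e2]
        omega
      exact Nat.le_of_mul_le_mul_left h7 (Nat.mul_pos hKk hb)
    -- choice of the trunk
    let dbl : ℕ → ℕ := fun r => accW (n + m + 1) (accQ f (Nb * s) B')
      (fun u v => (r ≤ u ∧ u < r + m) ∧ r + v ≤ n ∧ n ≤ u + v ∧ u + v < n + m)
    have hdbl : ∑ r ∈ G, dbl r ≤ m * A := by
      apply acc_double
      rintro r _ u v ⟨⟨h1, h2⟩, h3, h4, h5⟩
      exact ⟨⟨h4, h5⟩, h1, h2⟩
    obtain ⟨r, hrG, hr⟩ : ∃ r ∈ G, Dp * dbl r ≤ D + A := by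
      by_contra hcon
      push Not at hcon
      have h1 : G.card * (D + A) < ∑ r ∈ G, Dp * dbl r := by
        rw [← smul_eq_mul, ← Finset.sum_const]
        apply Finset.sum_lt_sum_of_nonempty _ hcon
        rw [← Finset.card_pos]
        exact lt_of_lt_of_le (Nat.mul_pos hDp (by omega)) hGcard
      rw [← Finset.mul_sum] at h1
      have h2 : Dp * ∑ r ∈ G, dbl r ≤ Dp * (m * A) := Nat.mul_le_mul_left _ hdbl
      have h3 : Dp * m * (D + A) ≤ G.card * (D + A) := Nat.mul_le_mul_right _ hGcard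
      have h4 : Dp * (m * A) ≤ Dp * m * (D + A) := by
        rw [← mul_assoc]; exact Nat.mul_le_mul_left _ (Nat.le_add_left _ _)
      omega
    rw [hG, Finset.mem_filter, Finset.mem_Ico] at hrG
    obtain ⟨⟨hρr, hrn'⟩, hrc⟩ := hrG
    have hrn : r ≤ n := by omega
    have ahead1 : ∑ i ∈ Finset.range (r + m - 20), AC i + ∑ i ∈ Finset.Ico r (n + 1), AR i ≤
        A + dbl r := by
      have e1 : ∑ i ∈ Finset.range (r + m - 20), AC i =
          accW (n + m + 1) (accQ f (Nb * s) B')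
            (fun u v => u ∈ Finset.range (r + m - 20) ∧ n - u ≤ v ∧ v < n + m - u) := by
        rw [← acc_cols (M := n + m + 1) (accQ f (Nb * s) B') (Finset.range (r + m - 20))
          (fun i => n - i) (fun i => n + m - i)
          (fun i hi => by rw [Finset.mem_range] at hi; omega) (fun i _ => by omega)]
        exact Finset.sum_congr rfl fun i _ => F2 i
      have e2 : ∑ i ∈ Finset.Ico r (n + 1), AR i =
          accW (n + m + 1) (accQ f (Nb * s) B')
            (fun u v => r + v ≤ n ∧ n - v ≤ u ∧ u < n - v + m) := by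
        rw [← acc_rows (M := n + m + 1) (n := n) (a := r) (accQ f (Nb * s) B')
          (fun i => i) (fun i => i + m) (by omega) (fun i _ hi => by omega)]
        exact Finset.sum_congr rfl fun i hi =>
          F4 i (by have := (Finset.mem_Ico.mp hi).2; omega)
      rw [e1, e2]
      apply accW_le_add3
      · rintro u v _ _ ⟨h1, h2, h3⟩
        rw [Finset.mem_range] at h1
        omega
      · rintro u v _ _ ⟨h1, h2, h3⟩; omega
      · rintro u v _ _ ⟨h1, h2, h3⟩ ⟨h4, h5, h6⟩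
        rw [Finset.mem_range] at h1
        omega
    let c' : ℕ → ℤ := fun i => if i < ρ - 4 then c i - s - LC i - AC i
      else if i < ρ then -(AC i : ℤ)
      else if i < r then
        (if (LR i + NR i : ℤ) < c i then ((Nb * s : ℕ) : ℤ) - 2 * s - AC i else c i - LR i - AC i)
      else if i < r + m - 20 then ((Nb * s : ℕ) : ℤ) - 2 * s - AC i
      else if i < r + m then 0 else c (i - m) - s - LR (i - m) - AR (i - m)
    have c1 : ∀ i, i < ρ - 4 → c' i = c i - s - LC i - AC i := fun i hi => if_pos hi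
    have c2 : ∀ i, ρ - 4 ≤ i → i < ρ → c' i = -(AC i : ℤ) := by
      intro i h1 h2
      show (if i < ρ - 4 then _ else if i < ρ then _ else _) = _
      rw [if_neg (by omega), if_pos h2]
    have c3 : ∀ i, ρ ≤ i → i < r → c' i =
        (if (LR i + NR i : ℤ) < c i then ((Nb * s : ℕ) : ℤ) - 2 * s - AC i
          else c i - LR i - AC i) := by
      intro i h1 h2
      show (if i < ρ - 4 then _ else if i < ρ then _ else if i < r then _ else _) = _
      rw [if_neg (by omega), if_neg (by omega), if_pos h2]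
    have c4 : ∀ i, r ≤ i → i < r + m - 20 → c' i = ((Nb * s : ℕ) : ℤ) - 2 * s - AC i := by
      intro i h1 h2
      show (if i < ρ - 4 then _ else if i < ρ then _ else if i < r then _
        else if i < r + m - 20 then _ else _) = _
      rw [if_neg (by omega), if_neg (by omega), if_neg (by omega), if_pos h2]
    have c5 : ∀ i, r + m - 20 ≤ i → i < r + m → c' i = 0 := by
      intro i h1 h2
      show (if i < ρ - 4 then _ else if i < ρ then _ else if i < r then _
        else if i < r + m - 20 then _ else if i < r + m then _ else _) = _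
      rw [if_neg (by omega), if_neg (by omega), if_neg (by omega), if_neg (by omega), if_pos h2]
    have c6 : ∀ i, r + m ≤ i → c' i = c (i - m) - s - LR (i - m) - AR (i - m) := by
      intro i h1
      show (if i < ρ - 4 then _ else if i < ρ then _ else if i < r then _
        else if i < r + m - 20 then _ else if i < r + m then _ else _) = _
      rw [if_neg (by omega), if_neg (by omega), if_neg (by omega), if_neg (by omega),
        if_neg (by omega)]
    -- upper bound by `b - AC`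
    have cb : ∀ i, i < r + m - 20 → c' i ≤ ((Nb * s : ℕ) : ℤ) - AC i := by
      intro i hi
      have hbb : (0 : ℤ) ≤ ((Nb * s : ℕ) : ℤ) := Int.natCast_nonneg _
      rcases Nat.lt_or_ge i (ρ - 4) with h | h
      · rw [c1 i h]
        have := hc i (by omega)
        omega
      · rcases Nat.lt_or_ge i ρ with h' | h'
        · rw [c2 i h h']; omega
        · rcases Nat.lt_or_ge i r with h'' | h''
          · rw [c3 i h' h'']
            have := hc i (by omega)
            split_ifs <;> omega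
          · rw [c4 i h'' hi]; omega
    refine ⟨r + m - 20, r + m, c', ?_, by omega, ?_⟩
    · refine ⟨by omega, by omega, ?_, ?_, ?_, ?_, ?_, ?_⟩
      · intro i hi
        rcases Nat.lt_or_ge i (r + m - 20) with h | h
        · have := cb i h
          omega
        · rcases Nat.lt_or_ge i (r + m) with h' | h'
          · rw [c5 i h h']; positivity
          · rw [c6 i h']
            have := hc (i - m) (by omega)
            omega
      · intro i h1 h2; exact c5 i h1 h2
      · intro i hi hpos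
        rcases Nat.lt_or_ge i (ρ - 4) with h | h
        · rw [c1 i h] at hpos ⊢
          exact hraw.own_col i (by omega) hpos
        · rcases Nat.lt_or_ge i ρ with h' | h'
          · rw [c2 i h h'] at hpos
            omega
          · rcases Nat.lt_or_ge i r with h'' | h''
            · rw [c3 i h' h''] at hpos ⊢
              have hNA : NR i ≤ AC i := F5 i (by omega)
              by_cases hn1 : (LR i + NR i : ℤ) < c i
              · rw [if_pos hn1] at hpos ⊢
                exact hraw.near i h' (by omega) hn1 hpos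
              · rw [if_neg hn1] at hpos
                omega
            · rw [c4 i h'' hi] at hpos ⊢
              exact hraw.trunk r hρr hrn hrc i h'' (by omega) hpos
      · intro i h1 h2 hpos
        rw [c6 i h1] at hpos ⊢
        have := hraw.own_row (i - m) (by omega) (by omega) hpos
        rw [show i - m + m = i by omega] at this
        rw [show n + m - i = n - (i - m) by omega]
        exact this
      · intro i hi
        have h1 := zoneC i
        have h2 := cb i hi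
        omega
      · intro i h1 h2
        rw [c6 i h1]
        have h3 := zoneR (i - m) (by omega)
        rw [show i - m + m = i by omega] at h3
        rw [show n + m - i = n - (i - m) by omega]
        have h4 := hc (i - m) (by omega)
        omega
    · have hsum := acc_sum_light c c' LC AC LR AR (b := Nb * s) (s := s) (ρ := ρ) (r := r)
        (n := n) (m := m) hρr hrn hm hc (fun i hi => (c1 i hi).ge) (fun i h1 h2 => (c2 i h1 h2).ge)
        (fun i h1 h2 => by
          rw [c3 i h1 h2]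
          have := hc i (by omega)
          split_ifs <;> omega)
        (fun i h1 h2 => (c4 i h1 h2).ge) (fun i h1 h2 => (c5 i h1 h2).ge)
        (fun i h1 h2 => by
          have := c6 (i + m) (by omega)
          rw [show i + m - m = i by omega] at this
          exact this.ge)
      rw [F6]
      have l1 : (∑ i ∈ Finset.range (ρ - 4), (LC i : ℤ) + ∑ i ∈ Finset.Ico ρ (n + 1), (LR i : ℤ)) ≤
          (D : ℤ) := by exact_mod_cast late
      have l2 : (∑ i ∈ Finset.range (r + m - 20), (AC i : ℤ) +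
          ∑ i ∈ Finset.Ico r (n + 1), (AR i : ℤ)) ≤ (A : ℤ) + dbl r := by exact_mod_cast ahead1
      have hr' : (Dp : ℤ) * dbl r ≤ (D : ℤ) + A := by exact_mod_cast hr
      have hDp' : (0 : ℤ) < Dp := by exact_mod_cast hDp
      have h1 : ∑ i ∈ Finset.range (n + 1), c i + ((m * (Nb * s) : ℕ) : ℤ) ≤
          ∑ i ∈ Finset.range (n + m + 1), c' i +
          ((24 * (Nb * s) + 2 * s * (n + m + 1) : ℕ) : ℤ) + D + (A + dbl r) := by
        have e : ((24 * (Nb * s) + 2 * s * (n + m + 1) : ℕ) : ℤ) =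
            24 * ((Nb * s : ℕ) : ℤ) + 2 * s * (n + m + 1) := by push_cast; ring
        have e2 : ((m * (Nb * s) : ℕ) : ℤ) = m * ((Nb * s : ℕ) : ℤ) := by push_cast; ring
        rw [e, e2]
        linarith
      have h2 := mul_le_mul_of_nonneg_left h1 hDp'.le
      linarith

/-- **Round step** (both versions). -/
theorem round_step {f : ℕ → ℕ → V} (hf : IsFrame Adj f)
    {s Nb n ρ m Dp Kk : ℕ} {c : ℕ → ℤ} {O B : Set V} (hs : 0 < s) (hNb : 0 < Nb)
    (hm : 21 ≤ m) (h : Snap f s Nb n ρ c O B) (hd : Disjoint B O)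
    (hDp : 0 < Dp) (hKk : 0 < Kk) (hn : Kk * Dp * m ≤ n)
    (hbig : ((4 * n * (Nb * s) : ℕ) : ℤ) ≤ Kk * ∑ i ∈ Finset.range (n + 1), c i) :
    KForce Adj (3 * (n + m + 1)) (TRound s Nb m)
      (fun O' B' => B ⊆ B' ∧ Disjoint B' O' ∧
        ∃ (ρ1 ρ2 : ℕ) (c' : ℕ → ℤ), SnapF f s Nb (n + m) ρ1 ρ2 c' O' B' ∧ ρ2 ≤ ρ1 + m + 4 ∧
        Dp * (∑ i ∈ Finset.range (n + 1), c i + ((m * (Nb * s) : ℕ) : ℤ)) ≤
          Dp * (∑ i ∈ Finset.range (n + m + 1), c' i +
            ((24 * (Nb * s) + 2 * s * (n + m + 1) : ℕ) : ℤ)) +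
          (Dp + 1) * ((Theta f (Nb * s) (n + m) B' : ℤ) - Theta f (Nb * s) n B)) O B := by
  have hsplit := acc_split (g := c) (a := ρ) (N := n + 1) h.rho_le
  have hKk' : (0 : ℤ) < Kk := by exact_mod_cast hKk
  have e4 : ((4 * n * (Nb * s) : ℕ) : ℤ) = ((2 * n * (Nb * s) : ℕ) : ℤ) +
      ((2 * n * (Nb * s) : ℕ) : ℤ) := by push_cast; ring
  by_cases hcase : ((2 * n * (Nb * s) : ℕ) : ℤ) ≤ Kk * ∑ i ∈ Finset.Ico ρ (n + 1), c i
  · refine KForce.imp (round_dyn hf hs hm h hd) ?_
    rintro O' B' ⟨h1, h2, h3⟩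
    obtain ⟨ρ1, ρ2, c', k1, k2, k3⟩ := round_acc hf.inj hs hNb hm h.rho_le h.le h1 h3 hDp hKk hn
      hcase
    exact ⟨h1, h2, ρ1, ρ2, c', k1, k2, k3⟩
  · have hfl : ((2 * n * (Nb * s) : ℕ) : ℤ) ≤
        Kk * ∑ i ∈ Finset.Ico (n + 1 - ρ) (n + 1), c (n - i) := by
      have e1 : ∑ i ∈ Finset.Ico (n + 1 - ρ) (n + 1), c (n - i) = ∑ i ∈ Finset.range ρ, c i := by
        have hρ := h.rho_le
        refine Finset.sum_bij' (fun i _ => n - i) (fun i _ => n - i) ?_ ?_ ?_ ?_ ?_
        · intro i hi; rw [Finset.mem_Ico] at hi; rw [Finset.mem_range]; omega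
        · intro i hi; rw [Finset.mem_range] at hi; rw [Finset.mem_Ico]; omega
        · intro i hi; rw [Finset.mem_Ico] at hi; omega
        · intro i hi; rw [Finset.mem_range] at hi; omega
        · intro i _; rfl
      rw [e1]
      rw [hsplit, mul_add, e4] at hbig
      push Not at hcase
      linarith
    have hF := h.flip
    refine KForce.imp (round_dyn hf.flip hs hm hF hd) ?_
    rintro O' B' ⟨h1, h2, h3⟩
    obtain ⟨ρ1, ρ2, c', k1, k2, k3⟩ := round_acc hf.flip.inj hs hNb hm hF.rho_le hF.le h1 h3 hDp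
      hKk hn hfl
    have k1' := k1.flip
    rw [show _root_.flip (_root_.flip f) = f from rfl] at k1'
    refine ⟨h1, h2, _, _, _, k1', ?_, ?_⟩
    · have := k1.rho_le
      have := k1.rho_le2
      omega
    · have e1 : ∑ i ∈ Finset.range (n + 1), c (n - i) = ∑ i ∈ Finset.range (n + 1), c i := by
        have := Finset.sum_range_reflect c (n + 1)
        simpa using this
      have e2 : ∑ i ∈ Finset.range (n + m + 1), c' (n + m - i) =
          ∑ i ∈ Finset.range (n + m + 1), c' i := by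
        have := Finset.sum_range_reflect c' (n + m + 1)
        simpa using this
      rw [e1, Theta_flip, Theta_flip] at k3
      rw [e2]
      exact k3

end Contain
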