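import Pool.Agent.Lib.MP_579b69_co.Level0

namespace Contain

variable {V : Type*} {Adj : V → V → Prop}

/-- result of the run which starts at a crossing: all groups bad, or the first non-bad group
`k` is climbed -/
def AlphaRes (f : ℕ → ℕ → V) (s N xL z b h' : ℕ) (O B : Set V) : Prop :=
  (∀ k < N, s ≤ cnt f B (xL + k * s) (xL + (k + 1) * s) z h') ∨
    ∃ k < N, Cov f O (xL + k * s) (xL + (k + 1) * s) (z + b) h' ∧
      ∀ k' < k, s ≤ cnt f B (xL + k' * s) (xL + (k' + 1) * s) z h'

theorem AlphaRes.mono {f : ℕ → ℕ → V} {s N xL z b h' : ℕ} {O O' B B' : Set V}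
    (hO : O ⊆ O') (hB : B ⊆ B') (h : AlphaRes f s N xL z b h' O B) :
    AlphaRes f s N xL z b h' O' B' := by
  rcases h with h | ⟨k, h1, h2, h3⟩
  · left; intro k hk; exact (h k hk).trans (cnt_mono_set f hB _ _ _ _)
  · right
    exact ⟨k, h1, h2.mono hO, fun k' hk' => (h3 k' hk').trans (cnt_mono_set f hB _ _ _ _)⟩

/-- start of a run at a crossing: the columns `[xL, xL + N s)` contain occupied cells in monotone
rows of `[z, z+b)` -/
theorem alpha {f : ℕ → ℕ → V} (hf : IsFrame Adj f) {s N xL z b h' T : ℕ} {O B : Set V}
    (hs : 0 < s) (hcross : Cov (flip f) O z (z + b) xL (xL + N * s)) (hh : z + b ≤ h')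
    (hd : Disjoint B O) (hT : N * ((h' - z) + 2 * s ^ 2) + s * b ≤ T) :
    Safe Adj (fun T O B => T = 0 → AlphaRes f s N xL z b h' O B) T O B := by
  obtain ⟨χ, hχ1, hχ2⟩ := hcross
  have core : ∀ j k, k + j = N → ∀ T O' B', O ⊆ O' → Disjoint B' O' →
      (∀ k' < k, s ≤ cnt f B' (xL + k' * s) (xL + (k' + 1) * s) z h') →
      (0 < j → j * ((h' - z) + 2 * s ^ 2) + s * (z + b - χ (xL + k * s)) ≤ T) →
      Safe Adj (fun T O B => T = 0 → AlphaRes f s N xL z b h' O B) T O' B' := by
    intro j
    induction j with
    | zero =>
      intro k hk T O' B' _ _ hbad _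
      apply Safe.idle
      intro T' _ B2 hB _
      left
      intro k' hk'
      exact (hbad k' (by omega)).trans (cnt_mono_set f hB _ _ _ _)
    | succ j ih =>
      intro k hk T O' B' hO hd' hbad hT
      have hT := hT (by omega)
      have e1 : xL + (k + 1) * s = xL + k * s + s := by ring
      have hkN : xL + (k + 1) * s ≤ xL + N * s := by
        have : (k + 1) * s ≤ N * s := Nat.mul_le_mul_right _ (by omega)
        omega
      have hp := hχ1 (xL + k * s) (by omega) (by omega)
      have hP := hχ1 (xL + k * s + s - 1) (by omega) (by omega)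
      have hpP : χ (xL + k * s) ≤ χ (xL + k * s + s - 1) :=
        hχ2 _ _ (by omega) (by omega) (by omega)
      have hnext : 0 < j → s * (z + b - χ (xL + (k + 1) * s)) ≤
          s * (z + b - χ (xL + k * s + s - 1)) := by
        intro hj
        apply Nat.mul_le_mul_left
        have hkN2 : xL + (k + 1 + 1) * s ≤ xL + N * s := by
          have : (k + 1 + 1) * s ≤ N * s := Nat.mul_le_mul_right _ (by omega)
          omega
        have e2 : (k + 1 + 1) * s = (k + 1) * s + s := by ring
        have := hχ2 (xL + k * s + s - 1) (xL + (k + 1) * s) (by omega) (by omega) (by omega)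
        omega
      have eQ : (j + 1) * ((h' - z) + 2 * s ^ 2) = j * ((h' - z) + 2 * s ^ 2) +
          ((h' - z) + 2 * s ^ 2) := by ring
      rw [eQ] at hT
      have hmulpP : s * (z + b - χ (xL + k * s + s - 1)) ≤ s * (z + b - χ (xL + k * s)) :=
        Nat.mul_le_mul_left _ (by omega)
      by_cases hbk : s ≤ cnt f B' (xL + k * s) (xL + (k + 1) * s) z h'
      · refine ih (k + 1) (by omega) T O' B' hO hd' ?_ ?_
        · intro k' hk'
          rcases Nat.lt_succ_iff_lt_or_eq.mp hk' with h | h
          · exact hbad k' h
          · rw [h]; exact hbk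
        · intro hj
          have := hnext hj
          omega
      · have hbk' : cnt f B' (xL + k * s) (xL + k * s + s) z h' < s := by
          rw [← e1]; omega
        refine level0 hf (a := xL + k * s) (s := s) (p := χ (xL + k * s))
          (P := χ (xL + k * s + s - 1)) (h := h')
          (D := 2 * s + (χ (xL + k * s + s - 1) - χ (xL + k * s)))
          (E := j * ((h' - z) + 2 * s ^ 2) + s * (z + b - χ (xL + k * s + s - 1)))
          hpP (by omega) le_rfl _ ?_ ?_ ?_ hd' ?_ ?_ ?_
        · -- invariant
          intro T' _ O2 B2 H hO' hB' hcov hPH hHh hTT hT0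
          have hH : H = h' := by omega
          subst hH
          right
          refine ⟨k, by omega, ?_, ?_⟩
          · rw [e1]
            exact hcov.weaken le_rfl le_rfl (by omega) le_rfl
          · intro k' hk'
            exact (hbad k' hk').trans (cnt_mono_set f hB' _ _ _ _)
        · -- success
          intro T' _ O2 B2 hO' hB' _ hcov _
          apply Safe.idle
          intro T2 _ B3 hB3 _
          right
          refine ⟨k, by omega, ?_, ?_⟩
          · rw [e1]
            exact hcov.weaken le_rfl le_rfl (by omega) le_rfl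
          · intro k' hk'
            exact (hbad k' hk').trans (cnt_mono_set f (hB'.trans hB3) _ _ _ _)
        · -- failure
          intro T' hT' O2 B2 H hO' hB' hd2 hcov hPH hHh hTT hc
          refine ih (k + 1) (by omega) T' O2 B2 (hO.trans hO') hd2 ?_ ?_
          · intro k' hk'
            rcases Nat.lt_succ_iff_lt_or_eq.mp hk' with h | h
            · exact (hbad k' h).trans (cnt_mono_set f hB' _ _ _ _)
            · rw [h, e1]
              exact hc.trans (cnt_mono_rect f B2 le_rfl le_rfl (by omega) le_rfl)
          · intro hj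
            have := hnext hj
            omega
        · exact (cnt_mono_rect f B' le_rfl le_rfl (by omega) le_rfl).trans_lt hbk'
        · intro x hx1 hx2
          refine ⟨χ x, hχ2 _ _ (by omega) hx1 (by omega), hχ2 _ _ (by omega) (by omega) (by omega),
            hO (hχ1 x (by omega) (by omega)).2.2⟩
        · -- budget
          have h1 : (2 * s + (χ (xL + k * s + s - 1) - χ (xL + k * s))) *
              (s - cnt f B' (xL + k * s) (xL + k * s + s) (χ (xL + k * s)) h') ≤
              (2 * s + (χ (xL + k * s + s - 1) - χ (xL + k * s))) * s :=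
            Nat.mul_le_mul_left _ (by omega)
          have h2 : (2 * s + (χ (xL + k * s + s - 1) - χ (xL + k * s))) * s +
              s * (z + b - χ (xL + k * s + s - 1)) = 2 * s ^ 2 + s * (z + b - χ (xL + k * s)) := by
            have h3 : z + b - χ (xL + k * s) = (χ (xL + k * s + s - 1) - χ (xL + k * s)) +
                (z + b - χ (xL + k * s + s - 1)) := by omega
            rw [h3]; ring
          omega
  refine core N 0 (by omega) T O B (le_refl _) hd (by intro k' hk'; omega) ?_
  intro hN
  have h1 : xL + 0 * s = xL := by ring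
  rw [h1]
  have hNs : 0 < N * s := Nat.mul_pos hN hs
  have := (hχ1 xL le_rfl (by omega)).1
  have h2 : s * (z + b - χ xL) ≤ s * b := Nat.mul_le_mul_left _ (by omega)
  omega

end Contain
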