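import Pool.Agent.Lib.MP_579b69_co.Game

namespace Containment

/-- the cell `(x, L)` of the eighth plane (for `x ≤ L`; otherwise the origin) -/
def bcell (L x : ℕ) : EV :=
  if h : x ≤ L then ⟨((x : ℤ), (L : ℤ)), by
    show (0 : ℤ) ≤ (x : ℤ) ∧ (x : ℤ) ≤ (L : ℤ)
    constructor
    · positivity
    · exact_mod_cast h⟩ else ⟨(0, 0), by simp⟩

theorem bcell_snd {L x : ℕ} (h : x ≤ L) : (bcell L x).1.2 = L := by
  unfold bcell
  rw [dif_pos h]

open Classical in
/-- the barrier strategy: it depends only on the number of the turn -/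
noncomputable def bstrat (q : ℝ) (L : ℕ) (l : List (Finset EV)) : Finset EV :=
  ((Finset.Ico ⌊(l.length : ℝ) * q⌋₊ ⌊((l.length : ℝ) + 1) * q⌋₊).filter
    (fun x => x ≤ L)).image (bcell L)

theorem hist_length {V : Type*} (S : ℕ → Finset V) (t : ℕ) : (hist S t).length = t := by
  simp [hist]

theorem bstrat_card (q : ℝ) (L : ℕ) (l : List (Finset EV)) :
    (bstrat q L l).card ≤ ⌊((l.length : ℝ) + 1) * q⌋₊ - ⌊(l.length : ℝ) * q⌋₊ := by
  classical
  unfold bstrat
  refine le_trans Finset.card_image_le ?_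
  refine le_trans (Finset.card_filter_le _ _) ?_
  rw [Nat.card_Ico]

theorem mem_bstrat {q : ℝ} {L : ℕ} {l : List (Finset EV)} {v : EV} (h : v ∈ bstrat q L l) :
    v.1.2 = L ∧ ⌊(l.length : ℝ) * q⌋₊ ≤ L := by
  classical
  unfold bstrat at h
  rw [Finset.mem_image] at h
  obtain ⟨x, hx, rfl⟩ := h
  rw [Finset.mem_filter, Finset.mem_Ico] at hx
  exact ⟨bcell_snd hx.2, le_trans hx.1.1 hx.2⟩

theorem exists_turn {q : ℝ} (x : ℕ) : ∀ t : ℕ, x < ⌊(t : ℝ) * q⌋₊ →
    ∃ i < t, ⌊(i : ℝ) * q⌋₊ ≤ x ∧ x < ⌊((i : ℝ) + 1) * q⌋₊ := by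
  intro t
  induction t with
  | zero => intro h; simp at h
  | succ t ih =>
    intro h
    by_cases h2 : x < ⌊(t : ℝ) * q⌋₊
    · obtain ⟨i, hi, hi2⟩ := ih h2
      exact ⟨i, by omega, hi2⟩
    · refine ⟨t, by omega, by omega, ?_⟩
      push_cast at h
      exact h

theorem mem_del_bstrat {q : ℝ} {L : ℕ} {S : ℕ → Finset EV} {t : ℕ}
    (ht : L + 1 ≤ ⌊(t : ℝ) * q⌋₊) {v : EV} (hv : v.1.2 = L) : v ∈ del (bstrat q L) S t := by
  classical
  have h0 := v.2.1
  have h1 := v.2.2
  obtain ⟨x, hx⟩ := Int.eq_ofNat_of_zero_le h0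
  have hxL : x ≤ L := by omega
  obtain ⟨i, hi, hi1, hi2⟩ := exists_turn (q := q) x t (by omega)
  refine ⟨i, hi, ?_⟩
  unfold bstrat
  rw [Finset.mem_image]
  refine ⟨x, ?_, ?_⟩
  · rw [Finset.mem_filter, Finset.mem_Ico, hist_length]
    exact ⟨⟨hi1, hi2⟩, hxL⟩
  · unfold bcell
    rw [dif_pos hxL]
    apply Subtype.ext
    apply Prod.ext
    · exact hx.symm
    · exact hv.symm

theorem occ_succ {V : Type*} (B0 : Finset V) (S : ℕ → Finset V) (t : ℕ) :
    occ B0 S (t + 1) = occ B0 S t ∪ ↑(S t) := by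
  ext v
  constructor
  · rintro (h | ⟨i, hi, h⟩)
    · exact Or.inl (Or.inl h)
    · rcases Nat.lt_succ_iff_lt_or_eq.mp hi with h2 | rfl
      · exact Or.inl (Or.inr ⟨i, h2, h⟩)
      · exact Or.inr h
  · rintro ((h | ⟨i, hi, h⟩) | h)
    · exact Or.inl h
    · exact Or.inr ⟨i, by omega, h⟩
    · exact Or.inr ⟨t, by omega, h⟩

theorem occ_mono {V : Type*} (B0 : Finset V) (S : ℕ → Finset V) {t t' : ℕ} (h : t ≤ t') :
    occ B0 S t ⊆ occ B0 S t' := by
  rintro v (h1 | ⟨i, hi, h1⟩)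
  · exact Or.inl h1
  · exact Or.inr ⟨i, by omega, h1⟩

theorem finite_rows (L : ℕ) : {v : EV | v.1.2 < L}.Finite := by
  have h : ((Set.Icc (0 : ℤ) L) ×ˢ (Set.Icc (0 : ℤ) L) : Set (ℤ × ℤ)).Finite :=
    (Set.finite_Icc _ _).prod (Set.finite_Icc _ _)
  refine Set.Finite.of_finite_image (f := Subtype.val) (h.subset ?_) Subtype.val_injective.injOn
  rintro p ⟨v, hv, rfl⟩
  have h0 := v.2.1
  have h1 := v.2.2
  have h2 : v.1.2 < L := hv
  simp only [Set.mem_prod, Set.mem_Icc]
  refine ⟨⟨h0, ?_⟩, ?_, ?_⟩ <;> omega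

theorem occ_stabilizes {V : Type*} (B0 : Finset V) (S : ℕ → Finset V) {W : Set V}
    (hW : W.Finite) (h : ∀ t, occ B0 S t ⊆ W) :
    ∃ t0, ∀ t, t0 ≤ t → occ B0 S t = occ B0 S t0 := by
  classical
  -- for each vertex of `W` take a time at which it is occupied, if any
  let τ : V → ℕ := fun v => if hv : ∃ t, v ∈ occ B0 S t then hv.choose else 0
  refine ⟨hW.toFinset.sup τ, fun t ht => ?_⟩
  apply Set.Subset.antisymm
  · intro v hv
    have hvW : v ∈ W := h t hv
    have hex : ∃ t, v ∈ occ B0 S t := ⟨t, hv⟩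
    have h1 : v ∈ occ B0 S (τ v) := by
      have : τ v = hex.choose := by simp only [τ]; rw [dif_pos hex]
      rw [this]
      exact hex.choose_spec
    have h2 : τ v ≤ hW.toFinset.sup τ := Finset.le_sup (f := τ) (by simpa using hvW)
    exact occ_mono B0 S h2 h1
  · exact occ_mono B0 S ht

/-- for `q > 1` Container wins the unrestricted game on the eighth plane by deleting a far row -/
theorem containerWins_E {q : ℝ} (hq : 1 < q) (B0 : Finset EV) :
    ContainerWins EAdj q (fun _ => ⊤) B0 := by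
  classical
  have hq0 : (0 : ℝ) ≤ q := by linarith
  -- bound for the rows of `B0`
  obtain ⟨y0, hy0⟩ : ∃ y0 : ℕ, ∀ v ∈ B0, v.1.2 ≤ (y0 : ℤ) := by
    refine ⟨B0.sup (fun v => v.1.2.toNat), fun v hv => ?_⟩
    have h1 : v.1.2.toNat ≤ B0.sup (fun v : EV => v.1.2.toNat) :=
      Finset.le_sup (f := fun v : EV => v.1.2.toNat) hv
    have h2 : v.1.2 ≤ (v.1.2.toNat : ℤ) := Int.self_le_toNat _
    exact le_trans h2 (by exact_mod_cast h1)
  -- the far row
  obtain ⟨L, hL⟩ := exists_nat_gt ((1 + q * y0) / (q - 1))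
  have hL1 : 1 + q * y0 < L * (q - 1) := by
    rwa [div_lt_iff₀ (by linarith)] at hL
  have hLy : y0 < L := by
    have h1 : (y0 : ℝ) < L := by
      have h2 : (0 : ℝ) ≤ y0 := Nat.cast_nonneg _
      by_contra hcon
      push Not at hcon
      have h3 : (L : ℝ) * (q - 1) ≤ y0 * (q - 1) :=
        mul_le_mul_of_nonneg_right hcon (by linarith)
      nlinarith
    exact_mod_cast h1
  have hreach : ∀ t : ℕ, L ≤ y0 + t → L + 1 ≤ ⌊(t : ℝ) * q⌋₊ := by
    intro t ht
    apply Nat.le_floor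
    have h1 : (L : ℝ) ≤ y0 + t := by exact_mod_cast ht
    have h2 : ((L : ℝ) - y0) * q ≤ t * q := mul_le_mul_of_nonneg_right (by linarith) hq0
    push_cast
    nlinarith
  refine ⟨bstrat q L, fun S hS => ?_⟩
  have hrow : ∀ t : ℕ, ∀ v ∈ occ B0 S t, v.1.2 ≤ (y0 : ℤ) + t ∧ v.1.2 < L := by
    intro t
    induction t with
    | zero =>
      rintro v (hv | ⟨i, hi, _⟩)
      · have := hy0 v hv
        constructor
        · push_cast; omega
        · omega
      · omega
    | succ t ih =>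
      intro v hv
      rw [occ_succ] at hv
      rcases hv with hv | hv
      · have := ih v hv
        constructor
        · push_cast; omega
        · exact this.2
      · obtain ⟨hnd, hor⟩ := (hS t).2 v hv
        have hle : v.1.2 ≤ (y0 : ℤ) + (t + 1 : ℕ) ∧ v.1.2 ≤ L := by
          rcases hor with h | ⟨u, hu, huv⟩
          · have := ih v h
            push_cast
            omega
          · have h1 := ih u hu
            have h2 := huv.1
            push_cast
            omega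
        refine ⟨hle.1, ?_⟩
        by_contra hcon
        have hvL : v.1.2 = L := by omega
        apply hnd
        apply mem_del_bstrat _ hvL
        apply hreach
        have := hle.1
        rw [hvL] at this
        exact_mod_cast this
  refine ⟨fun t => ⟨?_, ?_⟩, ?_⟩
  · have := bstrat_card q L (hist S t)
    rwa [hist_length] at this
  · intro v hv hocc
    have h1 := mem_bstrat hv
    have h2 := hrow t v hocc
    omega
  · exact occ_stabilizes B0 S (finite_rows L) (fun t v hv => (hrow t v hv).2)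

/-- a Container win stays a Container win for a smaller spreading function -/
theorem ContainerWins.mono {V : Type*} {Adj : V → V → Prop} {q : ℝ} {g g' : ℕ → ℕ∞}
    {B0 : Finset V} (hg : ∀ t, g' t ≤ g t) (h : ContainerWins Adj q g B0) :
    ContainerWins Adj q g' B0 := by
  obtain ⟨σ, hσ⟩ := h
  exact ⟨σ, fun S hS => hσ S fun t => ⟨le_trans (hS t).1 (hg _), (hS t).2⟩⟩

end Containment
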