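import Mathlib

/-!
# Containment game on the eighth plane: local calculus

Coordinates: a *frame* is an injective map `f : ℕ → ℕ → V` such that `f l p → f l (p+1)` and
`f l p → f (l+1) p` are edges.  `flip f` is again a frame.  The first coordinate is called
the lane (column), the second one the position (row).
-/

namespace Contain

variable {V : Type*}

structure IsFrame (Adj : V → V → Prop) (f : ℕ → ℕ → V) : Prop where
  up : ∀ l p, Adj (f l p) (f l (p + 1))
  right : ∀ l p, Adj (f l p) (f (l + 1) p)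
  inj : ∀ l p l' p', f l p = f l' p' → l = l' ∧ p = p'

theorem IsFrame.flip {Adj : V → V → Prop} {f : ℕ → ℕ → V} (h : IsFrame Adj f) :
    IsFrame Adj (flip f) where
  up := fun l p => h.right p l
  right := fun l p => h.up p l
  inj := fun l p l' p' e => (h.inj p l p' l' e).symm

open Classical in
/-- number of cells of the rectangle `[x0,x1) × [y0,y1)` (lanes × positions) lying in `B` -/
noncomputable def cnt (f : ℕ → ℕ → V) (B : Set V) (x0 x1 y0 y1 : ℕ) : ℕ :=
  ((Finset.Ico x0 x1 ×ˢ Finset.Ico y0 y1).filter (fun p => f p.1 p.2 ∈ B)).card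

/-- the rows `[y0,y1)` are covered by cells of `O` in monotone columns inside `[a,a')` -/
def Cov (f : ℕ → ℕ → V) (O : Set V) (a a' y0 y1 : ℕ) : Prop :=
  ∃ χ : ℕ → ℕ, (∀ y, y0 ≤ y → y < y1 → a ≤ χ y ∧ χ y < a' ∧ f (χ y) y ∈ O) ∧
    (∀ y y', y0 ≤ y → y ≤ y' → y' < y1 → χ y ≤ χ y')

/-- one-token step: at most one new vertex, not in `B`, a child of an occupied vertex -/
def Step (Adj : V → V → Prop) (O B O' : Set V) : Prop :=
  O' = O ∨ ∃ v, v ∉ B ∧ (∃ u ∈ O, Adj u v) ∧ O' = insert v O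

/-- `Safe I T O B`: with `T` turns remaining and one token, Spreader can keep the invariant
`I` (indexed by the number of remaining turns) at all times, whatever new blocks appear. -/
def Safe (Adj : V → V → Prop) (I : ℕ → Set V → Set V → Prop) : ℕ → Set V → Set V → Prop
  | 0, O, B => I 0 O B
  | T + 1, O, B => I (T + 1) O B ∧ ∀ B', B ⊆ B' → Disjoint B' O →
      ∃ O', Step Adj O B' O' ∧ Safe Adj I T O' B'

/-- monotone invariants -/
def IMono (I : ℕ → Set V → Set V → Prop) : Prop :=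
  ∀ T O O' B B', O ⊆ O' → B ⊆ B' → I T O B → I T O' B'

/-- `K`-token step -/
def KStep (Adj : V → V → Prop) (K : ℕ) (O B O' : Set V) : Prop :=
  ∃ S : Finset V, S.card ≤ K ∧ (∀ v ∈ S, v ∉ B ∧ ∃ u ∈ O, Adj u v) ∧ O' = O ∪ ↑S

/-- Spreader with `K` tokens per turn can force `Φ` after exactly `T` turns, whatever new
blocks appear -/
def KForce (Adj : V → V → Prop) (K : ℕ) : ℕ → (Set V → Set V → Prop) → Set V → Set V → Prop
  | 0, Φ, O, B => Φ O B
  | T + 1, Φ, O, B => ∀ B', B ⊆ B' → Disjoint B' O →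
      ∃ O', KStep Adj K O B' O' ∧ KForce Adj K T Φ O' B'

section cnt
variable (f : ℕ → ℕ → V)

theorem cnt_flip (B : Set V) (x0 x1 y0 y1 : ℕ) :
    cnt (flip f) B y0 y1 x0 x1 = cnt f B x0 x1 y0 y1 := by
  classical
  unfold cnt
  refine Finset.card_bij' (fun p _ => (p.2, p.1)) (fun p _ => (p.2, p.1)) ?_ ?_ ?_ ?_
  · intro p hp
    rw [Finset.mem_filter, Finset.mem_product] at hp ⊢
    exact ⟨⟨hp.1.2, hp.1.1⟩, hp.2⟩
  · intro p hp
    rw [Finset.mem_filter, Finset.mem_product] at hp ⊢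
    exact ⟨⟨hp.1.2, hp.1.1⟩, hp.2⟩
  · intro p _; rfl
  · intro p _; rfl

theorem cnt_mono {B B' : Set V} (h : B ⊆ B') {x0 x1 y0 y1 x0' x1' y0' y1' : ℕ}
    (hx0 : x0' ≤ x0) (hx1 : x1 ≤ x1') (hy0 : y0' ≤ y0) (hy1 : y1 ≤ y1') :
    cnt f B x0 x1 y0 y1 ≤ cnt f B' x0' x1' y0' y1' := by
  classical
  unfold cnt
  apply Finset.card_le_card
  intro p hp
  simp only [Finset.mem_filter, Finset.mem_product, Finset.mem_Ico] at hp ⊢
  exact ⟨⟨⟨by omega, by omega⟩, ⟨by omega, by omega⟩⟩, h hp.2⟩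

theorem cnt_mono_set {B B' : Set V} (h : B ⊆ B') (x0 x1 y0 y1 : ℕ) :
    cnt f B x0 x1 y0 y1 ≤ cnt f B' x0 x1 y0 y1 :=
  cnt_mono f h le_rfl le_rfl le_rfl le_rfl

theorem cnt_mono_rect (B : Set V) {x0 x1 y0 y1 x0' x1' y0' y1' : ℕ}
    (hx0 : x0' ≤ x0) (hx1 : x1 ≤ x1') (hy0 : y0' ≤ y0) (hy1 : y1 ≤ y1') :
    cnt f B x0 x1 y0 y1 ≤ cnt f B x0' x1' y0' y1' :=
  cnt_mono f (le_refl B) hx0 hx1 hy0 hy1

theorem cnt_split_x (B : Set V) {x0 x1 x2 : ℕ} (y0 y1 : ℕ) (h01 : x0 ≤ x1) (h12 : x1 ≤ x2) :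
    cnt f B x0 x2 y0 y1 = cnt f B x0 x1 y0 y1 + cnt f B x1 x2 y0 y1 := by
  classical
  unfold cnt
  rw [← Finset.card_union_of_disjoint]
  · congr 1
    ext p
    simp only [Finset.mem_filter, Finset.mem_product, Finset.mem_Ico, Finset.mem_union]
    constructor
    · rintro ⟨⟨⟨h1, h2⟩, h3⟩, h4⟩
      by_cases hp : p.1 < x1
      · exact Or.inl ⟨⟨⟨h1, hp⟩, h3⟩, h4⟩
      · exact Or.inr ⟨⟨⟨by omega, h2⟩, h3⟩, h4⟩
    · rintro (⟨⟨⟨h1, h2⟩, h3⟩, h4⟩ | ⟨⟨⟨h1, h2⟩, h3⟩, h4⟩)
      · exact ⟨⟨⟨h1, by omega⟩, h3⟩, h4⟩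
      · exact ⟨⟨⟨by omega, h2⟩, h3⟩, h4⟩
  · rw [Finset.disjoint_left]
    intro p hp hq
    simp only [Finset.mem_filter, Finset.mem_product, Finset.mem_Ico] at hp hq
    omega

theorem cnt_split_y (B : Set V) (x0 x1 : ℕ) {y0 y1 y2 : ℕ} (h01 : y0 ≤ y1) (h12 : y1 ≤ y2) :
    cnt f B x0 x1 y0 y2 = cnt f B x0 x1 y0 y1 + cnt f B x0 x1 y1 y2 := by
  rw [← cnt_flip f B x0 x1 y0 y2, ← cnt_flip f B x0 x1 y0 y1, ← cnt_flip f B x0 x1 y1 y2]
  exact cnt_split_x (flip f) B x0 x1 h01 h12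

theorem cnt_diff {B B' : Set V} (h : B ⊆ B') (x0 x1 y0 y1 : ℕ) :
    cnt f B' x0 x1 y0 y1 = cnt f B x0 x1 y0 y1 + cnt f (B' \ B) x0 x1 y0 y1 := by
  classical
  unfold cnt
  rw [← Finset.card_union_of_disjoint]
  · congr 1
    ext p
    simp only [Finset.mem_filter, Finset.mem_product, Finset.mem_Ico, Finset.mem_union,
      Set.mem_sdiff]
    constructor
    · rintro ⟨h1, h2⟩
      by_cases hp : f p.1 p.2 ∈ B
      · exact Or.inl ⟨h1, hp⟩
      · exact Or.inr ⟨h1, h2, hp⟩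
    · rintro (⟨h1, h2⟩ | ⟨h1, h2, _⟩)
      · exact ⟨h1, h h2⟩
      · exact ⟨h1, h2⟩
  · rw [Finset.disjoint_left]
    intro p hp hq
    simp only [Finset.mem_filter, Set.mem_sdiff] at hp hq
    exact hq.2.2 hp.2

theorem cnt_le_area (B : Set V) (x0 x1 y0 y1 : ℕ) :
    cnt f B x0 x1 y0 y1 ≤ (x1 - x0) * (y1 - y0) := by
  classical
  unfold cnt
  refine (Finset.card_filter_le _ _).trans ?_
  rw [Finset.card_product, Nat.card_Ico, Nat.card_Ico]

/-- summing over consecutive column groups -/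
theorem cnt_sum_groups (B : Set V) (x s N y0 y1 : ℕ) :
    cnt f B x (x + N * s) y0 y1 =
      ∑ k ∈ Finset.range N, cnt f B (x + k * s) (x + (k + 1) * s) y0 y1 := by
  induction N with
  | zero => simp [cnt]
  | succ N ih =>
    rw [Finset.sum_range_succ, ← ih]
    apply cnt_split_x
    · omega
    · have : (N + 1) * s = N * s + s := by ring
      omega

/-- if fewer than `s` blocks in `s` lanes then one lane is free -/
theorem exists_free_lane (B : Set V) {a s y0 y1 : ℕ} (h : cnt f B a (a + s) y0 y1 < s) :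
    ∃ x, a ≤ x ∧ x < a + s ∧ ∀ y, y0 ≤ y → y < y1 → f x y ∉ B := by
  classical
  by_contra hcon
  push Not at hcon
  choose! g hg using hcon
  have : s ≤ cnt f B a (a + s) y0 y1 := by
    unfold cnt
    calc s = (Finset.Ico a (a + s)).card := by simp
      _ ≤ _ := by
        apply Finset.card_le_card_of_injOn (fun x => (x, g x))
        · intro x hx
          simp only [Finset.coe_Ico, Set.mem_Ico] at hx
          have := hg x hx.1 hx.2
          simp only [Finset.coe_filter, Finset.mem_product, Finset.mem_Ico, Set.mem_ofPred_eq]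
          exact ⟨⟨⟨hx.1, hx.2⟩, this.1, this.2.1⟩, this.2.2⟩
        · intro x _ y _ hxy
          simpa using (Prod.mk.inj hxy).1
  omega

end cnt

section Cov
variable {f : ℕ → ℕ → V}

theorem Cov.mono {O O' : Set V} (h : O ⊆ O') {a a' y0 y1 : ℕ} (hc : Cov f O a a' y0 y1) :
    Cov f O' a a' y0 y1 := by
  obtain ⟨χ, h1, h2⟩ := hc
  exact ⟨χ, fun y hy hy' => ⟨(h1 y hy hy').1, (h1 y hy hy').2.1, h (h1 y hy hy').2.2⟩, h2⟩

theorem Cov.weaken {O : Set V} {a a' y0 y1 c c' z0 z1 : ℕ} (hc : Cov f O a a' y0 y1)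
    (h1 : c ≤ a) (h2 : a' ≤ c') (h3 : y0 ≤ z0) (h4 : z1 ≤ y1) : Cov f O c c' z0 z1 := by
  obtain ⟨χ, k1, k2⟩ := hc
  refine ⟨χ, fun y hy hy' => ?_, fun y y' hy hyy hy' => k2 y y' (by omega) hyy (by omega)⟩
  have := k1 y (by omega) (by omega)
  exact ⟨by omega, by omega, this.2.2⟩

theorem Cov.empty {O : Set V} {a a' y0 y1 : ℕ} (h : y1 ≤ y0) : Cov f O a a' y0 y1 :=
  ⟨fun _ => 0, fun y hy hy' => by omega, fun y y' _ _ _ => le_rfl⟩

/-- concatenation: rows `[y0,y1)` in columns `[a,b)` and rows `[y1,y2)` in columns `[b',a')`,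
`b ≤ b'` -/
theorem Cov.append {O : Set V} {a b b' a' y0 y1 y1' y2 : ℕ} (h1 : Cov f O a b y0 y1)
    (h2 : Cov f O b' a' y1' y2) (hb : b ≤ b') (ha : a ≤ b') (hb' : b ≤ a')
    (hy : y1' ≤ y1) : Cov f O a a' y0 y2 := by
  obtain ⟨χ, h11, h12⟩ := h1
  obtain ⟨ψ, h21, h22⟩ := h2
  refine ⟨fun y => if y < y1 then χ y else ψ y, ?_, ?_⟩
  · intro y hy0 hy2
    by_cases hc : y < y1
    · simp only [hc, if_true]
      have := h11 y hy0 hc
      exact ⟨this.1, by omega, this.2.2⟩
    · simp only [hc, if_false]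
      have := h21 y (by omega) hy2
      exact ⟨by omega, this.2.1, this.2.2⟩
  · intro y y' hy0 hyy hy2
    by_cases hc : y < y1
    · by_cases hc' : y' < y1
      · simp only [hc, hc', if_true]
        exact h12 y y' hy0 hyy hc'
      · simp only [hc, hc', if_true, if_false]
        have e1 := h11 y hy0 hc
        have e2 := h21 y' (by omega) hy2
        omega
    · have hc' : ¬ y' < y1 := by omega
      simp only [hc, hc', if_false]
      exact h22 y y' (by omega) hyy hy2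

end Cov

section Safe
variable {Adj : V → V → Prop} {I : ℕ → Set V → Set V → Prop}

theorem Step.subset {O B O' : Set V} (h : Step Adj O B O') : O ⊆ O' := by
  rcases h with h | ⟨v, _, _, h⟩
  · rw [h]
  · rw [h]; exact Set.subset_insert _ _

theorem Step.disjoint {O B O' : Set V} (h : Step Adj O B O') (hd : Disjoint B O) :
    Disjoint B O' := by
  rcases h with h | ⟨v, hv, _, h⟩
  · rw [h]; exact hd
  · rw [h, Set.disjoint_left]
    intro x hx hx'
    rcases hx' with hx' | hx'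
    · exact hv (hx' ▸ hx)
    · exact Set.disjoint_left.mp hd hx hx'

theorem Safe.inv {T : ℕ} {O B : Set V} (h : Safe Adj I T O B) : I T O B := by
  cases T with
  | zero => exact h
  | succ T => exact h.1

theorem Safe.mono (hI : IMono I) {T : ℕ} : ∀ {O O' B B' : Set V}, O ⊆ O' → B ⊆ B' →
    Disjoint B' O' → Safe Adj I T O B → Safe Adj I T O' B' := by
  induction T with
  | zero => intro O O' B B' h1 h2 _ h; exact hI 0 O O' B B' h1 h2 h
  | succ T ih =>
    intro O O' B B' h1 h2 hd h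
    refine ⟨hI _ O O' B B' h1 h2 h.1, ?_⟩
    intro B'' hB hdis
    obtain ⟨O1, hst, hs⟩ := h.2 B'' (h2.trans hB) (hdis.mono_right h1)
    refine ⟨O' ∪ O1, ?_, ?_⟩
    · rcases hst with e | ⟨v, hv, ⟨u, hu, huv⟩, e⟩
      · left; rw [e]; exact Set.union_eq_self_of_subset_right h1
      · right
        refine ⟨v, hv, ⟨u, h1 hu, huv⟩, ?_⟩
        rw [e]
        ext x
        simp only [Set.mem_union, Set.mem_insert_iff]
        constructor
        · rintro (hx | hx | hx)
          · exact Or.inr hx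
          · exact Or.inl hx
          · exact Or.inr (h1 hx)
        · rintro (hx | hx)
          · exact Or.inr (Or.inl hx)
          · exact Or.inl hx
    · have hd1 : Disjoint B'' O1 := hst.disjoint (hdis.mono_right h1)
      exact ih Set.subset_union_right (le_refl _) (Disjoint.union_right hdis hd1) hs

theorem Safe.idle {T : ℕ} : ∀ {O B : Set V},
    (∀ T' ≤ T, ∀ B', B ⊆ B' → I T' O B') → Safe Adj I T O B := by
  induction T with
  | zero => intro O B h; exact h 0 le_rfl B (le_refl _)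
  | succ T ih =>
    intro O B h
    refine ⟨h _ le_rfl B (le_refl _), ?_⟩
    intro B' hB _
    exact ⟨O, Or.inl rfl, ih (fun T' hT' B'' hB'' => h T' (by omega) B'' (hB.trans hB''))⟩

/-- one more turn is harmless if the invariant is monotone in the number of turns -/
theorem Safe.succ (hI : IMono I) (hT : ∀ T O B, I T O B → I (T + 1) O B) {T : ℕ} {O B : Set V}
    (h : Safe Adj I T O B) : Safe Adj I (T + 1) O B := by
  refine ⟨hT _ _ _ h.inv, ?_⟩
  intro B' hB hd
  exact ⟨O, Or.inl rfl, h.mono hI (le_refl _) hB hd⟩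

theorem Safe.extend (hI : IMono I) (hT : ∀ T O B, I T O B → I (T + 1) O B) {T T' : ℕ}
    (hTT : T ≤ T') {O B : Set V} (h : Safe Adj I T O B) : Safe Adj I T' O B := by
  induction T', hTT using Nat.le_induction with
  | base => exact h
  | succ n _ ih => exact ih.succ hI hT

/-- change of invariant -/
theorem Safe.imp {J : ℕ → Set V → Set V → Prop} {T : ℕ} : ∀ {O B : Set V},
    (∀ T' ≤ T, ∀ O' B', O ⊆ O' → B ⊆ B' → I T' O' B' → J T' O' B') →
    Safe Adj I T O B → Safe Adj J T O B := by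
  induction T with
  | zero => intro O B h hs; exact h 0 le_rfl O B (le_refl _) (le_refl _) hs
  | succ T ih =>
    intro O B h hs
    refine ⟨h _ le_rfl O B (le_refl _) (le_refl _) hs.1, ?_⟩
    intro B' hB hd
    obtain ⟨O', hst, hs'⟩ := hs.2 B' hB hd
    exact ⟨O', hst, ih (fun T' hT' O'' B'' hO hB'' => h T' (by omega) O'' B''
      (hst.subset.trans hO) (hB.trans hB'')) hs'⟩

/-- sequential composition: run `I` for `T1` turns, then continue with `J` -/
theorem Safe.seq {J : ℕ → Set V → Set V → Prop} {T1 T2 : ℕ} : ∀ {O B : Set V},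
    Disjoint B O → Safe Adj I T1 O B →
    (∀ T', 0 < T' → T' ≤ T1 → ∀ O' B', O ⊆ O' → B ⊆ B' → I T' O' B' → J (T' + T2) O' B') →
    (∀ O' B', O ⊆ O' → B ⊆ B' → Disjoint B' O' → I 0 O' B' → Safe Adj J T2 O' B') →
    Safe Adj J (T1 + T2) O B := by
  induction T1 with
  | zero =>
    intro O B hd h1 _ h3
    rw [Nat.zero_add]
    exact h3 O B (le_refl _) (le_refl _) hd h1
  | succ T ih =>
    intro O B hd h1 h2 h3
    have e : T + 1 + T2 = (T + T2) + 1 := by omega
    rw [e]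
    refine ⟨?_, ?_⟩
    · have := h2 (T + 1) (by omega) le_rfl O B (le_refl _) (le_refl _) h1.1
      rwa [e] at this
    · intro B' hB hd'
      obtain ⟨O', hst, hs⟩ := h1.2 B' hB hd'
      refine ⟨O', hst, ih (hst.disjoint hd') hs ?_ ?_⟩
      · intro T' h0 hT' O'' B'' hO hB' hI'
        exact h2 T' h0 (by omega) O'' B'' (hst.subset.trans hO) (hB.trans hB') hI'
      · intro O'' B'' hO hB' hd'' hI'
        exact h3 O'' B'' (hst.subset.trans hO) (hB.trans hB') hd'' hI'

end Safe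

section KForce
variable {Adj : V → V → Prop}

theorem KStep.subset {K : ℕ} {O B O' : Set V} (h : KStep Adj K O B O') : O ⊆ O' := by
  obtain ⟨S, _, _, e⟩ := h
  rw [e]; exact Set.subset_union_left

theorem KStep.disjoint {K : ℕ} {O B O' : Set V} (h : KStep Adj K O B O')
    (hd : Disjoint B O) : Disjoint B O' := by
  obtain ⟨S, _, hS, e⟩ := h
  rw [e, Set.disjoint_left]
  intro x hx hx'
  rcases hx' with hx' | hx'
  · exact Set.disjoint_left.mp hd hx hx'
  · exact (hS x (by simpa using hx')).1 hx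

theorem KForce.mono_K {K K' : ℕ} (hK : K ≤ K') {T : ℕ} {Φ : Set V → Set V → Prop} :
    ∀ {O B : Set V}, KForce Adj K T Φ O B → KForce Adj K' T Φ O B := by
  induction T with
  | zero => intro O B h; exact h
  | succ T ih =>
    intro O B h B' hB hd
    obtain ⟨O', ⟨S, hS, h1, h2⟩, h3⟩ := h B' hB hd
    exact ⟨O', ⟨S, hS.trans hK, h1, h2⟩, ih h3⟩

theorem KForce.trans {K : ℕ} {T1 T2 : ℕ} {Φ Ψ : Set V → Set V → Prop} :
    ∀ {O B : Set V}, KForce Adj K T1 Φ O B →
    (∀ O' B', Φ O' B' → KForce Adj K T2 Ψ O' B') → KForce Adj K (T1 + T2) Ψ O B := by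
  induction T1 with
  | zero =>
    intro O B h h2
    rw [Nat.zero_add]
    exact h2 O B h
  | succ T ih =>
    intro O B h h2
    have e : T + 1 + T2 = (T + T2) + 1 := by omega
    rw [e]
    intro B' hB hd
    obtain ⟨O', hst, h3⟩ := h B' hB hd
    exact ⟨O', hst, ih h3 h2⟩

theorem KForce.imp {K T : ℕ} {Φ Ψ : Set V → Set V → Prop} {O B : Set V}
    (h : KForce Adj K T Φ O B) (h2 : ∀ O' B', Φ O' B' → Ψ O' B') : KForce Adj K T Ψ O B := by
  have := KForce.trans (T2 := 0) h (fun O' B' h' => h2 O' B' h')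
  simpa using this

/-- **Parallel composition.** -/
theorem par_force {ι : Type*} (s : Finset ι) (I : ι → ℕ → Set V → Set V → Prop)
    (hI : ∀ e ∈ s, IMono (I e)) (τ : ℕ) : ∀ (T : ι → ℕ) {O B : Set V}, Disjoint B O →
    (∀ e ∈ s, Safe Adj (I e) (T e) O B) →
    KForce Adj s.card τ (fun O' B' => O ⊆ O' ∧ B ⊆ B' ∧ Disjoint B' O' ∧
      ∀ e ∈ s, Safe Adj (I e) (T e - τ) O' B') O B := by
  classical
  induction τ with
  | zero =>
    intro T O B hd h
    exact ⟨le_refl _, le_refl _, hd, by simpa using h⟩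
  | succ τ ih =>
    intro T O B hd h B' hB hd'
    -- one turn
    have key : ∀ e ∈ s, ∃ Oe, Step Adj O B' Oe ∧ Safe Adj (I e) (T e - 1) Oe B' := by
      intro e he
      have hs := h e he
      rcases Nat.eq_zero_or_pos (T e) with h0 | h0
      · refine ⟨O, Or.inl rfl, ?_⟩
        rw [h0] at hs ⊢
        exact hs.mono (hI e he) (le_refl _) hB hd'
      · obtain ⟨t, ht⟩ : ∃ t, T e = t + 1 := ⟨T e - 1, by omega⟩
        rw [ht] at hs ⊢
        exact hs.2 B' hB hd'
    choose! Oe hst hsafe using key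
    -- the new vertices
    have hv : ∀ e ∈ s, ∃ Se : Finset V, Se.card ≤ 1 ∧ (∀ v ∈ Se, v ∉ B' ∧ ∃ u ∈ O, Adj u v) ∧
        Oe e = O ∪ ↑Se := by
      intro e he
      rcases hst e he with h1 | ⟨v, h1, h2, h3⟩
      · exact ⟨∅, by simp, by simp, by simp [h1]⟩
      · refine ⟨{v}, by simp, ?_, ?_⟩
        · intro w hw
          rw [Finset.mem_singleton] at hw
          rw [hw]; exact ⟨h1, h2⟩
        · rw [h3]; ext x; simp
    choose! Se hS1 hS2 hS3 using hv
    set S : Finset V := s.biUnion Se with hSdef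
    have hScard : S.card ≤ s.card := by
      calc S.card ≤ ∑ e ∈ s, (Se e).card := Finset.card_biUnion_le
        _ ≤ ∑ e ∈ s, 1 := Finset.sum_le_sum hS1
        _ = s.card := by simp
    have hSprop : ∀ v ∈ S, v ∉ B' ∧ ∃ u ∈ O, Adj u v := by
      intro v hv
      rw [hSdef, Finset.mem_biUnion] at hv
      obtain ⟨e, he, hve⟩ := hv
      exact hS2 e he v hve
    have hkst : KStep Adj s.card O B' (O ∪ ↑S) := ⟨S, hScard, hSprop, rfl⟩
    have hdis : Disjoint B' (O ∪ ↑S) := hkst.disjoint hd'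
    refine ⟨O ∪ ↑S, hkst, ?_⟩
    have hall : ∀ e ∈ s, Safe Adj (I e) (T e - 1) (O ∪ ↑S) B' := by
      intro e he
      refine (hsafe e he).mono (hI e he) ?_ (le_refl _) hdis
      rw [hS3 e he]
      apply Set.union_subset_union_right
      intro v hv
      rw [Finset.mem_coe] at hv ⊢
      rw [hSdef, Finset.mem_biUnion]
      exact ⟨e, he, hv⟩
    refine KForce.imp (ih (fun e => T e - 1) hdis hall) ?_
    rintro O2 B2 ⟨h1, h2, h3, h4⟩
    refine ⟨Set.subset_union_left.trans h1, hB.trans h2, h3, ?_⟩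
    intro e he
    have e1 : T e - (τ + 1) = T e - 1 - τ := by omega
    rw [e1]
    exact h4 e he

end KForce

end Contain
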