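import Pool.Agent.Lib.MP_579b69_co.Level1
import Pool.Agent.Lib.MP_579b69_co.Alpha

namespace Contain

variable {V : Type*} {Adj : V → V → Prop}

/-- `wOld` : overhead of a level 1 run -/
def wOld (s Nb : ℕ) : ℕ := Nb * (5 * (Nb * s) + 6 * s ^ 2) + (Nb * s) * (2 * Nb + 6 * s)

/-- `wAlpha` : cost of the start at a crossing -/
def wAlpha (s Nb : ℕ) : ℕ := Nb * (5 * (Nb * s) + 2 * s ^ 2) + s * (Nb * s)

/-- raw result of an E-run in strip `i` from macro row `j` to macro row `l`: dead (about `b` blocks
in the strip between rows `j b` and `l b`), or the rows `[(j+1) b, l b)` are covered in the first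
`K` groups, which contain at least `(K-2) s` blocks. -/
def ERaw (f : ℕ → ℕ → V) (s Nb i j l : ℕ) (O B : Set V) : Prop :=
  Nb * s ≤ cnt f B (i * (Nb * s)) ((i + 1) * (Nb * s)) (j * (Nb * s)) (l * (Nb * s)) + 2 * s ∨
    ∃ K ≤ Nb, Cov f O (i * (Nb * s)) (i * (Nb * s) + K * s) ((j + 1) * (Nb * s)) (l * (Nb * s)) ∧
      K * s ≤ cnt f B (i * (Nb * s)) (i * (Nb * s) + K * s) (j * (Nb * s)) (l * (Nb * s)) + 2 * s

theorem ERaw.mono {f : ℕ → ℕ → V} {s Nb i j l : ℕ} {O O' B B' : Set V}
    (hO : O ⊆ O') (hB : B ⊆ B') (h : ERaw f s Nb i j l O B) : ERaw f s Nb i j l O' B' := by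
  rcases h with h | ⟨K, h1, h2, h3⟩
  · left
    have := cnt_mono_set f hB (i * (Nb * s)) ((i + 1) * (Nb * s)) (j * (Nb * s)) (l * (Nb * s))
    omega
  · right
    refine ⟨K, h1, h2.mono hO, ?_⟩
    have := cnt_mono_set f hB (i * (Nb * s)) (i * (Nb * s) + K * s) (j * (Nb * s)) (l * (Nb * s))
    omega

/-- the E-run: from a crossing of the macro square `(i,j)` climb the strip `i` up to macro row
`l` -/
theorem erun {f : ℕ → ℕ → V} (hf : IsFrame Adj f) {s Nb i j l T : ℕ} {O B : Set V}
    (hs : 0 < s)
    (hcross : Cov (flip f) O (j * (Nb * s)) ((j + 1) * (Nb * s)) (i * (Nb * s))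
      ((i + 1) * (Nb * s)))
    (hl : j + 5 ≤ l) (hd : Disjoint B O)
    (hT : wAlpha s Nb + (l - j - 5) * (Nb * s) + wOld s Nb ≤ T) :
    Safe Adj (fun T O B => T = 0 → ERaw f s Nb i j l O B) T O B := by
  obtain ⟨b, hb⟩ : ∃ b, b = Nb * s := ⟨_, rfl⟩
  have hj5 : (j + 5) * b ≤ l * b := Nat.mul_le_mul_right _ hl
  have ej1 : (j + 1) * b = j * b + b := by ring
  have ej5 : (j + 5) * b = j * b + 5 * b := by ring
  have ei1 : (i + 1) * b = i * b + b := by ring
  have hα : Safe Adj (fun T O B => T = 0 → AlphaRes f s Nb (i * b) (j * b) b ((j + 5) * b) O B)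
      (wAlpha s Nb) O B := by
    apply alpha hf hs
    · rw [← hb] at hcross
      rw [← ej1, ← hb, ← ei1]
      exact hcross
    · omega
    · exact hd
    · unfold wAlpha
      rw [← hb]
      have : (j + 5) * b - j * b = 5 * b := by omega
      rw [this]
  obtain ⟨T2, hT2⟩ : ∃ T2, T = wAlpha s Nb + T2 := ⟨T - wAlpha s Nb, by omega⟩
  subst hT2
  have hT2' : (l - j - 5) * b + wOld s Nb ≤ T2 := by rw [hb]; omega
  -- bad groups below `k` give many blocks
  have hgroups : ∀ (B' : Set V) (x k y0 y1 : ℕ),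
      (∀ k' < k, s ≤ cnt f B' (x + k' * s) (x + (k' + 1) * s) y0 y1) →
      k * s ≤ cnt f B' x (x + k * s) y0 y1 := by
    intro B' x k y0 y1 h
    rw [cnt_sum_groups]
    calc k * s = ∑ _k' ∈ Finset.range k, s := by simp
      _ ≤ _ := Finset.sum_le_sum (fun k' hk' => h k' (Finset.mem_range.mp hk'))
  refine Safe.seq (J := fun T O B => T = 0 → ERaw f s Nb i j l O B) hd hα ?_ ?_
  · intro T' h0 _ O' B' _ _ _ h00
    omega
  · intro O1 B1 hO1 hB1 hd1 hres
    rcases hres rfl with hbad | ⟨k, hk, hcov, hbad⟩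
    · -- all groups bad
      apply Safe.idle
      intro T' _ B2 hB2 _
      left
      have h1 := hgroups B1 (i * b) Nb (j * b) ((j + 5) * b) hbad
      have h2 : cnt f B1 (i * b) (i * b + Nb * s) (j * b) ((j + 5) * b) ≤
          cnt f B2 (i * b) ((i + 1) * b) (j * b) (l * b) :=
        cnt_mono f hB2 le_rfl (by omega) le_rfl hj5
      rw [← hb]
      rw [← hb] at h1 h2
      omega
    · -- group `k` climbed
      have ek1 : (k + 1) * s = k * s + s := by ring
      have hkN : (k + 1) * s ≤ b := by
        rw [hb]; exact Nat.mul_le_mul_right _ (by omega)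
      have hks := hgroups B1 (i * b) k (j * b) ((j + 5) * b) hbad
      have e3 : i * b + (k + 1) * s + (Nb - (k + 1)) * s = (i + 1) * b := by
        have : (k + 1) * s + (Nb - (k + 1)) * s = Nb * s := by
          rw [← Nat.add_mul]; congr 1; omega
        rw [ei1]
        omega
      have hl1 := level1 hf (s := s) (Nb := Nb) (N := Nb - (k + 1)) (x0 := i * b)
        (x1 := i * b + (k + 1) * s) (z := (j + 1) * b) (y := (j + 5) * b) (h' := l * b)
        (T := T2) (O := O1) (B := B1) hs (by omega) (by rw [e3, ← hb]; omega)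
        (by
          refine hcov.weaken (by omega) le_rfl (by omega) le_rfl)
        (by rw [← hb]; omega) hj5 hd1
        (by
          have h1 : l * b - (j + 5) * b = (l - j - 5) * b := by
            rw [← Nat.sub_mul]; congr 1
          have h2 : (Nb - (k + 1)) * (5 * (Nb * s) + 6 * s ^ 2) ≤
            Nb * (5 * (Nb * s) + 6 * s ^ 2) := Nat.mul_le_mul_right _ (by omega)
          have h3 : (i * b + (k + 1) * s + (Nb - (k + 1)) * s - i * b) * (2 * Nb + 6 * s) ≤
            Nb * s * (2 * Nb + 6 * s) := Nat.mul_le_mul_right _ (by rw [e3, ← hb]; omega)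
          have h4 : wOld s Nb = Nb * (5 * (Nb * s) + 6 * s ^ 2) +
            (Nb * s) * (2 * Nb + 6 * s) := rfl
          omega)
      refine Safe.imp ?_ hl1
      intro T' _ O2 B2 hO2 hB2 hinv hT0
      subst hT0
      have hks2 : k * s ≤ cnt f B2 (i * b) (i * b + k * s) (j * b) (l * b) :=
        hks.trans (cnt_mono f hB2 le_rfl le_rfl le_rfl hj5)
      have hsplit : ∀ x ≤ (i + 1) * b, i * b + k * s ≤ x →
          cnt f B2 (i * b) x (j * b) (l * b) = cnt f B2 (i * b) (i * b + k * s) (j * b) (l * b) +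
            cnt f B2 (i * b + k * s) x (j * b) (l * b) := by
        intro x _ hx2
        exact cnt_split_x f B2 _ _ (by omega) hx2
      rcases hinv with (hdead | hdead) | ⟨k', y, h1, h2, h3, h4, h5⟩
      · left
        rw [e3] at hdead
        have h6 : cnt f B2 (i * b) ((i + 1) * b) ((j + 1) * b) (l * b) ≤
            cnt f B2 (i * b) ((i + 1) * b) (j * b) (l * b) :=
          cnt_mono_rect f B2 le_rfl le_rfl (by omega) le_rfl
        rw [← hb]
        omega
      · left
        have h6 := hgroups B2 (i * b + (k + 1) * s) (Nb - (k + 1)) _ _ hdead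
        rw [e3] at h6
        have h7 : cnt f B2 (i * b + (k + 1) * s) ((i + 1) * b) ((j + 1) * b) (l * b) ≤
            cnt f B2 (i * b + k * s) ((i + 1) * b) (j * b) (l * b) :=
          cnt_mono_rect f B2 (by omega) le_rfl (by omega) le_rfl
        have h8 := hsplit ((i + 1) * b) le_rfl (by omega)
        rw [← hb]
        omega
      · right
        have hy : y = l * b := by omega
        subst hy
        have hk' : (k + 1) * s + k' * s ≤ b := by
          have : k' * s ≤ (Nb - (k + 1)) * s := Nat.mul_le_mul_right _ h1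
          omega
        have e4 : (k + 1 + k') * s = (k + 1) * s + k' * s := by ring
        refine ⟨k + 1 + k', by omega, ?_, ?_⟩
        · rw [← hb, e4, ← Nat.add_assoc]
          exact h4
        · rw [← hb, e4, ← Nat.add_assoc]
          have h8 := hsplit (i * b + (k + 1) * s + k' * s) (by omega) (by omega)
          rcases Nat.eq_zero_or_pos k' with h0 | h0
          · subst h0
            rw [Nat.zero_mul] at h8 ⊢
            omega
          · obtain ⟨k2, rfl⟩ : ∃ k2, k' = k2 + 1 := ⟨k' - 1, by omega⟩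
            have h9 := hgroups B2 (i * b + (k + 1) * s) k2 ((j + 1) * b) (l * b)
              (fun k3 hk3 => h5 k3 (by omega))
            have e5 : (k2 + 1) * s = k2 * s + s := by ring
            have h10 : cnt f B2 (i * b + (k + 1) * s) (i * b + (k + 1) * s + k2 * s)
                ((j + 1) * b) (l * b) ≤
              cnt f B2 (i * b + k * s) (i * b + (k + 1) * s + (k2 + 1) * s) (j * b) (l * b) :=
              cnt_mono_rect f B2 (by omega) (by omega) (by omega) le_rfl
            omega

end Contain
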