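import Mathlib

/-!
# The containment game `(G, q, g)`

A graph is given by its relation `Adj u v` : Spreader can go from `u` to `v`.  Turn `t + 1` of the
problem is indexed by `t` here.  `S t` is the set of vertices which Spreader chooses at that turn,
`σ` is the strategy of Container, which gets the list of the previous choices of Spreader.
-/

namespace Containment

variable {V : Type*}

/-- what Container has seen before turn `t + 1` : the choices `S 0, …, S (t - 1)` -/
def hist (S : ℕ → Finset V) (t : ℕ) : List (Finset V) := (List.range t).map S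

/-- vertices occupied after turn `t` -/
def occ (B0 : Finset V) (S : ℕ → Finset V) (t : ℕ) : Set V :=
  {v | v ∈ B0 ∨ ∃ i < t, v ∈ S i}

/-- vertices deleted at the turns `1, …, t` -/
def del (σ : List (Finset V) → Finset V) (S : ℕ → Finset V) (t : ℕ) : Set V :=
  {v | ∃ i < t, v ∈ σ (hist S i)}

/-- turn `t + 1` of Container is legal: at most `⌊(t+1) q⌋ - ⌊t q⌋` deletions, all of
non-occupied vertices -/
def ContainerLegal (q : ℝ) (B0 : Finset V) (σ : List (Finset V) → Finset V)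
    (S : ℕ → Finset V) (t : ℕ) : Prop :=
  (σ (hist S t)).card ≤ ⌊((t : ℝ) + 1) * q⌋₊ - ⌊(t : ℝ) * q⌋₊ ∧
    ∀ v ∈ σ (hist S t), v ∉ occ B0 S t

/-- turn `t + 1` of Spreader is legal: at most `g (t+1)` vertices, not deleted, at distance
at most one from the occupied set -/
def SpreaderLegal (Adj : V → V → Prop) (g : ℕ → ℕ∞) (B0 : Finset V)
    (σ : List (Finset V) → Finset V) (S : ℕ → Finset V) (t : ℕ) : Prop :=
  ((S t).card : ℕ∞) ≤ g (t + 1) ∧
    ∀ v ∈ S t, v ∉ del σ S (t + 1) ∧ (v ∈ occ B0 S t ∨ ∃ u ∈ occ B0 S t, Adj u v)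

/-- Container wins the game started from `B0` -/
def ContainerWins (Adj : V → V → Prop) (q : ℝ) (g : ℕ → ℕ∞) (B0 : Finset V) : Prop :=
  ∃ σ : List (Finset V) → Finset V, ∀ S : ℕ → Finset V,
    (∀ t, SpreaderLegal Adj g B0 σ S t) →
      (∀ t, ContainerLegal q B0 σ S t) ∧ ∃ t0, ∀ t, t0 ≤ t → occ B0 S t = occ B0 S t0

/-- the set `q(G, g)` -/
def qSet (Adj : V → V → Prop) (g : ℕ → ℕ∞) : Set ℝ :=
  {q | 0 < q ∧ ∀ B0 : Finset V, ContainerWins Adj q g B0}

/-- vertices of the eighth plane `E` -/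
def EV : Type := {p : ℤ × ℤ // 0 ≤ p.1 ∧ p.1 ≤ p.2}

/-- edges of the eighth plane: from `(x,y)` to `(x+i,y+1)`, `i ∈ {0,1}` -/
def EAdj (u v : EV) : Prop :=
  v.1.2 = u.1.2 + 1 ∧ (v.1.1 = u.1.1 ∨ v.1.1 = u.1.1 + 1)

/-- the strong product `ℤ ⊠ ℤ` -/
def ZAdj (u v : ℤ × ℤ) : Prop := max |u.1 - v.1| |u.2 - v.2| = 1

end Containment
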