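import Pool.Agent.Lib.MP_579b69_co.Snap

namespace Contain

variable {V : Type*} {Adj : V → V → Prop}

/-! ### one small element -/

/-- new blocks in the zone of 20 macro rows below the front, strip `u` -/
noncomputable def mLate (f : ℕ → ℕ → V) (s Nb n : ℕ) (B B' : Set V) (u : ℕ) : ℕ :=
  cnt f (B' \ B) (u * (Nb * s)) ((u + 1) * (Nb * s)) ((n - u - 20) * (Nb * s))
    ((n - u) * (Nb * s))

/-- blocks between the front and the end of the run, strip `u` -/
noncomputable def mAhead (f : ℕ → ℕ → V) (s Nb n : ℕ) (B' : Set V) (u : ℕ) : ℕ :=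
  cnt f B' (u * (Nb * s)) ((u + 1) * (Nb * s)) ((n - u) * (Nb * s))
    ((n - u + u % 4) * (Nb * s))

/-- result of the run of the small column element `u` -/
def RunRes (f : ℕ → ℕ → V) (s Nb n u : ℕ) (c : ℤ) (B O' B' : Set V) : Prop :=
  ((mLate f s Nb n B B' u : ℤ) + mAhead f s Nb n B' u < c) →
    20 ≤ n - u ∧ ∃ x1' N' : ℕ, u * (Nb * s) ≤ x1' ∧ x1' + N' * s = (u + 1) * (Nb * s) ∧
      Cov f O' (u * (Nb * s)) x1' ((n - u - 20) * (Nb * s)) ((n - u + u % 4) * (Nb * s)) ∧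
      c - s - mLate f s Nb n B B' u - mAhead f s Nb n B' u +
        cnt f B' x1' ((u + 1) * (Nb * s)) ((n - u - 20) * (Nb * s))
          ((n - u + u % 4) * (Nb * s)) ≤ (N' * s : ℕ)

theorem elem_run {f : ℕ → ℕ → V} (hf : IsFrame Adj f) {s Nb n u : ℕ} {c : ℤ} {O B : Set V}
    (hs : 0 < s) (hd : Disjoint B O) (h : 0 < c → ColF f s Nb 20 u (n - u) c O B)
    (hc : c + cnt f B (u * (Nb * s)) ((u + 1) * (Nb * s)) ((n - u - 20) * (Nb * s))
      ((n - u) * (Nb * s)) ≤ (Nb * s : ℕ)) :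
    ∃ I : ℕ → Set V → Set V → Prop, IMono I ∧ Safe Adj I (3 * (Nb * s) + wOld s Nb) O B ∧
      ∀ O' B', B ⊆ B' → I 0 O' B' → RunRes f s Nb n u c B O' B' := by
  by_cases h0 : 0 < c
  · obtain ⟨x1, N, k1, k2, k3, k4, k5⟩ := h h0
    have hS : ColS f s Nb 20 u (n - u) c O B := by
      refine ⟨u * (Nb * s), x1, N, le_rfl, k1, k2, k3, k4, k5, ?_⟩
      push_cast
      push_cast at hc
      linarith
    obtain ⟨x0, x1, N, a1, a2, a3, a4, a5, a6, a7⟩ := hS.run hf (μ := u % 4) hs (by norm_num) hd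
    refine ⟨_, L1Inv_mono _ _ _ _ _ _ _, a7 _ ?_, ?_⟩
    · have : u % 4 * (Nb * s) ≤ 3 * (Nb * s) := Nat.mul_le_mul_right _ (by omega)
      omega
    · intro O' B' hB hI hlt
      refine ⟨a4, ?_⟩
      obtain ⟨x1', N', b1, b2, b3, b4⟩ := L1Inv.ledger hB a3 a1 a2 a4 a5 a6 hI hlt
      exact ⟨x1', N', a1.trans b1, b2, b3.weaken a1 le_rfl le_rfl le_rfl, b4⟩
  · refine ⟨fun _ _ _ => True, fun _ _ _ _ _ _ _ _ => trivial, ?_, ?_⟩
    · exact Safe.idle (fun _ _ _ _ => trivial)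
    · intro O' B' _ _ hlt
      exact absurd hlt (by
        have : (0 : ℤ) ≤ (mLate f s Nb n B B' u : ℤ) + mAhead f s Nb n B' u := by positivity
        omega)

/-! ### one big element -/

/-- strength left in the small element `u` -/
noncomputable def mA (f : ℕ → ℕ → V) (s Nb n : ℕ) (c : ℕ → ℤ) (B B' : Set V) (u : ℕ) : ℤ :=
  c u - s - mLate f s Nb n B B' u - mAhead f s Nb n B' u

theorem mA_le {f : ℕ → ℕ → V} {s Nb n u : ℕ} {c : ℕ → ℤ} {B B' : Set V} :
    mA f s Nb n c B B' u ≤ c u := by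
  unfold mA
  have h1 : (0 : ℤ) ≤ (mLate f s Nb n B B' u : ℤ) := by positivity
  have h2 : (0 : ℤ) ≤ (mAhead f s Nb n B' u : ℤ) := by positivity
  have h3 : (0 : ℤ) ≤ (s : ℤ) := by positivity
  omega

theorem mA_cnt {f : ℕ → ℕ → V} {s Nb n u y0 y1 : ℕ} {c : ℕ → ℤ} {B B' : Set V} (hB : B ⊆ B')
    (hc : c u + cnt f B (u * (Nb * s)) ((u + 1) * (Nb * s)) ((n - u - 20) * (Nb * s))
      ((n - u) * (Nb * s)) ≤ (Nb * s : ℕ))
    (h0 : (n - u - 20) * (Nb * s) ≤ y0) (h1 : y1 ≤ (n - u + u % 4) * (Nb * s)) :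
    mA f s Nb n c B B' u + cnt f B' (u * (Nb * s)) ((u + 1) * (Nb * s)) y0 y1 ≤
      (Nb * s : ℕ) - (s : ℤ) := by
  unfold mA mLate mAhead
  have e1 : cnt f B' (u * (Nb * s)) ((u + 1) * (Nb * s)) y0 y1 ≤
      cnt f B' (u * (Nb * s)) ((u + 1) * (Nb * s)) ((n - u - 20) * (Nb * s))
        ((n - u + u % 4) * (Nb * s)) := cnt_mono_rect f B' le_rfl le_rfl h0 h1
  have e2 := cnt_split_y f B' (u * (Nb * s)) ((u + 1) * (Nb * s))
    (y0 := (n - u - 20) * (Nb * s)) (y1 := (n - u) * (Nb * s))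
    (y2 := (n - u + u % 4) * (Nb * s)) (Nat.mul_le_mul_right _ (by omega))
    (Nat.mul_le_mul_right _ (by omega))
  have e3 := cnt_diff f hB (u * (Nb * s)) ((u + 1) * (Nb * s)) ((n - u - 20) * (Nb * s))
    ((n - u) * (Nb * s))
  rw [e2, e3] at e1
  omega

theorem bigcol {f : ℕ → ℕ → V} {s Nb n' I : ℕ} {c : ℕ → ℤ} {B O' B' : Set V} (hB : B ⊆ B')
    (hle : ∀ κ < 4, c (4 * I + κ) ≤ (Nb * s : ℕ))
    (hcnt : ∀ κ < 4, c (4 * I + κ) + cnt f B ((4 * I + κ) * (Nb * s)) ((4 * I + κ + 1) * (Nb * s))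
      ((4 * n' - (4 * I + κ) - 20) * (Nb * s)) ((4 * n' - (4 * I + κ)) * (Nb * s)) ≤
        (Nb * s : ℕ))
    (hrun : ∀ κ < 4, RunRes f s Nb (4 * n') (4 * I + κ) (c (4 * I + κ)) B O' B') :
    (∑ κ ∈ Finset.range 4, mA f s Nb (4 * n') c B B' (4 * I + κ)) - s ≤
        (2 * Nb * (2 * s) : ℕ) ∧
    (0 < (∑ κ ∈ Finset.range 4, mA f s Nb (4 * n') c B B' (4 * I + κ)) - s →
      ColS f (2 * s) (2 * Nb) 4 I (n' - I)
        ((∑ κ ∈ Finset.range 4, mA f s Nb (4 * n') c B B' (4 * I + κ)) - s) O' B') := by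
  classical
  set b := Nb * s with hb
  have hbb : 2 * Nb * (2 * s) = 4 * b := by rw [hb]; ring
  set A : ℕ → ℤ := fun κ => mA f s Nb (4 * n') c B B' (4 * I + κ) with hA
  have hs0 : (0 : ℤ) ≤ (s : ℤ) := by positivity
  have hb0 : (0 : ℤ) ≤ (b : ℤ) := by positivity
  have hAle : ∀ κ < 4, A κ ≤ b := fun κ hκ => (mA_le).trans (hle κ hκ)
  constructor
  · rw [hbb]
    have := Finset.sum_le_sum (s := Finset.range 4) (f := A) (g := fun _ => (b : ℤ))
      (fun κ hκ => hAle κ (Finset.mem_range.mp hκ))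
    simp only [Finset.sum_const, Finset.card_range, nsmul_eq_mul] at this
    push_cast at this ⊢
    linarith
  · intro hpos
    have hex : ∃ κ, κ < 4 ∧ 0 < A κ := by
      by_contra hcon
      push Not at hcon
      have := Finset.sum_nonpos (s := Finset.range 4) (f := A)
        (fun κ hκ => hcon κ (Finset.mem_range.mp hκ))
      linarith
    obtain ⟨κ0, ⟨hκ0, hA0⟩, hmin⟩ : ∃ κ0, (κ0 < 4 ∧ 0 < A κ0) ∧ ∀ κ < κ0, A κ ≤ 0 := by
      refine ⟨Nat.find hex, Nat.find_spec hex, ?_⟩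
      intro κ hκ
      have := Nat.find_min hex hκ
      have h4 := (Nat.find_spec hex).1
      push Not at this
      exact this (by omega)
    -- the run of `κ0`
    have hr := hrun κ0 hκ0 (by
      have : 0 < mA f s Nb (4 * n') c B B' (4 * I + κ0) := hA0
      unfold mA at this
      omega)
    obtain ⟨h20, x1', N', r1, r2, r3, r4⟩ := hr
    have hmod : (4 * I + κ0) % 4 = κ0 := by omega
    rw [← hb] at r1 r2 r3 r4
    rw [hmod] at r3 r4
    have hIn : 4 * I + κ0 + 20 ≤ 4 * n' := by omega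
    have htop : 4 * n' - (4 * I + κ0) + κ0 = 4 * n' - 4 * I := by omega
    rw [htop] at r3 r4
    -- zone
    set y0 := (4 * n' - 4 * I - 16) * b with hy0
    set y1 := (4 * n' - 4 * I) * b with hy1
    have hF : ∀ κ < 4, A κ + cnt f B' ((4 * I + κ) * b) ((4 * I + κ + 1) * b) y0 y1 ≤
        (b : ℤ) - s := by
      intro κ hκ
      refine mA_cnt hB (hcnt κ hκ) ?_ ?_
      · exact Nat.mul_le_mul_right _ (by omega)
      · exact Nat.mul_le_mul_right _ (by omega)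
    set T : ℕ → ℤ := fun κ => ∑ j ∈ Finset.Ico κ 4, A j with hT
    have hTs : ∀ κ < 4, T κ = A κ + T (κ + 1) := by
      intro κ hκ
      exact Finset.sum_eq_sum_Ico_succ_bot hκ A
    have hstep : ∀ κ < 4, T (κ + 1) + cnt f B' ((4 * I + (κ + 1)) * b) ((4 * I + 4) * b) y0 y1 ≤
        (4 - ((κ + 1 : ℕ) : ℤ)) * b →
        T κ + cnt f B' ((4 * I + κ) * b) ((4 * I + 4) * b) y0 y1 ≤ (4 - (κ : ℤ)) * b := by
      intro κ hκ h
      rw [hTs κ hκ, cnt_split_x f B' (x1 := (4 * I + (κ + 1)) * b) y0 y1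
        (Nat.mul_le_mul_right _ (by omega)) (Nat.mul_le_mul_right _ (by omega))]
      have h2 := hF κ hκ
      rw [show 4 * I + κ + 1 = 4 * I + (κ + 1) from by ring] at h2
      push_cast at h h2 ⊢
      linarith
    have hP4 : T 4 + cnt f B' ((4 * I + 4) * b) ((4 * I + 4) * b) y0 y1 ≤
        (4 - ((4 : ℕ) : ℤ)) * b := by
      have : cnt f B' ((4 * I + 4) * b) ((4 * I + 4) * b) y0 y1 = 0 := by simp [cnt]
      rw [this]
      simp [hT]
    have hP : ∀ κ ≤ 4, T κ + cnt f B' ((4 * I + κ) * b) ((4 * I + 4) * b) y0 y1 ≤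
        (4 - (κ : ℤ)) * b := by
      have hP3 := hstep 3 (by norm_num) hP4
      have hP2 := hstep 2 (by norm_num) hP3
      have hP1 := hstep 1 (by norm_num) hP2
      have hP0 := hstep 0 (by norm_num) hP1
      intro κ hκ
      interval_cases κ
      · exact hP0
      · exact hP1
      · exact hP2
      · exact hP3
      · exact hP4
    -- the total
    have htot : (∑ κ ∈ Finset.range 4, A κ) ≤ T κ0 := by
      rw [← Finset.sum_range_add_sum_Ico A hκ0.le]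
      have := Finset.sum_nonpos (s := Finset.range κ0) (f := A)
        (fun κ hκ => hmin κ (Finset.mem_range.mp hκ))
      have e : T κ0 = ∑ k ∈ Finset.Ico κ0 4, A k := rfl
      linarith
    set C : ℤ := (∑ κ ∈ Finset.range 4, A κ) - s with hC
    -- parity
    have hwidth : x1' + (N' + (3 - κ0) * Nb) * s = (4 * I + 4) * b := by
      have e1 : (4 * I + 4) * b = (4 * I + κ0 + 1) * b + (3 - κ0) * b := by
        rw [← Nat.add_mul]; congr 1; omega
      rw [e1, ← r2, hb]; ring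
    obtain ⟨x1'', N'', q1, q2, q3⟩ : ∃ x1'' N'' : ℕ, x1' ≤ x1'' ∧
        x1'' + N'' * (2 * s) = (4 * I + 4) * b ∧
        (N' * s : ℕ) + (3 - (κ0 : ℤ)) * b - s ≤ ((N'' * (2 * s) : ℕ) : ℤ) := by
      have hcast : ((3 - κ0 : ℕ) : ℤ) = 3 - (κ0 : ℤ) := by
        have : κ0 ≤ 3 := by omega
        push_cast [this]; ring
      rcases Nat.even_or_odd' (N' + (3 - κ0) * Nb) with ⟨M, hM | hM⟩
      · refine ⟨x1', M, le_rfl, ?_, ?_⟩
        · rw [← hwidth, hM]; ring
        · have : M * (2 * s) = N' * s + (3 - κ0) * b := by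
            calc M * (2 * s) = (2 * M) * s := by ring
              _ = _ := by rw [← hM, hb]; ring
          rw [this, ← hcast]
          push_cast
          linarith
      · refine ⟨x1' + s, M, by omega, ?_, ?_⟩
        · rw [← hwidth, hM]; ring
        · have : M * (2 * s) + s = N' * s + (3 - κ0) * b := by
            calc M * (2 * s) + s = (2 * M + 1) * s := by ring
              _ = _ := by rw [← hM, hb]; ring
          have h2 : (M * (2 * s) : ℤ) + s = N' * s + ((3 - κ0 : ℕ) : ℤ) * b := by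
            exact_mod_cast this
          rw [hcast] at h2
          push_cast
          linarith
    have ey0 : (n' - I - 4) * (4 * b) = y0 := by
      rw [hy0, ← mul_assoc]; congr 1; omega
    have ey1 : (n' - I) * (4 * b) = y1 := by
      rw [hy1, ← mul_assoc]; congr 1; omega
    have ex1 : (I + 1) * (4 * b) = (4 * I + 4) * b := by ring
    refine ⟨(4 * I + κ0) * b, x1'', N'', ?_, r1.trans q1, ?_, by omega, ?_, ?_, ?_⟩
    · rw [hbb, ← mul_assoc]
      exact Nat.mul_le_mul_right _ (by omega)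
    · rw [hbb, ex1]; exact q2
    · rw [hbb, ey0, ey1]
      refine r3.weaken le_rfl q1 ?_ le_rfl
      exact Nat.mul_le_mul_right _ (by omega)
    · rw [hbb, ey0, ey1, ex1]
      have e1 : cnt f B' x1'' ((4 * I + 4) * b) y0 y1 ≤ cnt f B' x1' ((4 * I + 4) * b) y0 y1 :=
        cnt_mono_rect f B' q1 le_rfl le_rfl le_rfl
      have e2 := cnt_split_x f B' (x0 := x1') (x1 := (4 * I + κ0 + 1) * b)
        (x2 := (4 * I + 4) * b) y0 y1 (by omega) (Nat.mul_le_mul_right _ (by omega))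
      have e3 : cnt f B' x1' ((4 * I + κ0 + 1) * b) y0 y1 ≤
          cnt f B' x1' ((4 * I + κ0 + 1) * b) ((4 * n' - (4 * I + κ0) - 20) * b) y1 :=
        cnt_mono_rect f B' le_rfl le_rfl (Nat.mul_le_mul_right _ (by omega)) le_rfl
      have e4 := hP (κ0 + 1) (by omega)
      have e5 := hTs κ0 hκ0
      rw [show 4 * I + (κ0 + 1) = 4 * I + κ0 + 1 from by ring] at e4
      have r4' : A κ0 + cnt f B' x1' ((4 * I + κ0 + 1) * b)
          ((4 * n' - (4 * I + κ0) - 20) * b) y1 ≤ (N' * s : ℕ) := r4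
      have e1' : (cnt f B' x1'' ((4 * I + 4) * b) y0 y1 : ℤ) ≤
        cnt f B' x1' ((4 * I + 4) * b) y0 y1 := by exact_mod_cast e1
      have e2' : (cnt f B' x1' ((4 * I + 4) * b) y0 y1 : ℤ) =
        cnt f B' x1' ((4 * I + κ0 + 1) * b) y0 y1 +
          cnt f B' ((4 * I + κ0 + 1) * b) ((4 * I + 4) * b) y0 y1 := by exact_mod_cast e2
      have e3' : (cnt f B' x1' ((4 * I + κ0 + 1) * b) y0 y1 : ℤ) ≤
          cnt f B' x1' ((4 * I + κ0 + 1) * b) ((4 * n' - (4 * I + κ0) - 20) * b) y1 := by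
        exact_mod_cast e3
      have e6 : (4 - ((κ0 + 1 : ℕ) : ℤ)) * b = (3 - (κ0 : ℤ)) * b := by push_cast; ring
      rw [e6] at e4
      linarith
    · rw [hbb, ey0, ey1, ex1]
      have e4 := hP κ0 hκ0.le
      push_cast at e4 ⊢
      linarith

/-! ### accounting -/

theorem card_filter_eq_cnt (f : ℕ → ℕ → V) (S : Set V) (x0 x1 y0 y1 : ℕ)
    [DecidablePred fun p : ℕ × ℕ => f p.1 p.2 ∈ S] :
    ((Finset.Ico x0 x1 ×ˢ Finset.Ico y0 y1).filter (fun p => f p.1 p.2 ∈ S)).card =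
      cnt f S x0 x1 y0 y1 := by
  unfold cnt
  congr

theorem merge_acc {f : ℕ → ℕ → V} {s Nb n' r1 r2 ρ2 : ℕ} {B B' : Set V} (hB : B ⊆ B')
    (hb : 0 < Nb * s) (h1 : r1 = 0 ∨ r1 + 20 ≤ ρ2) (h2 : ρ2 ≤ r2) (h1n : r1 ≤ 4 * n' + 1) :
    Theta f (Nb * s) (4 * n') B +
      (∑ i ∈ Finset.range r1, (mLate f s Nb (4 * n') B B' i + mAhead f s Nb (4 * n') B' i) +
      ∑ i ∈ Finset.Ico r2 (4 * n' + 1),
        (mLate (flip f) s Nb (4 * n') B B' (4 * n' - i) +
          mAhead (flip f) s Nb (4 * n') B' (4 * n' - i))) ≤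
      Theta f (4 * (Nb * s)) n' B' := by
  classical
  set b := Nb * s with hbdef
  set n := 4 * n' with hn
  set C : Finset (ℕ × ℕ) := (Finset.range (n * b) ×ˢ Finset.range (n * b)).filter
    (fun p => p.1 / b + p.2 / b < n ∧ f p.1 p.2 ∈ B) with hC
  set A : Finset (ℕ × ℕ) := (Finset.range (n' * (4 * b)) ×ˢ Finset.range (n' * (4 * b))).filter
    (fun p => p.1 / (4 * b) + p.2 / (4 * b) < n' ∧ f p.1 p.2 ∈ B') with hA
  have eC : Theta f b n B = C.card := by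
    unfold Theta; rw [hC]
  have eA : Theta f (4 * b) n' B' = A.card := by
    unfold Theta; rw [hA]
  set Wc : ℕ → Finset (ℕ × ℕ) := fun i =>
    ((Finset.Ico (i * b) ((i + 1) * b) ×ˢ Finset.Ico ((n - i - 20) * b) ((n - i) * b)).filter
      (fun p => f p.1 p.2 ∈ B' \ B)) ∪
    ((Finset.Ico (i * b) ((i + 1) * b) ×ˢ Finset.Ico ((n - i) * b) ((n - i + i % 4) * b)).filter
      (fun p => f p.1 p.2 ∈ B')) with hWc
  set Wr : ℕ → Finset (ℕ × ℕ) := fun i =>
    ((Finset.Ico ((i - 20) * b) (i * b) ×ˢ Finset.Ico ((n - i) * b) ((n - i + 1) * b)).filter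
      (fun p => f p.1 p.2 ∈ B' \ B)) ∪
    ((Finset.Ico (i * b) ((i + (n - i) % 4) * b) ×ˢ
        Finset.Ico ((n - i) * b) ((n - i + 1) * b)).filter
      (fun p => f p.1 p.2 ∈ B')) with hWr
  have hmc : ∀ i p, p ∈ Wc i ↔ (p.1 / b = i ∧
      ((n - i - 20 ≤ p.2 / b ∧ p.2 / b < n - i ∧ f p.1 p.2 ∈ B' \ B) ∨
       (n - i ≤ p.2 / b ∧ p.2 / b < n - i + i % 4 ∧ f p.1 p.2 ∈ B'))) := by
    intro i p
    simp only [hWc, Finset.mem_union, Finset.mem_filter, Finset.mem_product, Finset.mem_Ico,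
      ← Nat.le_div_iff_mul_le hb, ← Nat.div_lt_iff_lt_mul hb]
    constructor
    · rintro (⟨⟨⟨a1, a2⟩, a3, a4⟩, a5⟩ | ⟨⟨⟨a1, a2⟩, a3, a4⟩, a5⟩)
      · exact ⟨by omega, Or.inl ⟨a3, a4, a5⟩⟩
      · exact ⟨by omega, Or.inr ⟨a3, a4, a5⟩⟩
    · rintro ⟨a1, (⟨a2, a3, a4⟩ | ⟨a2, a3, a4⟩)⟩
      · exact Or.inl ⟨⟨⟨by omega, by omega⟩, a2, a3⟩, a4⟩
      · exact Or.inr ⟨⟨⟨by omega, by omega⟩, a2, a3⟩, a4⟩
  have hmr : ∀ i p, p ∈ Wr i ↔ (p.2 / b = n - i ∧
      ((i - 20 ≤ p.1 / b ∧ p.1 / b < i ∧ f p.1 p.2 ∈ B' \ B) ∨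
       (i ≤ p.1 / b ∧ p.1 / b < i + (n - i) % 4 ∧ f p.1 p.2 ∈ B'))) := by
    intro i p
    simp only [hWr, Finset.mem_union, Finset.mem_filter, Finset.mem_product, Finset.mem_Ico,
      ← Nat.le_div_iff_mul_le hb, ← Nat.div_lt_iff_lt_mul hb]
    constructor
    · rintro (⟨⟨⟨a1, a2⟩, a3, a4⟩, a5⟩ | ⟨⟨⟨a1, a2⟩, a3, a4⟩, a5⟩)
      · exact ⟨by omega, Or.inl ⟨a1, a2, a5⟩⟩
      · exact ⟨by omega, Or.inr ⟨a1, a2, a5⟩⟩
    · rintro ⟨a1, (⟨a2, a3, a4⟩ | ⟨a2, a3, a4⟩)⟩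
      · exact Or.inl ⟨⟨⟨a2, a3⟩, by omega, by omega⟩, a4⟩
      · exact Or.inr ⟨⟨⟨a2, a3⟩, by omega, by omega⟩, a4⟩
  have hcc : ∀ i, (Wc i).card = mLate f s Nb n B B' i + mAhead f s Nb n B' i := by
    intro i
    unfold mLate mAhead
    rw [hWc]
    dsimp only
    rw [Finset.card_union_of_disjoint]
    · rw [card_filter_eq_cnt, card_filter_eq_cnt]
    rw [Finset.disjoint_left]
    intro p hp hq
    simp only [Finset.mem_filter, Finset.mem_product, Finset.mem_Ico] at hp hq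
    omega
  have hcr : ∀ i ≤ n, (Wr i).card =
      mLate (flip f) s Nb n B B' (n - i) + mAhead (flip f) s Nb n B' (n - i) := by
    intro i hi
    have e : n - (n - i) = i := by omega
    unfold mLate mAhead
    rw [e, cnt_flip, cnt_flip]
    rw [hWr]
    dsimp only
    rw [Finset.card_union_of_disjoint]
    · rw [card_filter_eq_cnt, card_filter_eq_cnt]
    rw [Finset.disjoint_left]
    intro p hp hq
    simp only [Finset.mem_filter, Finset.mem_product, Finset.mem_Ico] at hp hq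
    omega
  set U1 := (Finset.range r1).biUnion Wc with hU1
  set U2 := (Finset.Ico r2 (n + 1)).biUnion Wr with hU2
  have cU1 : U1.card = ∑ i ∈ Finset.range r1,
      (mLate f s Nb n B B' i + mAhead f s Nb n B' i) := by
    rw [hU1, Finset.card_biUnion]
    · exact Finset.sum_congr rfl (fun i _ => hcc i)
    · intro i _ j _ hij
      rw [Function.onFun, Finset.disjoint_left]
      intro p hp hq
      rw [hmc] at hp hq
      exact hij (hp.1.symm.trans hq.1)
  have cU2 : U2.card = ∑ i ∈ Finset.Ico r2 (n + 1),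
      (mLate (flip f) s Nb n B B' (n - i) + mAhead (flip f) s Nb n B' (n - i)) := by
    rw [hU2, Finset.card_biUnion]
    · refine Finset.sum_congr rfl (fun i hi => hcr i ?_)
      rw [Finset.mem_Ico] at hi; omega
    · intro i hi j hj hij
      have hi' := Finset.mem_Ico.mp (Finset.mem_coe.mp hi)
      have hj' := Finset.mem_Ico.mp (Finset.mem_coe.mp hj)
      rw [Function.onFun, Finset.disjoint_left]
      intro p hp hq
      rw [hmr] at hp hq
      omega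
  have d12 : Disjoint U1 U2 := by
    rw [Finset.disjoint_left]
    intro p hp hq
    rw [hU1, Finset.mem_biUnion] at hp
    rw [hU2, Finset.mem_biUnion] at hq
    obtain ⟨i, hi, hp⟩ := hp
    obtain ⟨j, hj, hq⟩ := hq
    rw [Finset.mem_range] at hi
    rw [Finset.mem_Ico] at hj
    rw [hmc] at hp
    rw [hmr] at hq
    omega
  have dC : Disjoint C (U1 ∪ U2) := by
    rw [Finset.disjoint_left]
    intro p hp hq
    rw [hC, Finset.mem_filter] at hp
    rw [Finset.mem_union] at hq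
    rcases hq with hq | hq
    · rw [hU1, Finset.mem_biUnion] at hq
      obtain ⟨i, hi, hq⟩ := hq
      rw [hmc] at hq
      obtain ⟨q1, (⟨q2, q3, q4⟩ | ⟨q2, q3, q4⟩)⟩ := hq
      · exact q4.2 hp.2.2
      · have := hp.2.1; omega
    · rw [hU2, Finset.mem_biUnion] at hq
      obtain ⟨i, hi, hq⟩ := hq
      rw [Finset.mem_Ico] at hi
      rw [hmr] at hq
      obtain ⟨q1, (⟨q2, q3, q4⟩ | ⟨q2, q3, q4⟩)⟩ := hq
      · exact q4.2 hp.2.2
      · have := hp.2.1; omega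
  have hmA : ∀ p : ℕ × ℕ, p.1 / b / 4 + p.2 / b / 4 < n' → f p.1 p.2 ∈ B' → p ∈ A := by
    intro p hp hpB
    have e1 : p.1 / (4 * b) = p.1 / b / 4 := by rw [mul_comm, Nat.div_div_eq_div_mul]
    have e2 : p.2 / (4 * b) = p.2 / b / 4 := by rw [mul_comm, Nat.div_div_eq_div_mul]
    have e3 : n' * (4 * b) = n * b := by rw [hn]; ring
    rw [hA, Finset.mem_filter, Finset.mem_product, Finset.mem_range, Finset.mem_range, e1, e2,
      e3, ← Nat.div_lt_iff_lt_mul hb, ← Nat.div_lt_iff_lt_mul hb]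
    have h4 : ∀ X Y : ℕ, X / 4 + Y / 4 < n' → X < n ∧ Y < n := by
      intro X Y hXY; omega
    exact ⟨h4 _ _ hp, hp, hpB⟩
  have hsub : C ∪ (U1 ∪ U2) ⊆ A := by
    intro p hp
    rw [Finset.mem_union, Finset.mem_union] at hp
    rcases hp with hp | hp | hp
    · rw [hC, Finset.mem_filter] at hp
      exact hmA p (by have := hp.2.1; omega) (hB hp.2.2)
    · rw [hU1, Finset.mem_biUnion] at hp
      obtain ⟨i, hi, hq⟩ := hp
      rw [Finset.mem_range] at hi
      rw [hmc] at hq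
      obtain ⟨q1, (⟨q2, q3, q4⟩ | ⟨q2, q3, q4⟩)⟩ := hq
      · exact hmA p (by omega) q4.1
      · exact hmA p (by omega) q4
    · rw [hU2, Finset.mem_biUnion] at hp
      obtain ⟨i, hi, hq⟩ := hp
      rw [Finset.mem_Ico] at hi
      rw [hmr] at hq
      obtain ⟨q1, (⟨q2, q3, q4⟩ | ⟨q2, q3, q4⟩)⟩ := hq
      · exact hmA p (by omega) q4.1
      · exact hmA p (by omega) q4
  have := Finset.card_le_card hsub
  rw [Finset.card_union_of_disjoint dC, Finset.card_union_of_disjoint d12, cU1, cU2] at this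
  rw [eC, eA]
  exact this

theorem sum_group_col (g : ℕ → ℤ) (r : ℕ) :
    ∑ I ∈ Finset.range r, ∑ κ ∈ Finset.range 4, g (4 * I + κ) =
      ∑ i ∈ Finset.range (4 * r), g i := by
  induction r with
  | zero => simp
  | succ r ih =>
    rw [Finset.sum_range_succ, ih, show 4 * (r + 1) = 4 * r + 4 from by ring,
      Finset.sum_range_add g (4 * r) 4]

theorem sum_group_row (g : ℕ → ℤ) (r m : ℕ) (h1 : 1 ≤ r) (h2 : r ≤ m + 1) :
    ∑ I ∈ Finset.Ico r (m + 1), ∑ κ ∈ Finset.range 4, g (4 * I - κ) =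
      ∑ i ∈ Finset.Ico (4 * r - 3) (4 * m + 1), g i := by
  obtain ⟨d, hd⟩ : ∃ d, m + 1 = r + d := ⟨m + 1 - r, by omega⟩
  induction d generalizing m with
  | zero =>
    have e1 : m + 1 = r := by omega
    have e2 : 4 * r - 3 = 4 * m + 1 := by omega
    rw [e1, e2]; simp
  | succ d ih =>
    obtain ⟨m', rfl⟩ : ∃ m', m = m' + 1 := ⟨m - 1, by omega⟩
    rw [Finset.sum_Ico_succ_top (by omega), ih m' (by omega) (by omega)]
    have e : 4 * (m' + 1) + 1 = 4 * m' + 1 + 1 + 1 + 1 + 1 := by ring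
    rw [e, Finset.sum_Ico_succ_top (a := 4 * r - 3) (b := 4 * m' + 1 + 1 + 1 + 1) (by omega),
      Finset.sum_Ico_succ_top (a := 4 * r - 3) (b := 4 * m' + 1 + 1 + 1) (by omega),
      Finset.sum_Ico_succ_top (a := 4 * r - 3) (b := 4 * m' + 1 + 1) (by omega),
      Finset.sum_Ico_succ_top (a := 4 * r - 3) (b := 4 * m' + 1) (by omega)]
    simp only [Finset.sum_range_succ, Finset.sum_range_zero]
    rw [show 4 * (m' + 1) - 0 = 4 * m' + 1 + 1 + 1 + 1 from by omega,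
      show 4 * (m' + 1) - 1 = 4 * m' + 1 + 1 + 1 from by omega,
      show 4 * (m' + 1) - 2 = 4 * m' + 1 + 1 from by omega,
      show 4 * (m' + 1) - 3 = 4 * m' + 1 from by omega]
    ring

/-! ### the change of scale -/

/-- **Change of scale** `(s, Nb) → (2 s, 2 Nb)`, i.e. `b → 4 b`, level `4 n' → n'`. -/
theorem merge {f : ℕ → ℕ → V} (hf : IsFrame Adj f) {s Nb n' ρ1 ρ2 : ℕ} {c : ℕ → ℤ}
    {O B : Set V} (hs : 0 < s) (hNb : 0 < Nb) (h : SnapF f s Nb (4 * n') ρ1 ρ2 c O B)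
    (hd : Disjoint B O) :
    KForce Adj (4 * n' + 1) (3 * (Nb * s) + wOld s Nb)
      (fun O' B' => B ⊆ B' ∧ Disjoint B' O' ∧
        Theta f (Nb * s) (4 * n') B ≤ Theta f (4 * (Nb * s)) n' B' ∧
        ∃ (ρ' : ℕ) (c' : ℕ → ℤ), Snap f (2 * s) (2 * Nb) n' ρ' c' O' B' ∧
        ∑ i ∈ Finset.range (4 * n' + 1), c i ≤
          ∑ i ∈ Finset.range (n' + 1), c' i +
            ((6 * s * (n' + 1) + (ρ2 - ρ1 + 26) * (Nb * s) : ℕ) : ℤ) +
            ((Theta f (4 * (Nb * s)) n' B' : ℤ) - Theta f (Nb * s) (4 * n') B)) O B := by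
  classical
  have hb : 0 < Nb * s := Nat.mul_pos hNb hs
  -- the invariants
  have hel : ∀ i ∈ Finset.range (4 * n' + 1), ∃ I : ℕ → Set V → Set V → Prop, IMono I ∧
      Safe Adj I (3 * (Nb * s) + wOld s Nb) O B ∧ ∀ O' B', B ⊆ B' → I 0 O' B' →
        ((i < ρ1 → RunRes f s Nb (4 * n') i (c i) B O' B') ∧
         (ρ2 ≤ i → RunRes (flip f) s Nb (4 * n') (4 * n' - i) (c i) B O' B')) := by
    intro i hi
    rw [Finset.mem_range] at hi
    by_cases h1 : i < ρ1
    · obtain ⟨I, a1, a2, a3⟩ := elem_run (n := 4 * n') (u := i) (c := c i) hf hs hd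
        (h.col i h1) (h.colc i h1)
      refine ⟨I, a1, a2, fun O' B' hB hI => ⟨fun _ => a3 O' B' hB hI, fun h2 => ?_⟩⟩
      have := h.rho_le
      omega
    · by_cases h2 : ρ2 ≤ i
      · have e : 4 * n' - (4 * n' - i) = i := by omega
        obtain ⟨I, a1, a2, a3⟩ := elem_run (n := 4 * n') (u := 4 * n' - i) (c := c i) hf.flip hs
          hd (by rw [e]; exact h.row i h2 (by omega)) (by rw [e]; exact h.rowc i h2 (by omega))
        exact ⟨I, a1, a2, fun O' B' hB hI => ⟨fun h3 => absurd h3 h1, fun _ => a3 O' B' hB hI⟩⟩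
      · exact ⟨fun _ _ _ => True, fun _ _ _ _ _ _ _ _ => trivial,
          Safe.idle (fun _ _ _ _ => trivial),
          fun O' B' _ _ => ⟨fun h3 => absurd h3 h1, fun h3 => absurd h3 h2⟩⟩
  choose! I hI1 hI2 hI3 using hel
  have hpar := par_force (Finset.range (4 * n' + 1)) I hI1 (3 * (Nb * s) + wOld s Nb)
    (fun _ => 3 * (Nb * s) + wOld s Nb) hd hI2
  rw [Finset.card_range] at hpar
  refine hpar.imp ?_
  rintro O' B' ⟨_, hB, hd', hsafe⟩
  have hres : ∀ i, i < 4 * n' + 1 →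
      ((i < ρ1 → RunRes f s Nb (4 * n') i (c i) B O' B') ∧
         (ρ2 ≤ i → RunRes (flip f) s Nb (4 * n') (4 * n' - i) (c i) B O' B')) := by
    intro i hi
    have h1 := hsafe i (Finset.mem_range.mpr hi)
    rw [Nat.sub_self] at h1
    exact hI3 i (Finset.mem_range.mpr hi) O' B' hB h1
  -- parameters
  have hρ := h.rho_le
  have hρ2 := h.rho_le2
  obtain ⟨ρ', hρ'1, hρ'2, hρ'3, hρ'4, hρ'5⟩ : ∃ ρ' : ℕ, 4 * ρ' ≤ ρ1 ∧ (4 * ρ' = 0 ∨ 4 * ρ' + 20 ≤ ρ2) ∧
      ρ1 ≤ 4 * ρ' + 23 ∧ 4 * ρ' ≤ 4 * n' ∧ ρ' ≤ n' := by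
    refine ⟨min ρ1 (ρ2 - 20) / 4, ?_, ?_, ?_, ?_, ?_⟩ <;> omega
  obtain ⟨ρ'', hρ''1, hρ''2, hρ''3, hρ''4⟩ : ∃ ρ'' : ℕ, ρ2 ≤ 4 * ρ'' - 3 ∧ 4 * ρ'' - 3 ≤ ρ2 + 3 ∧
      1 ≤ ρ'' ∧ ρ'' ≤ n' + 1 := by
    refine ⟨(ρ2 + 6) / 4, ?_, ?_, ?_, ?_⟩ <;> omega
  have hρρ : ρ' ≤ ρ'' := by omega
  -- accounting
  have hacc := merge_acc (f := f) (n' := n') (r1 := 4 * ρ') (r2 := 4 * ρ'' - 3) (ρ2 := ρ2) hB hb
    hρ'2 hρ''1 (by omega)
  set g1 : ℕ → ℤ := fun i => mA f s Nb (4 * n') c B B' i with hg1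
  set g2 : ℕ → ℤ := fun i =>
    mA (flip f) s Nb (4 * n') (fun u => c (4 * n' - u)) B B' (4 * n' - i) with hg2
  set c' : ℕ → ℤ := fun J =>
    if J < ρ' then (∑ κ ∈ Finset.range 4, g1 (4 * J + κ)) - s
    else if ρ'' ≤ J then (∑ κ ∈ Finset.range 4, g2 (4 * J - κ)) - s else 0 with hc'
  -- the big columns
  have hcol : ∀ J < ρ', c' J ≤ (2 * Nb * (2 * s) : ℕ) ∧
      (0 < c' J → ColS f (2 * s) (2 * Nb) 4 J (n' - J) (c' J) O' B') := by
    intro J hJ
    have e : c' J = (∑ κ ∈ Finset.range 4, mA f s Nb (4 * n') c B B' (4 * J + κ)) - s := by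
      simp only [hc', hJ, if_true, hg1]
    rw [e]
    refine bigcol hB ?_ ?_ ?_
    · intro κ hκ; exact h.le _ (by omega)
    · intro κ hκ
      exact h.colc (4 * J + κ) (by omega)
    · intro κ hκ
      exact (hres (4 * J + κ) (by omega)).1 (by omega)
  have hrow : ∀ J, ρ'' ≤ J → J ≤ n' → c' J ≤ (2 * Nb * (2 * s) : ℕ) ∧
      (0 < c' J → ColS (flip f) (2 * s) (2 * Nb) 4 (n' - J) J (c' J) O' B') := by
    intro J hJ hJn
    have e : c' J = (∑ κ ∈ Finset.range 4, mA (flip f) s Nb (4 * n')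
        (fun u => c (4 * n' - u)) B B' (4 * (n' - J) + κ)) - s := by
      have hn : ¬ J < ρ' := by omega
      simp only [hc', hn, if_false, hJ, if_true, hg2]
      congr 1
      refine Finset.sum_congr rfl (fun κ hκ => ?_)
      rw [Finset.mem_range] at hκ
      congr 1
      omega
    have e2 : ColS (flip f) (2 * s) (2 * Nb) 4 (n' - J) J (c' J) O' B' =
        ColS (flip f) (2 * s) (2 * Nb) 4 (n' - J) (n' - (n' - J)) (c' J) O' B' := by
      congr 1; omega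
    rw [e2, e]
    have e3 : ∀ κ < 4, 4 * n' - (4 * (n' - J) + κ) = 4 * J - κ := by
      intro κ hκ; omega
    refine bigcol (c := fun u => c (4 * n' - u)) hB ?_ ?_ ?_
    · intro κ hκ; exact h.le _ (by omega)
    · intro κ hκ
      have := h.rowc (4 * J - κ) (by omega) (by omega)
      simp only [e3 κ hκ]
      have e4 : 4 * n' - (4 * J - κ) = 4 * (n' - J) + κ := by omega
      rw [e4] at this
      exact this
    · intro κ hκ
      have := (hres (4 * J - κ) (by omega)).2 (by omega)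
      have e4 : 4 * n' - (4 * J - κ) = 4 * (n' - J) + κ := by omega
      rw [e4] at this
      simp only [e3 κ hκ]
      exact this
  refine ⟨hB, hd', by omega, ρ', c', ⟨by omega, ?_, ?_, ?_⟩, ?_⟩
  · intro J hJ
    by_cases h1 : J < ρ'
    · exact (hcol J h1).1
    · by_cases h2 : ρ'' ≤ J
      · exact (hrow J h2 hJ).1
      · simp only [hc', h1, h2, if_false]
        positivity
  · intro J hJ
    exact (hcol J hJ).2
  · intro J hJ hJn h0
    by_cases h2 : ρ'' ≤ J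
    · exact (hrow J h2 hJn).2 h0
    · have hn : ¬ J < ρ' := by omega
      simp only [hc', hn, h2, if_false] at h0
      omega
  · -- the sum
    have hS1 : ∑ J ∈ Finset.range (n' + 1), c' J =
        (∑ i ∈ Finset.range (4 * ρ'), g1 i - ρ' * s) +
        (∑ i ∈ Finset.Ico (4 * ρ'' - 3) (4 * n' + 1), g2 i - ((n' + 1 - ρ'' : ℕ) : ℤ) * s) := by
      rw [← Finset.sum_range_add_sum_Ico c' (show ρ'' ≤ n' + 1 from hρ''4),
        ← Finset.sum_range_add_sum_Ico c' hρρ, ← sum_group_col, ← sum_group_row g2 _ _ hρ''3 hρ''4]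
      have p1 : ∑ J ∈ Finset.range ρ', c' J =
          ∑ J ∈ Finset.range ρ', ∑ κ ∈ Finset.range 4, g1 (4 * J + κ) - ρ' * s := by
        rw [Finset.sum_congr rfl (g := fun J => (∑ κ ∈ Finset.range 4, g1 (4 * J + κ)) - (s : ℤ)),
          Finset.sum_sub_distrib]
        · simp
        · intro J hJ
          rw [Finset.mem_range] at hJ
          simp only [hc', hJ, if_true]
      have p2 : ∑ J ∈ Finset.Ico ρ' ρ'', c' J = 0 := by
        refine Finset.sum_eq_zero (fun J hJ => ?_)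
        rw [Finset.mem_Ico] at hJ
        have hn : ¬ J < ρ' := by omega
        have hn2 : ¬ ρ'' ≤ J := by omega
        simp only [hc', hn, hn2, if_false]
      have p3 : ∑ J ∈ Finset.Ico ρ'' (n' + 1), c' J =
          ∑ J ∈ Finset.Ico ρ'' (n' + 1), ∑ κ ∈ Finset.range 4, g2 (4 * J - κ) -
            ((n' + 1 - ρ'' : ℕ) : ℤ) * s := by
        rw [Finset.sum_congr rfl (g := fun J => (∑ κ ∈ Finset.range 4, g2 (4 * J - κ)) - (s : ℤ)),
          Finset.sum_sub_distrib]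
        · simp
        · intro J hJ
          rw [Finset.mem_Ico] at hJ
          have hn : ¬ J < ρ' := by omega
          simp only [hc', hn, if_false, hJ.1, if_true]
      rw [p1, p2, p3]; ring
    have hG1 : ∑ i ∈ Finset.range (4 * ρ'), g1 i = ∑ i ∈ Finset.range (4 * ρ'), c i -
        4 * ρ' * s - ∑ i ∈ Finset.range (4 * ρ'),
          ((mLate f s Nb (4 * n') B B' i + mAhead f s Nb (4 * n') B' i : ℕ) : ℤ) := by
      rw [Finset.sum_congr rfl (g := fun i => c i - (s : ℤ) -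
        ((mLate f s Nb (4 * n') B B' i + mAhead f s Nb (4 * n') B' i : ℕ) : ℤ)),
        Finset.sum_sub_distrib, Finset.sum_sub_distrib]
      · simp
      · intro i _
        simp only [hg1, mA]
        push_cast
        ring
    have hG2 : ∑ i ∈ Finset.Ico (4 * ρ'' - 3) (4 * n' + 1), g2 i =
        ∑ i ∈ Finset.Ico (4 * ρ'' - 3) (4 * n' + 1), c i -
        ((4 * (n' + 1 - ρ'') : ℕ) : ℤ) * s - ∑ i ∈ Finset.Ico (4 * ρ'' - 3) (4 * n' + 1),
          ((mLate (flip f) s Nb (4 * n') B B' (4 * n' - i) +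
            mAhead (flip f) s Nb (4 * n') B' (4 * n' - i) : ℕ) : ℤ) := by
      rw [Finset.sum_congr rfl (g := fun i => c i - (s : ℤ) -
        ((mLate (flip f) s Nb (4 * n') B B' (4 * n' - i) +
            mAhead (flip f) s Nb (4 * n') B' (4 * n' - i) : ℕ) : ℤ)),
        Finset.sum_sub_distrib, Finset.sum_sub_distrib]
      · congr 2
        rw [Finset.sum_const, Nat.card_Ico, nsmul_eq_mul]
        congr 2
        omega
      · intro i hi
        rw [Finset.mem_Ico] at hi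
        have e : 4 * n' - (4 * n' - i) = i := by omega
        simp only [hg2, mA, e]
        push_cast
        ring
    -- the sum of `c`
    have hC1 : ∑ i ∈ Finset.range (4 * n' + 1), c i =
        ∑ i ∈ Finset.range (4 * ρ'), c i + ∑ i ∈ Finset.Ico (4 * ρ') ρ1, c i +
        ∑ i ∈ Finset.Ico ρ1 ρ2, c i + ∑ i ∈ Finset.Ico ρ2 (4 * ρ'' - 3), c i +
        ∑ i ∈ Finset.Ico (4 * ρ'' - 3) (4 * n' + 1), c i := by
      rw [Finset.sum_range_add_sum_Ico c hρ'1, Finset.sum_range_add_sum_Ico c hρ,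
        Finset.sum_range_add_sum_Ico c hρ''1, Finset.sum_range_add_sum_Ico c (by omega)]
    have hZ : ∑ i ∈ Finset.Ico ρ1 ρ2, c i = 0 := by
      refine Finset.sum_eq_zero (fun i hi => ?_)
      rw [Finset.mem_Ico] at hi
      exact h.zero i hi.1 hi.2
    have hL1 : ∑ i ∈ Finset.Ico (4 * ρ') ρ1, c i ≤ 23 * ((Nb * s : ℕ) : ℤ) := by
      have h1 : ∑ i ∈ Finset.Ico (4 * ρ') ρ1, c i ≤
          ∑ i ∈ Finset.Ico (4 * ρ') ρ1, ((Nb * s : ℕ) : ℤ) := by
        refine Finset.sum_le_sum (fun i hi => h.le i ?_)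
        rw [Finset.mem_Ico] at hi
        omega
      rw [Finset.sum_const, Nat.card_Ico, nsmul_eq_mul] at h1
      refine h1.trans (mul_le_mul_of_nonneg_right ?_ (by positivity))
      have : ρ1 - 4 * ρ' ≤ 23 := by omega
      exact_mod_cast this
    have hL2 : ∑ i ∈ Finset.Ico ρ2 (4 * ρ'' - 3), c i ≤ 3 * ((Nb * s : ℕ) : ℤ) := by
      have h1 : ∑ i ∈ Finset.Ico ρ2 (4 * ρ'' - 3), c i ≤
          ∑ i ∈ Finset.Ico ρ2 (4 * ρ'' - 3), ((Nb * s : ℕ) : ℤ) := by
        refine Finset.sum_le_sum (fun i hi => h.le i ?_)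
        rw [Finset.mem_Ico] at hi
        omega
      rw [Finset.sum_const, Nat.card_Ico, nsmul_eq_mul] at h1
      refine h1.trans (mul_le_mul_of_nonneg_right ?_ (by positivity))
      have : 4 * ρ'' - 3 - ρ2 ≤ 3 := by omega
      exact_mod_cast this
    have haccZ : (Theta f (Nb * s) (4 * n') B : ℤ) +
      (∑ i ∈ Finset.range (4 * ρ'),
          ((mLate f s Nb (4 * n') B B' i + mAhead f s Nb (4 * n') B' i : ℕ) : ℤ) +
        ∑ i ∈ Finset.Ico (4 * ρ'' - 3) (4 * n' + 1),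
          ((mLate (flip f) s Nb (4 * n') B B' (4 * n' - i) +
            mAhead (flip f) s Nb (4 * n') B' (4 * n' - i) : ℕ) : ℤ)) ≤
        Theta f (4 * (Nb * s)) n' B' := by
      exact_mod_cast hacc
    have hsl : (5 * ρ' + 5 * (n' + 1 - ρ'')) * s ≤ 6 * s * (n' + 1) := by
      calc (5 * ρ' + 5 * (n' + 1 - ρ'')) * s ≤ (6 * (n' + 1)) * s :=
            Nat.mul_le_mul_right _ (by omega)
        _ = _ := by ring
    have hslZ : (5 * (ρ' : ℤ) + 5 * ((n' + 1 - ρ'' : ℕ) : ℤ)) * s ≤ 6 * s * (n' + 1) := by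
      exact_mod_cast hsl
    have hbl : (26 : ℤ) * ((Nb * s : ℕ) : ℤ) ≤ (((ρ2 - ρ1 + 26) * (Nb * s) : ℕ) : ℤ) := by
      have : 26 * (Nb * s) ≤ (ρ2 - ρ1 + 26) * (Nb * s) := Nat.mul_le_mul_right _ (by omega)
      exact_mod_cast this
    rw [hC1, hZ, hS1, hG1, hG2]
    rw [Nat.cast_add, Nat.cast_mul (4 : ℕ)]
    have e6 : ((6 * s * (n' + 1) : ℕ) : ℤ) = 6 * s * (n' + 1) := by push_cast; ring
    rw [e6]
    have e7 : ((4 : ℕ) : ℤ) = 4 := rfl
    rw [e7]
    linarith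

end Contain
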