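import Pool.Agent.Lib.MP_579b69_co.Account
import Pool.Agent.Lib.MP_579b69_co.Merge

namespace Contain

variable {V : Type*} {Adj : V → V → Prop}

/-! ### the state at a milestone -/

/-- level at scale `X = 2 ^ a`, round `u` -/
def gN (D X u : ℕ) : ℕ := (46 * D ^ 3 + u * (46 * D)) * X

/-- accumulated losses -/
def gL (D X u : ℕ) : ℕ := (46 * D + 4) * X ^ 3 + u * (16 * (46 * D ^ 3) + 26) * X ^ 2

/-- milestone state -/
def GState (f : ℕ → ℕ → V) (D X u : ℕ) (O B : Set V) : Prop :=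
  ∃ (ρ : ℕ) (c : ℕ → ℤ), Snap f X X (gN D X u) ρ c O B ∧
    (D : ℤ) * (gN D X u * (X * X) : ℕ) ≤
      D * ∑ i ∈ Finset.range (gN D X u + 1), c i +
        (D + 1) * (Theta f (X * X) (gN D X u) B : ℤ) + D * (gL D X u : ℤ)

/-- milestone state right after a round -/
def GStateF (f : ℕ → ℕ → V) (D X u : ℕ) (O B : Set V) : Prop :=
  ∃ (ρ1 ρ2 : ℕ) (c : ℕ → ℤ), SnapF f X X (gN D X u) ρ1 ρ2 c O B ∧
    ρ2 ≤ ρ1 + 46 * D * X + 4 ∧
    (D : ℤ) * (gN D X u * (X * X) : ℕ) ≤
      D * ∑ i ∈ Finset.range (gN D X u + 1), c i +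
        (D + 1) * (Theta f (X * X) (gN D X u) B : ℤ) + D * (gL D X u : ℤ)

theorem GStateF.toGState {f : ℕ → ℕ → V} {D X u : ℕ} {O B : Set V}
    (h : GStateF f D X u O B) : GState f D X u O B := by
  obtain ⟨ρ1, ρ2, c, h1, _, h3⟩ := h
  exact ⟨ρ2, c, h1.toSnap, h3⟩

theorem Theta_le_ncard {f : ℕ → ℕ → V} (hinj : ∀ l p l' p', f l p = f l' p' → l = l' ∧ p = p')
    (b n : ℕ) {B : Set V} (hB : B.Finite) : Theta f b n B ≤ B.ncard := by
  classical
  rw [Set.ncard_eq_toFinset_card B hB]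
  unfold Theta
  apply Finset.card_le_card_of_injOn (fun p => f p.1 p.2)
  · intro p hp
    simp only [Finset.coe_filter, Set.mem_ofPred_eq] at hp
    simpa using hp.2.2
  · intro p _ p' _ h
    have := hinj _ _ _ _ h
    exact Prod.ext this.1 this.2

theorem gN_succ (D X u : ℕ) : gN D X (u + 1) = gN D X u + 46 * D * X := by
  unfold gN; ring

theorem gN_last (D X : ℕ) : gN D X (7 * D ^ 2) = 4 * gN D (2 * X) 0 := by
  unfold gN; ring

theorem gN_pos {D X u : ℕ} (hD : 0 < D) (hX : 0 < X) : 0 < gN D X u := by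
  unfold gN; positivity

/-- one round -/
theorem GState.round {f : ℕ → ℕ → V} (hf : IsFrame Adj f) {D X u : ℕ} {O B : Set V}
    (hD : 0 < D) (hX : 0 < X) (hu : u < 7 * D ^ 2)
    (hbig : ∀ (ρ : ℕ) (c : ℕ → ℤ), Snap f X X (gN D X u) ρ c O B →
      (D : ℤ) * (gN D X u * (X * X) : ℕ) ≤
      D * ∑ i ∈ Finset.range (gN D X u + 1), c i +
        (D + 1) * (Theta f (X * X) (gN D X u) B : ℤ) + D * (gL D X u : ℤ) →
      4 * ((gN D X u * (X * X) : ℕ) : ℤ) ≤ D * ∑ i ∈ Finset.range (gN D X u + 1), c i)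
    (h : GState f D X u O B) (hd : Disjoint B O) :
    KForce Adj (3 * (gN D X u + 46 * D * X + 1)) (TRound X X (46 * D * X))
      (fun O' B' => Disjoint B' O' ∧ GStateF f D X (u + 1) O' B') O B := by
  obtain ⟨ρ, c, h1, h2⟩ := h
  have h3 := hbig ρ c h1 h2
  have hDX : 0 < D * X := Nat.mul_pos hD hX
  have hm : 21 ≤ 46 * D * X := by
    have : 46 * D * X = 46 * (D * X) := by ring
    omega
  have hn : D * D * (46 * D * X) ≤ gN D X u := by
    have : gN D X u = D * D * (46 * D * X) + u * (46 * D) * X := by unfold gN; ring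
    rw [this]; exact Nat.le_add_right _ _
  have hb : ((4 * gN D X u * (X * X) : ℕ) : ℤ) ≤
      (D : ℕ) * ∑ i ∈ Finset.range (gN D X u + 1), c i := by
    refine le_trans (le_of_eq ?_) h3
    push_cast; ring
  refine KForce.imp (round_step hf hX hX hm h1 hd hD hD hn hb) ?_
  rintro O' B' ⟨_, hd', ρ1, ρ2, c', hs, hρ, hineq⟩
  refine ⟨hd', ρ1, ρ2, c', ?_, hρ, ?_⟩
  · rw [gN_succ]; exact hs
  · rw [gN_succ]
    set n := gN D X u with hndef
    set m := 46 * D * X with hmdef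
    -- the loss of one round
    have hloss : 24 * (X * X) + 2 * X * (n + m + 1) ≤ (16 * (46 * D ^ 3) + 26) * X ^ 2 := by
      have h4 : n + m ≤ 8 * (46 * D ^ 3) * X := by
        have e1 : n + m = (46 * D ^ 3 + (u + 1) * (46 * D)) * X := by
          rw [hndef, hmdef]; unfold gN; ring
        rw [e1]
        apply Nat.mul_le_mul_right
        have : (u + 1) * (46 * D) ≤ 7 * D ^ 2 * (46 * D) := Nat.mul_le_mul_right _ hu
        have e2 : 7 * D ^ 2 * (46 * D) = 7 * (46 * D ^ 3) := by ring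
        omega
      have hXX : X ≤ X * X := Nat.le_mul_self X
      calc 24 * (X * X) + 2 * X * (n + m + 1)
          = 24 * (X * X) + 2 * X * (n + m) + 2 * X := by ring
        _ ≤ 24 * (X * X) + 2 * X * (8 * (46 * D ^ 3) * X) + 2 * (X * X) := by
            have := Nat.mul_le_mul_left (2 * X) h4
            omega
        _ = (16 * (46 * D ^ 3) + 26) * X ^ 2 := by ring
    have hL : gL D X (u + 1) = gL D X u + (16 * (46 * D ^ 3) + 26) * X ^ 2 := by
      unfold gL; ring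
    have hloss' : ((24 * (X * X) + 2 * X * (n + m + 1) : ℕ) : ℤ) + (gL D X u : ℤ) ≤
        (gL D X (u + 1) : ℤ) := by
      rw [hL]
      have : ((24 * (X * X) + 2 * X * (n + m + 1) : ℕ) : ℤ) ≤
        (((16 * (46 * D ^ 3) + 26) * X ^ 2 : ℕ) : ℤ) := by exact_mod_cast hloss
      push_cast at this ⊢
      linarith
    have hD0 : (0 : ℤ) ≤ D := by positivity
    have h5 := mul_le_mul_of_nonneg_left hloss' hD0
    have e3 : (((n + m) * (X * X) : ℕ) : ℤ) = ((n * (X * X) : ℕ) : ℤ) + ((m * (X * X) : ℕ) : ℤ) := by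
      push_cast; ring
    rw [e3]
    have h6 := hineq
    rw [mul_add] at h6 h5 ⊢
    rw [mul_add] at h6
    rw [mul_sub] at h6
    linarith

/-- change of scale -/
theorem GStateF.rescale {f : ℕ → ℕ → V} (hf : IsFrame Adj f) {D X : ℕ} {O B : Set V}
    (hD : 0 < D) (hX : 0 < X)
    (hXbig : 7 * D ^ 2 * (16 * (46 * D ^ 3) + 26) + 12 * (46 * D ^ 3) + 36 ≤ X)
    (h : GStateF f D X (7 * D ^ 2) O B) (hd : Disjoint B O) :
    KForce Adj (4 * gN D (2 * X) 0 + 1) (3 * (X * X) + wOld X X)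
      (fun O' B' => GState f D (2 * X) 0 O' B') O B := by
  obtain ⟨ρ1, ρ2, c, h1, hρ, h2⟩ := h
  rw [gN_last] at h1 h2
  set n' := gN D (2 * X) 0 with hn'
  refine KForce.imp (Contain.merge hf hX hX h1 hd) ?_
  rintro O' B' ⟨_, hd', hTh, ρ', c', hs, hineq⟩
  refine ⟨ρ', c', hs, ?_⟩
  rw [← hn']
  have eXX : 2 * X * (2 * X) = 4 * (X * X) := by ring
  rw [eXX]
  have e1 : n' * (4 * (X * X)) = 4 * n' * (X * X) := by ring
  rw [e1]
  -- losses
  have hloss : 6 * X * (n' + 1) + (ρ2 - ρ1 + 26) * (X * X) + gL D X (7 * D ^ 2) ≤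
      gL D (2 * X) 0 := by
    have h3 : ρ2 - ρ1 + 26 ≤ 46 * D * X + 30 := by omega
    have h4 : (ρ2 - ρ1 + 26) * (X * X) ≤ (46 * D * X + 30) * (X * X) :=
      Nat.mul_le_mul_right _ h3
    have h5 : X ≤ X * X := Nat.le_mul_self X
    have h6 : (7 * D ^ 2 * (16 * (46 * D ^ 3) + 26) + 12 * (46 * D ^ 3) + 36) * (X * X) ≤
        X * (X * X) := Nat.mul_le_mul_right _ hXbig
    have e2 : 6 * X * (n' + 1) = 12 * (46 * D ^ 3) * (X * X) + 6 * X := by
      rw [hn']; unfold gN; ring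
    have e3 : gL D X (7 * D ^ 2) = (46 * D + 4) * (X * (X * X)) +
        7 * D ^ 2 * (16 * (46 * D ^ 3) + 26) * (X * X) := by unfold gL; ring
    have e4 : gL D (2 * X) 0 = 8 * ((46 * D + 4) * (X * (X * X))) := by unfold gL; ring
    rw [e2, e3, e4]
    have e5 : (46 * D * X + 30) * (X * X) = 46 * D * (X * (X * X)) + 30 * (X * X) := by ring
    rw [e5] at h4
    have e6 : (46 * D + 4) * (X * (X * X)) = 46 * D * (X * (X * X)) + 4 * (X * (X * X)) := by ring
    rw [e6]
    have e7 : (7 * D ^ 2 * (16 * (46 * D ^ 3) + 26) + 12 * (46 * D ^ 3) + 36) * (X * X) =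
      7 * D ^ 2 * (16 * (46 * D ^ 3) + 26) * (X * X) + 12 * (46 * D ^ 3) * (X * X) +
        36 * (X * X) := by ring
    rw [e7] at h6
    have h8 : 0 ≤ 46 * D * (X * (X * X)) := Nat.zero_le _
    omega
  have hloss' : ((6 * X * (n' + 1) + (ρ2 - ρ1 + 26) * (X * X) : ℕ) : ℤ) +
      (gL D X (7 * D ^ 2) : ℤ) ≤ (gL D (2 * X) 0 : ℤ) := by
    have := hloss
    exact_mod_cast this
  have hD0 : (0 : ℤ) ≤ D := by positivity
  have h5 := mul_le_mul_of_nonneg_left hloss' hD0
  have h6 := mul_le_mul_of_nonneg_left hineq hD0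
  have h7 : (Theta f (X * X) (4 * n') B : ℤ) ≤ (Theta f (4 * (X * X)) n' B' : ℤ) := by
    exact_mod_cast hTh
  rw [mul_add] at h5
  rw [mul_add, mul_add, mul_sub] at h6
  have e8 : ((D : ℤ) + 1) * (Theta f (X * X) (4 * n') B : ℤ) =
    D * (Theta f (X * X) (4 * n') B : ℤ) + (Theta f (X * X) (4 * n') B : ℤ) := by ring
  have e9 : ((D : ℤ) + 1) * (Theta f (4 * (X * X)) n' B' : ℤ) =
    D * (Theta f (4 * (X * X)) n' B' : ℤ) + (Theta f (4 * (X * X)) n' B' : ℤ) := by ring
  rw [e8] at h2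
  rw [e9]
  linarith

/-! ### numerics -/

theorem big_num {D H e τ Θ Sg L : ℤ} (hD : 16 ≤ D) (he : 0 ≤ e) (hH : 0 ≤ H)
    (h1 : D * τ ≤ (D + 1) * H + 4 * D * e) (h2 : D * Θ ≤ (D - 16) * τ)
    (h3 : 46 * D ^ 3 * e ≤ H) (h4 : D ^ 3 * L ≤ (D + 2) * H)
    (h5 : D * H ≤ D * Sg + (D + 1) * Θ + D * L) : 4 * H ≤ D * Sg := by
  have hD0 : 0 < D := by linarith
  have hD2 : 0 < D ^ 2 := by positivity
  have a1 : D * (D + 1) * (D * Θ) ≤ D * (D + 1) * ((D - 16) * τ) :=
    mul_le_mul_of_nonneg_left h2 (by positivity)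
  have a2 : (D + 1) * (D - 16) * (D * τ) ≤ (D + 1) * (D - 16) * ((D + 1) * H + 4 * D * e) :=
    mul_le_mul_of_nonneg_left h1 (mul_nonneg (by linarith) (by linarith))
  have a3 : D ^ 2 * (D * H) ≤ D ^ 2 * (D * Sg + (D + 1) * Θ + D * L) :=
    mul_le_mul_of_nonneg_left h5 hD2.le
  have a4 : (D + 1) * (D - 16) * (4 * D * e) ≤ 4 * D ^ 3 * e := by
    have : (D + 1) * (D - 16) ≤ D ^ 2 := by nlinarith
    calc (D + 1) * (D - 16) * (4 * D * e) ≤ D ^ 2 * (4 * D * e) :=
          mul_le_mul_of_nonneg_right this (by positivity)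
      _ = 4 * D ^ 3 * e := by ring
  have a5 : 0 ≤ D ^ 3 * e := by positivity
  have a6 : 4 * D ^ 3 * e ≤ H := by nlinarith
  have a7 : D ^ 2 * (4 * H) ≤ D ^ 2 * (D * Sg) := by
    have b1 : D ^ 2 * (D * Sg) ≥ D ^ 3 * H - D ^ 2 * (D + 1) * Θ - D ^ 3 * L := by
      nlinarith [a3]
    have b2 : D ^ 2 * (D + 1) * Θ ≤ (D + 1) * (D - 16) * ((D + 1) * H + 4 * D * e) := by
      nlinarith [a1, a2]
    have b3 : D ^ 2 * (D + 1) * Θ ≤ (D + 1) ^ 2 * (D - 16) * H + H := by
      nlinarith [b2, a4, a6]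
    have b4 : D ^ 2 * (D * Sg) ≥ D ^ 3 * H - ((D + 1) ^ 2 * (D - 16) * H + H) - (D + 2) * H := by
      linarith
    have b5 : D ^ 3 * H - ((D + 1) ^ 2 * (D - 16) * H + H) - (D + 2) * H =
      (14 * D ^ 2 + 30 * D + 13) * H := by ring
    rw [b5] at b4
    have b6 : D ^ 2 * (4 * H) ≤ (14 * D ^ 2 + 30 * D + 13) * H := by
      have : D ^ 2 * (4 * H) = (4 * D ^ 2) * H := by ring
      rw [this]
      apply mul_le_mul_of_nonneg_right _ hH
      nlinarith
    linarith
  exact le_of_mul_le_mul_left a7 hD2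

/-- times of the milestones -/
def gTau (D a0 : ℕ) : ℕ → ℕ
  | 0 => (2 ^ a0) ^ 3
  | k + 1 => gTau D a0 k +
      (TRound (2 ^ (a0 + k / (7 * D ^ 2))) (2 ^ (a0 + k / (7 * D ^ 2)))
        (46 * D * 2 ^ (a0 + k / (7 * D ^ 2))) +
      if k % (7 * D ^ 2) + 1 = 7 * D ^ 2 then
        3 * (2 ^ (a0 + k / (7 * D ^ 2)) * 2 ^ (a0 + k / (7 * D ^ 2))) +
          wOld (2 ^ (a0 + k / (7 * D ^ 2))) (2 ^ (a0 + k / (7 * D ^ 2)))
      else 0)

theorem div_mod_step {U k : ℕ} (hU : 0 < U) (h : k % U + 1 < U) :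
    (k + 1) / U = k / U ∧ (k + 1) % U = k % U + 1 := by
  have h1 := Nat.div_add_mod k U
  have h2 : k + 1 = U * (k / U) + (k % U + 1) := by omega
  constructor
  · rw [Nat.div_eq_iff hU |>.mpr]
    constructor
    · rw [h2, mul_comm]; omega
    · rw [h2, mul_comm (k / U)]; omega
  · have e : (k + 1) % U = (U * (k / U) + (k % U + 1)) % U := by rw [← h2]
    rw [e, Nat.mul_add_mod, Nat.mod_eq_of_lt h]

theorem div_mod_last {U k : ℕ} (hU : 0 < U) (h : k % U + 1 = U) :
    (k + 1) / U = k / U + 1 ∧ (k + 1) % U = 0 := by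
  have h1 := Nat.div_add_mod k U
  have h2 : k + 1 = U * (k / U + 1) := by rw [mul_add, mul_one]; omega
  constructor
  · rw [h2, Nat.mul_div_cancel_left _ hU]
  · rw [h2, Nat.mul_mod_right]

theorem TRound_eq (D X : ℕ) : TRound X X (46 * D * X) = (46 * D + 46) * X ^ 3 := by
  unfold TRound wOld wAlpha; ring

theorem mergeTime_le {X : ℕ} (hX : 0 < X) : 3 * (X * X) + wOld X X ≤ 22 * X ^ 3 := by
  have e : 3 * (X * X) + wOld X X = 3 * (X * X) + 19 * X ^ 3 := by unfold wOld; ring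
  have : X * X ≤ X ^ 3 := by
    calc X * X = X ^ 2 := by ring
      _ ≤ X ^ 3 := Nat.pow_le_pow_right hX (by norm_num)
  omega

theorem gTau_inv {D : ℕ} (hD : 0 < D) (a0 k : ℕ) :
    (1 + k % (7 * D ^ 2)) * (2 ^ (a0 + k / (7 * D ^ 2))) ^ 3 ≤ gTau D a0 k ∧
    D * gTau D a0 k ≤ (D + 1) * (gN D (2 ^ (a0 + k / (7 * D ^ 2))) (k % (7 * D ^ 2)) *
      (2 ^ (a0 + k / (7 * D ^ 2)) * 2 ^ (a0 + k / (7 * D ^ 2)))) +
      4 * D * (2 ^ (a0 + k / (7 * D ^ 2))) ^ 3 := by
  have hU : 0 < 7 * D ^ 2 := by positivity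
  have hU7 : 7 ≤ 7 * D ^ 2 := by
    have : 0 < D ^ 2 := by positivity
    omega
  induction k with
  | zero =>
    simp only [Nat.zero_mod, Nat.zero_div, add_zero, one_mul, gTau]
    refine ⟨le_rfl, ?_⟩
    have : D * (2 ^ a0) ^ 3 ≤ 4 * D * (2 ^ a0) ^ 3 := by
      apply Nat.mul_le_mul_right; omega
    omega
  | succ k ih =>
    obtain ⟨ih1, ih2⟩ := ih
    rcases Nat.lt_or_ge (k % (7 * D ^ 2) + 1) (7 * D ^ 2) with h | h
    · obtain ⟨e1, e2⟩ := div_mod_step hU h
      rw [e1, e2]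
      have hne : ¬ (k % (7 * D ^ 2) + 1 = 7 * D ^ 2) := by omega
      have eT : gTau D a0 (k + 1) = gTau D a0 k +
          (46 * D + 46) * (2 ^ (a0 + k / (7 * D ^ 2))) ^ 3 := by
        simp only [gTau, hne, if_false, TRound_eq, add_zero]
      rw [eT]
      set X := 2 ^ (a0 + k / (7 * D ^ 2)) with hX
      set u := k % (7 * D ^ 2) with hu
      constructor
      · have : (1 + (u + 1)) * X ^ 3 = (1 + u) * X ^ 3 + X ^ 3 := by ring
        have h2 : X ^ 3 ≤ (46 * D + 46) * X ^ 3 := by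
          apply Nat.le_mul_of_pos_left; omega
        omega
      · have e3 : gN D X (u + 1) * (X * X) = gN D X u * (X * X) + 46 * D * X ^ 3 := by
          unfold gN; ring
        rw [e3]
        have e4 : D * (gTau D a0 k + (46 * D + 46) * X ^ 3) =
          D * gTau D a0 k + (D + 1) * (46 * D * X ^ 3) := by ring
        rw [e4]
        have e5 : (D + 1) * (gN D X u * (X * X) + 46 * D * X ^ 3) =
          (D + 1) * (gN D X u * (X * X)) + (D + 1) * (46 * D * X ^ 3) := by ring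
        rw [e5]
        omega
    · have h' : k % (7 * D ^ 2) + 1 = 7 * D ^ 2 := by
        have := Nat.mod_lt k hU
        omega
      obtain ⟨e1, e2⟩ := div_mod_last hU h'
      rw [e1, e2]
      have eT : gTau D a0 (k + 1) = gTau D a0 k +
          ((46 * D + 46) * (2 ^ (a0 + k / (7 * D ^ 2))) ^ 3 +
          (3 * (2 ^ (a0 + k / (7 * D ^ 2)) * 2 ^ (a0 + k / (7 * D ^ 2))) +
          wOld (2 ^ (a0 + k / (7 * D ^ 2))) (2 ^ (a0 + k / (7 * D ^ 2))))) := by
        simp only [gTau, h', if_true, TRound_eq]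
      have eX : 2 ^ (a0 + (k / (7 * D ^ 2) + 1)) = 2 * 2 ^ (a0 + k / (7 * D ^ 2)) := by
        rw [← add_assoc, pow_succ]; ring
      rw [eT, eX]
      have hXpos : 0 < 2 ^ (a0 + k / (7 * D ^ 2)) := by positivity
      set X := 2 ^ (a0 + k / (7 * D ^ 2)) with hX
      set u := k % (7 * D ^ 2) with hu
      have hm := mergeTime_le hXpos
      constructor
      · have e3 : (1 + 0) * (2 * X) ^ 3 = 8 * X ^ 3 := by ring
        rw [e3]
        have h3 : 7 * X ^ 3 ≤ (1 + u) * X ^ 3 := by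
          apply Nat.mul_le_mul_right; omega
        have h2 : X ^ 3 ≤ (46 * D + 46) * X ^ 3 := by
          apply Nat.le_mul_of_pos_left; omega
        omega
      · have e3 : gN D (2 * X) 0 * (2 * X * (2 * X)) = gN D X u * (X * X) + 46 * D * X ^ 3 := by
          have e6 := gN_last D X
          have e7 : gN D (2 * X) 0 * (2 * X * (2 * X)) = 4 * gN D (2 * X) 0 * (X * X) := by ring
          rw [e7, ← e6, ← h', gN_succ]
          ring
        rw [e3]
        have e4 : D * (gTau D a0 k + ((46 * D + 46) * X ^ 3 + (3 * (X * X) + wOld X X))) =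
          D * gTau D a0 k + (D + 1) * (46 * D * X ^ 3) + D * (3 * (X * X) + wOld X X) := by ring
        rw [e4]
        have e5 : (D + 1) * (gN D X u * (X * X) + 46 * D * X ^ 3) =
          (D + 1) * (gN D X u * (X * X)) + (D + 1) * (46 * D * X ^ 3) := by ring
        rw [e5]
        have h8 : D * (3 * (X * X) + wOld X X) ≤ D * (22 * X ^ 3) := Nat.mul_le_mul_left _ hm
        have e9 : 4 * D * (2 * X) ^ 3 = 4 * D * X ^ 3 + D * (28 * X ^ 3) := by ring
        rw [e9]
        have h10 : D * (22 * X ^ 3) ≤ D * (28 * X ^ 3) := by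
          apply Nat.mul_le_mul_left; omega
        omega

theorem gTau_strict (D a0 : ℕ) : StrictMono (gTau D a0) := by
  apply strictMono_nat_of_lt_succ
  intro k
  have hX : 0 < 2 ^ (a0 + k / (7 * D ^ 2)) := by positivity
  have h : 0 < TRound (2 ^ (a0 + k / (7 * D ^ 2))) (2 ^ (a0 + k / (7 * D ^ 2)))
        (46 * D * 2 ^ (a0 + k / (7 * D ^ 2))) := by
    rw [TRound_eq]; positivity
  simp only [gTau]
  omega

/-- the potential inequality forces large total strength -/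
theorem gState_big {f : ℕ → ℕ → V} (hinj : ∀ l p l' p', f l p = f l' p' → l = l' ∧ p = p')
    {q : ℝ} {D X u τ : ℕ} (hD16 : 16 ≤ D) (hDq : (D : ℝ) * q ≤ D - 16)
    (hu : u ≤ 7 * D ^ 2) (hX : 0 < X)
    (hXbig : 7 * D ^ 2 * (16 * (46 * D ^ 3) + 26) + 12 * (46 * D ^ 3) + 36 ≤ X)
    (hτ : D * τ ≤ (D + 1) * (gN D X u * (X * X)) + 4 * D * X ^ 3)
    {B : Set V} (hB : B.Finite) (hcard : (B.ncard : ℝ) ≤ q * τ)
    (Sg : ℤ) (h : (D : ℤ) * (gN D X u * (X * X) : ℕ) ≤
      D * Sg + (D + 1) * (Theta f (X * X) (gN D X u) B : ℤ) + D * (gL D X u : ℤ)) :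
    4 * ((gN D X u * (X * X) : ℕ) : ℤ) ≤ D * Sg := by
  have hΘ := Theta_le_ncard hinj (X * X) (gN D X u) hB
  refine big_num (e := ((X ^ 3 : ℕ) : ℤ)) (τ := (τ : ℤ))
    (Θ := (Theta f (X * X) (gN D X u) B : ℤ)) (L := (gL D X u : ℤ)) (by exact_mod_cast hD16)
    (by positivity) (by positivity) (by exact_mod_cast hτ) ?_ ?_ ?_ h
  · have h1 : ((Theta f (X * X) (gN D X u) B : ℕ) : ℝ) ≤ q * τ :=
      le_trans (by exact_mod_cast hΘ) hcard
    have h2 : (D : ℝ) * (Theta f (X * X) (gN D X u) B : ℕ) ≤ ((D : ℝ) - 16) * τ := by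
      have hD0 : (0 : ℝ) ≤ D := by positivity
      calc (D : ℝ) * (Theta f (X * X) (gN D X u) B : ℕ) ≤ D * (q * τ) :=
            mul_le_mul_of_nonneg_left h1 hD0
        _ = (D * q) * τ := by ring
        _ ≤ ((D : ℝ) - 16) * τ := mul_le_mul_of_nonneg_right hDq (by positivity)
    exact_mod_cast h2
  · have : 46 * D ^ 3 * X ^ 3 ≤ gN D X u * (X * X) := by
      have e : gN D X u * (X * X) = 46 * D ^ 3 * X ^ 3 + u * (46 * D) * X ^ 3 := by
        unfold gN; ring
      rw [e]; exact Nat.le_add_right _ _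
    exact_mod_cast this
  · have : D ^ 3 * gL D X u ≤ (D + 2) * (gN D X u * (X * X)) := by
      have e1 : D ^ 3 * gL D X u = D ^ 3 * (46 * D + 4) * X ^ 3 +
          D ^ 3 * X ^ 2 * (u * (16 * (46 * D ^ 3) + 26)) := by unfold gL; ring
      have h1 : u * (16 * (46 * D ^ 3) + 26) ≤ X :=
        le_trans (Nat.mul_le_mul_right _ hu) (by omega)
      have h2 : D ^ 3 * X ^ 2 * (u * (16 * (46 * D ^ 3) + 26)) ≤ D ^ 3 * X ^ 2 * X :=
        Nat.mul_le_mul_left _ h1
      have e2 : (D + 2) * (gN D X u * (X * X)) = (D + 2) * (46 * D ^ 3) * X ^ 3 +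
        (D + 2) * (u * (46 * D) * X ^ 3) := by unfold gN; ring
      have e3 : D ^ 3 * (46 * D + 4) * X ^ 3 + D ^ 3 * X ^ 2 * X + D ^ 3 * (87 * X ^ 3) =
        (D + 2) * (46 * D ^ 3) * X ^ 3 := by ring
      rw [e1, e2]
      omega
    exact_mod_cast this

/-- initial state -/
theorem GState.init {f : ℕ → ℕ → V} {D X : ℕ} {O B : Set V} (hD : 0 < D)
    (hX : 46 * D ^ 3 + 3 ≤ X)
    (hO : ∀ x y, x + y < (gN D X 0 + 1) * (X * X) → f x y ∈ O) (hd : Disjoint B O) :
    GState f D X 0 O B := by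
  classical
  have hX0 : 0 < X := by omega
  set n := gN D X 0 with hn
  have hn4 : 4 ≤ n := by
    have e : n = 46 * (D ^ 3 * X) := by rw [hn]; unfold gN; ring
    have : 0 < D ^ 3 * X := by positivity
    omega
  have hXX : X ≤ X * X := Nat.le_mul_self X
  refine ⟨n + 1, fun i => if i + 4 ≤ n then ((X * X : ℕ) : ℤ) - X else 0, ?_, ?_⟩
  · rw [← hn]
    refine ⟨le_rfl, ?_, ?_, ?_⟩
    · intro i _
      split_ifs
      · omega
      · positivity
    · intro i _ hpos
      by_cases hi : i + 4 ≤ n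
      swap
      · simp [hi] at hpos
      simp only [hi, if_true]
      have hcnt : ∀ z0 x y0, cnt f B z0 ((i + 1) * (X * X)) y0 ((n - i) * (X * X)) = x → x = 0 := by
        intro z0 x y0 hx
        rw [← hx]
        unfold cnt
        rw [Finset.card_eq_zero, Finset.filter_eq_empty_iff]
        intro p hp hpB
        rw [Finset.mem_product, Finset.mem_Ico, Finset.mem_Ico] at hp
        have : p.1 + p.2 < (n + 1) * (X * X) := by
          have e : (n + 1) * (X * X) = (i + 1) * (X * X) + (n - i) * (X * X) := by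
            rw [← add_mul]; congr 1; omega
          omega
        exact Set.disjoint_left.mp hd hpB (hO _ _ this)
      have hc0 : ∀ z0 y0, cnt f B z0 ((i + 1) * (X * X)) y0 ((n - i) * (X * X)) = 0 :=
        fun z0 y0 => hcnt z0 _ y0 rfl
      refine ⟨i * (X * X), i * (X * X) + X, X - 1, le_rfl, Nat.le_add_right _ _, ?_, by omega,
        ?_, ?_, ?_⟩
      · have e : X + (X - 1) * X = X * X := by
          have : X + (X - 1) * X = ((X - 1) + 1) * X := by ring
          rw [this, Nat.sub_add_cancel (by omega)]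
        rw [add_assoc, e]; ring
      · refine ⟨fun _ => i * (X * X), ?_, fun _ _ _ _ _ => le_rfl⟩
        intro y _ hy
        show i * (X * X) ≤ i * (X * X) ∧ i * (X * X) < i * (X * X) + X ∧ f (i * (X * X)) y ∈ O
        refine ⟨le_rfl, by omega, hO _ _ ?_⟩
        have e : (n + 1) * (X * X) = i * (X * X) + (n - i) * (X * X) + X * X := by
          rw [← add_mul]
          have : i + (n - i) = n := by omega
          rw [this]; ring
        omega
      · rw [hc0]
        have e : (X - 1) * X + X = X * X := by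
          have : (X - 1) * X + X = ((X - 1) + 1) * X := by ring
          rw [this, Nat.sub_add_cancel (by omega)]
        push_cast
        zify at e
        push_cast [Nat.cast_sub (show 1 ≤ X by omega)] at e ⊢
        linarith
      · rw [hc0]
        push_cast
        nlinarith
    · intro i hi hi' _
      omega
  · rw [← hn]
    have hsum : ∑ i ∈ Finset.range (n + 1), (if i + 4 ≤ n then ((X * X : ℕ) : ℤ) - X else 0) =
        ((n - 3 : ℕ) : ℤ) * (((X * X : ℕ) : ℤ) - X) := by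
      rw [← Finset.sum_filter, Finset.sum_const, nsmul_eq_mul]
      congr 2
      have : (Finset.range (n + 1)).filter (fun i => i + 4 ≤ n) = Finset.range (n - 3) := by
        ext i
        simp only [Finset.mem_filter, Finset.mem_range]
        omega
      rw [this, Finset.card_range]
    rw [hsum]
    have h1 : ((n * (X * X) : ℕ) : ℤ) ≤ ((n - 3 : ℕ) : ℤ) * (((X * X : ℕ) : ℤ) - X) +
        (gL D X 0 : ℤ) := by
      have hL : gL D X 0 = (46 * D + 4) * X ^ 3 := by unfold gL; ring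
      have hnX : n * X = 46 * D ^ 3 * (X * X) := by rw [hn]; unfold gN; ring
      have h2 : (46 * D ^ 3 + 3) * (X * X) ≤ X * (X * X) := Nat.mul_le_mul_right _ hX
      have h3 : X * (X * X) ≤ gL D X 0 := by
        rw [hL]
        have : X * (X * X) = X ^ 3 := by ring
        rw [this]
        apply Nat.le_mul_of_pos_left; omega
      have h4 : n * X + 3 * (X * X) ≤ gL D X 0 := by
        rw [hnX]
        have : 46 * D ^ 3 * (X * X) + 3 * (X * X) = (46 * D ^ 3 + 3) * (X * X) := by ring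
        omega
      have h5 : ((n * X + 3 * (X * X) : ℕ) : ℤ) ≤ (gL D X 0 : ℤ) := by exact_mod_cast h4
      push_cast [Nat.cast_sub (show 3 ≤ n by omega)] at h5 ⊢
      nlinarith
    have hD0 : (0 : ℤ) ≤ D := by positivity
    have h6 := mul_le_mul_of_nonneg_left h1 hD0
    have h7 : (0 : ℤ) ≤ ((D : ℤ) + 1) * (Theta f (X * X) n B : ℤ) := by positivity
    rw [mul_add] at h6
    linarith

/-- a live element gives an occupied cell far away -/
theorem Snap.cell {f : ℕ → ℕ → V} {s Nb n ρ : ℕ} {c : ℕ → ℤ} {O B : Set V}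
    (hb : 0 < Nb * s) (h : Snap f s Nb n ρ c O B)
    (hc : 0 < ∑ i ∈ Finset.range (n + 1), c i) :
    ∃ x y, n * (Nb * s) ≤ x + y + 1 ∧ f x y ∈ O := by
  obtain ⟨i, hi, hci⟩ : ∃ i ∈ Finset.range (n + 1), 0 < c i := by
    by_contra hcon
    push Not at hcon
    exact absurd hc (not_lt.mpr (Finset.sum_nonpos hcon))
  rw [Finset.mem_range] at hi
  rcases Nat.lt_or_ge i ρ with h1 | h1
  · obtain ⟨x0, x1, N, g1, _, _, g4, ⟨χ, k1, _⟩, _, _⟩ := h.col i h1 hci
    have hlt : (n - i - 4) * (Nb * s) + Nb * s ≤ (n - i) * (Nb * s) := by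
      rw [← Nat.succ_mul]
      apply Nat.mul_le_mul_right
      omega
    obtain ⟨k2, _, k3⟩ := k1 ((n - i) * (Nb * s) - 1) (by omega) (by omega)
    refine ⟨_, _, ?_, k3⟩
    have e : n * (Nb * s) = i * (Nb * s) + (n - i) * (Nb * s) := by
      rw [← add_mul]; congr 1; omega
    omega
  · obtain ⟨x0, x1, N, g1, _, _, g4, ⟨χ, k1, _⟩, _, _⟩ := h.row i h1 (by omega) hci
    have hlt : (i - 4) * (Nb * s) + Nb * s ≤ i * (Nb * s) := by
      rw [← Nat.succ_mul]
      apply Nat.mul_le_mul_right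
      omega
    obtain ⟨k2, _, k3⟩ := k1 (i * (Nb * s) - 1) (by omega) (by omega)
    refine ⟨_, _, ?_, k3⟩
    have e : n * (Nb * s) = (n - i) * (Nb * s) + i * (Nb * s) := by
      rw [← add_mul]; congr 1; omega
    omega

/-- Interface of the whole analysis: milestones at times `τ k`, tokens `K k`, milestone
predicates `G k`. -/
theorem global {f : ℕ → ℕ → V} (hf : IsFrame Adj f) (q : ℝ) (hq0 : 0 < q) (hq1 : q < 1) :
    ∃ C : ℕ, ∀ A : ℕ, ∃ (τ K : ℕ → ℕ) (G : ℕ → Set V → Set V → Prop) (O0 : Finset V),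
      StrictMono τ ∧ A ≤ τ 0 ∧ (∀ k, K k ^ 3 ≤ C * τ k) ∧
      (∀ B : Set V, Disjoint B ↑O0 → G 0 ↑O0 B) ∧
      (∀ k (O B : Set V), G k O B → Disjoint B O → B.Finite → (B.ncard : ℝ) ≤ q * τ k →
        KForce Adj (K k) (τ (k + 1) - τ k) (G (k + 1)) O B) ∧
      (∀ k (O B : Set V), G k O B → Disjoint B O → B.Finite → (B.ncard : ℝ) ≤ q * τ k →
        ∃ x y, k ≤ x + y ∧ f x y ∈ O) := by
  classical
  obtain ⟨D', hD'⟩ := exists_nat_ge (16 / (1 - q))
  obtain ⟨D, hDdef⟩ : ∃ D, D = D' + 16 := ⟨_, rfl⟩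
  have hD16 : 16 ≤ D := by omega
  have hD0 : 0 < D := by omega
  have hDq : (D : ℝ) * q ≤ D - 16 := by
    have h1 : 0 < 1 - q := by linarith
    have h2 : 16 / (1 - q) ≤ (D : ℝ) := by
      rw [hDdef]; push_cast; linarith
    rw [div_le_iff₀ h1] at h2
    linarith
  refine ⟨(27 * (46 * D ^ 3)) ^ 3, fun A => ?_⟩
  obtain ⟨W, hW⟩ : ∃ W, W = 7 * D ^ 2 * (16 * (46 * D ^ 3) + 26) + 12 * (46 * D ^ 3) + 36 :=
    ⟨_, rfl⟩
  obtain ⟨a0, ha0⟩ : ∃ a0, a0 = A + W := ⟨_, rfl⟩
  obtain ⟨U, hUdef⟩ : ∃ U, U = 7 * D ^ 2 := ⟨_, rfl⟩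
  have hU : 0 < U := by rw [hUdef]; positivity
  have hXbig : ∀ k, W ≤ 2 ^ (a0 + k / U) := by
    intro k
    calc W ≤ a0 := by omega
      _ ≤ a0 + k / U := Nat.le_add_right _ _
      _ ≤ 2 ^ (a0 + k / U) := (Nat.lt_two_pow_self).le
  have hXpos : ∀ k, 0 < 2 ^ (a0 + k / U) := fun k => by positivity
  have hinv : ∀ k, (1 + k % U) * (2 ^ (a0 + k / U)) ^ 3 ≤ gTau D a0 k ∧
      D * gTau D a0 k ≤ (D + 1) * (gN D (2 ^ (a0 + k / U)) (k % U) *
        (2 ^ (a0 + k / U) * 2 ^ (a0 + k / U))) + 4 * D * (2 ^ (a0 + k / U)) ^ 3 := by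
    intro k
    rw [hUdef]
    exact gTau_inv hD0 a0 k
  -- bigness at milestone `k`
  have hbig : ∀ k (B : Set V), B.Finite → (B.ncard : ℝ) ≤ q * gTau D a0 k → ∀ Sg : ℤ,
      (D : ℤ) * (gN D (2 ^ (a0 + k / U)) (k % U) *
        (2 ^ (a0 + k / U) * 2 ^ (a0 + k / U)) : ℕ) ≤
      D * Sg + (D + 1) * (Theta f (2 ^ (a0 + k / U) * 2 ^ (a0 + k / U))
        (gN D (2 ^ (a0 + k / U)) (k % U)) B : ℤ) + D * (gL D (2 ^ (a0 + k / U)) (k % U) : ℤ) →
      4 * ((gN D (2 ^ (a0 + k / U)) (k % U) *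
        (2 ^ (a0 + k / U) * 2 ^ (a0 + k / U)) : ℕ) : ℤ) ≤ D * Sg := by
    intro k B hB hcard Sg h
    exact gState_big hf.inj hD16 hDq (hUdef ▸ (Nat.mod_lt k hU).le) (hXpos k)
      (hW ▸ hXbig k) (hinv k).2 hB hcard Sg h
  set n0 := gN D (2 ^ a0) 0 with hn0
  set O0 : Finset V := (((Finset.range ((n0 + 1) * (2 ^ a0 * 2 ^ a0))) ×ˢ
    (Finset.range ((n0 + 1) * (2 ^ a0 * 2 ^ a0)))).image (fun p => f p.1 p.2)) with hO0
  refine ⟨gTau D a0, fun k => 27 * (46 * D ^ 3) * 2 ^ (a0 + k / U),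
    fun k => GState f D (2 ^ (a0 + k / U)) (k % U), O0, gTau_strict D a0, ?_, ?_, ?_, ?_, ?_⟩
  · show A ≤ (2 ^ a0) ^ 3
    calc A ≤ a0 := by omega
      _ ≤ 2 ^ a0 := (Nat.lt_two_pow_self).le
      _ ≤ (2 ^ a0) ^ 3 := Nat.le_self_pow (by norm_num) _
  · intro k
    have h1 := (hinv k).1
    have h2 : (2 ^ (a0 + k / U)) ^ 3 ≤ gTau D a0 k := by
      refine le_trans ?_ h1
      apply Nat.le_mul_of_pos_left; omega
    rw [mul_pow]
    exact Nat.mul_le_mul_left _ h2
  · intro B hd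
    show GState f D (2 ^ (a0 + 0 / U)) (0 % U) ↑O0 B
    rw [Nat.zero_div, Nat.zero_mod, add_zero]
    refine GState.init hD0 ?_ ?_ hd
    · have := hXbig 0
      rw [Nat.zero_div, add_zero] at this
      omega
    · intro x y hxy
      rw [← hn0] at hxy
      rw [hO0, Finset.mem_coe, Finset.mem_image]
      exact ⟨(x, y), by rw [Finset.mem_product, Finset.mem_range, Finset.mem_range]; omega, rfl⟩
  · intro k O B hG hd hB hcard
    have hmodlt := Nat.mod_lt k hU
    have hround := GState.round hf hD0 (hXpos k) (hUdef ▸ hmodlt)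
      (fun ρ c _ hc => hbig k B hB hcard _ hc) hG hd
    set X := 2 ^ (a0 + k / U) with hX
    set u := k % U with hu
    have hX1 : 0 < X := hXpos k
    -- tokens
    have hCX : 0 < 46 * D ^ 3 * X := by positivity
    have htok1 : 3 * (gN D X u + 46 * D * X + 1) ≤ 27 * (46 * D ^ 3) * X := by
      have h1 : gN D X u + 46 * D * X ≤ 8 * (46 * D ^ 3 * X) := by
        rw [← gN_succ]
        calc gN D X (u + 1) ≤ gN D X U := by
              unfold gN
              apply Nat.mul_le_mul_right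
              apply Nat.add_le_add_left
              apply Nat.mul_le_mul_right
              omega
          _ = 8 * (46 * D ^ 3 * X) := by rw [hUdef, gN_last]; unfold gN; ring
      have e : 27 * (46 * D ^ 3) * X = 27 * (46 * D ^ 3 * X) := by ring
      omega
    have htok2 : 4 * gN D (2 * X) 0 + 1 ≤ 27 * (46 * D ^ 3) * X := by
      have e1 : 4 * gN D (2 * X) 0 = 8 * (46 * D ^ 3 * X) := by unfold gN; ring
      have e : 27 * (46 * D ^ 3) * X = 27 * (46 * D ^ 3 * X) := by ring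
      omega
    rcases Nat.lt_or_ge (u + 1) U with h | h
    · obtain ⟨e1, e2⟩ := div_mod_step hU h
      have hne : ¬ (k % (7 * D ^ 2) + 1 = 7 * D ^ 2) := by
        rw [← hUdef, ← hu]; omega
      have eT : gTau D a0 (k + 1) - gTau D a0 k = TRound X X (46 * D * X) := by
        simp only [gTau, hne, if_false, add_zero]
        rw [Nat.add_sub_cancel_left, ← hUdef]
      rw [eT]
      show KForce Adj _ _ (GState f D (2 ^ (a0 + (k + 1) / U)) ((k + 1) % U)) O B
      rw [e1, e2, ← hX, ← hu]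
      exact KForce.imp (hround.mono_K htok1) (fun O' B' h' => h'.2.toGState)
    · have h' : u + 1 = U := by omega
      obtain ⟨e1, e2⟩ := div_mod_last hU h'
      have heq : k % (7 * D ^ 2) + 1 = 7 * D ^ 2 := by rw [← hUdef]; exact h'
      have eT : gTau D a0 (k + 1) - gTau D a0 k =
          TRound X X (46 * D * X) + (3 * (X * X) + wOld X X) := by
        simp only [gTau, heq, if_true]
        rw [Nat.add_sub_cancel_left, ← hUdef]
      rw [eT]
      show KForce Adj _ _ (GState f D (2 ^ (a0 + (k + 1) / U)) ((k + 1) % U)) O B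
      have eX : 2 ^ (a0 + (k / U + 1)) = 2 * X := by
        rw [← add_assoc, pow_succ, hX]; ring
      rw [e1, e2, eX]
      refine KForce.trans (hround.mono_K htok1) ?_
      rintro O' B' ⟨hd', hF⟩
      rw [h', hUdef] at hF
      exact (GStateF.rescale hf hD0 hX1 (hW ▸ hXbig k) hF hd').mono_K htok2
  · intro k O B hG hd hB hcard
    obtain ⟨ρ, c, hs, hineq⟩ := hG
    have h4 := hbig k B hB hcard _ hineq
    have hX1 := hXpos k
    set X := 2 ^ (a0 + k / U) with hX
    have hnpos : 0 < gN D X (k % U) * (X * X) := by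
      have := gN_pos (u := k % U) hD0 hX1
      positivity
    have hsum : 0 < ∑ i ∈ Finset.range (gN D X (k % U) + 1), c i := by
      by_contra hcon
      push Not at hcon
      have h5 : (D : ℤ) * ∑ i ∈ Finset.range (gN D X (k % U) + 1), c i ≤ 0 :=
        mul_nonpos_of_nonneg_of_nonpos (by positivity) hcon
      have h6 : (0 : ℤ) < ((gN D X (k % U) * (X * X) : ℕ) : ℤ) := by exact_mod_cast hnpos
      linarith
    obtain ⟨x, y, hxy, hO⟩ := hs.cell (by positivity) hsum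
    refine ⟨x, y, ?_, hO⟩
    have h7 : k + 1 ≤ gN D X (k % U) * (X * X) := by
      have e3 : k = U * (k / U) + k % U := (Nat.div_add_mod k U).symm
      have h8 : U * (k / U) + U ≤ 46 * D ^ 3 * X := by
        have h9 : k / U + 1 ≤ X := by
          calc k / U + 1 ≤ a0 + k / U + 1 := Nat.add_le_add_right (Nat.le_add_left _ _) 1
            _ ≤ 2 ^ (a0 + k / U) := Nat.lt_two_pow_self
        have h10 : U ≤ 46 * D ^ 3 := by
          have : D ^ 3 = D * D ^ 2 := by ring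
          rw [hUdef, this]
          nlinarith [Nat.zero_le (D ^ 2)]
        calc U * (k / U) + U = U * (k / U + 1) := by ring
          _ ≤ 46 * D ^ 3 * X := Nat.mul_le_mul h10 h9
      have h11 := Nat.mod_lt k hU
      have h12 : gN D X (k % U) ≤ gN D X (k % U) * (X * X) := by
        apply Nat.le_mul_of_pos_right; positivity
      have h13 : 46 * D ^ 3 * X ≤ gN D X (k % U) := by
        unfold gN
        apply Nat.mul_le_mul_right
        omega
      omega
    omega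
end Contain
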