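import Pool.Agent.Lib.MP_579b69_co.Basic

namespace Contain

variable {V : Type*} {Adj : V → V → Prop}

theorem Cov.snoc {f : ℕ → ℕ → V} {O : Set V} {a c y0 y1 : ℕ} (h : Cov f O a (c + 1) y0 y1)
    (hac : a ≤ c) (hc : f c y1 ∈ O) : Cov f O a (c + 1) y0 (y1 + 1) := by
  obtain ⟨χ, h1, h2⟩ := h
  refine ⟨fun y => if y < y1 then χ y else c, ?_, ?_⟩
  · intro y hy0 hy1
    by_cases hy : y < y1
    · simp only [hy, if_true]
      exact h1 y hy0 hy
    · simp only [hy, if_false]
      have : y = y1 := by omega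
      rw [this]
      exact ⟨hac, by omega, hc⟩
  · intro y y' hy0 hyy hy1
    by_cases hy : y < y1
    · by_cases hy' : y' < y1
      · simp only [hy, hy', if_true]
        exact h2 y y' hy0 hyy hy'
      · simp only [hy, hy', if_true, if_false]
        have := (h1 y hy0 hy).2.1
        omega
    · have hy' : ¬ y' < y1 := by omega
      simp only [hy, hy', if_false]
      exact le_rfl

theorem cnt_pos (f : ℕ → ℕ → V) {B : Set V} {x0 x1 y0 y1 x y : ℕ} (hx0 : x0 ≤ x) (hx1 : x < x1)
    (hy0 : y0 ≤ y) (hy1 : y < y1) (h : f x y ∈ B) : 0 < cnt f B x0 x1 y0 y1 := by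
  classical
  unfold cnt
  apply Finset.card_pos.mpr
  refine ⟨(x, y), ?_⟩
  rw [Finset.mem_filter, Finset.mem_product, Finset.mem_Ico, Finset.mem_Ico]
  exact ⟨⟨⟨hx0, hx1⟩, hy0, hy1⟩, h⟩

/-- leftmost free lane -/
theorem exists_leftmost_free (f : ℕ → ℕ → V) (B : Set V) {a s y0 y1 : ℕ}
    (h : cnt f B a (a + s) y0 y1 < s) :
    ∃ x, a ≤ x ∧ x < a + s ∧ (∀ y, y0 ≤ y → y < y1 → f x y ∉ B) ∧
      ∀ x', a ≤ x' → x' < x → ∃ y, y0 ≤ y ∧ y < y1 ∧ f x' y ∈ B := by
  classical
  have hex := exists_free_lane f B h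
  refine ⟨Nat.find hex, (Nat.find_spec hex).1, (Nat.find_spec hex).2.1,
    (Nat.find_spec hex).2.2, ?_⟩
  intro x' hx' hlt
  have hmin := Nat.find_min hex hlt
  by_contra hcon
  push Not at hcon
  exact hmin ⟨hx', by have := (Nat.find_spec hex).2.1; omega, hcon⟩

structure L0State (f : ℕ → ℕ → V) (a s p P h D E : ℕ) (O₀ B₀ : Set V) (T : ℕ) (O B : Set V)
    (xf xh yh H : ℕ) : Prop where
  hO : O₀ ⊆ O
  hB : B₀ ⊆ B
  hd : Disjoint B O
  hcnt : cnt f B a (a + s) p h < s
  hxf1 : a ≤ xf
  hxf2 : xf < a + s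
  hfree : ∀ y, p ≤ y → y < h → f xf y ∉ B
  hleft : ∀ x, a ≤ x → x < xf → ∃ y, p ≤ y ∧ y < h ∧ f x y ∈ B
  hhead : f xh yh ∈ O
  hxh1 : a ≤ xh
  hxh2 : xh ≤ xf
  hyp : p ≤ yh
  hyH : yh < H
  hrow : ∀ x, xh < x → x ≤ xf → f x yh ∉ B
  hcov1 : Cov f O a (xh + 1) (P + 1) (yh + 1)
  hcov2 : Cov f O a (xf + 1) (P + 1) H
  hPH : P < H
  hHh : H ≤ h
  hT : (xf - xh) + (h - 1 - yh) + D * (s - cnt f B a (a + s) p h) + E ≤ T

theorem L0State.move {f : ℕ → ℕ → V} (hf : IsFrame Adj f) {a s p P h D E : ℕ} {O₀ B₀ : Set V}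
    {T : ℕ} {O B : Set V} {xf xh yh H : ℕ}
    (S : L0State f a s p P h D E O₀ B₀ (T + 1) O B xf xh yh H) (hH : H < h) :
    ∃ O' xh' yh' H', Step Adj O B O' ∧ L0State f a s p P h D E O₀ B₀ T O' B xf xh' yh' H' := by
  obtain ⟨hO, hB, hd, hcnt, hxf1, hxf2, hfree, hleft, hhead, hxh1, hxh2, hyp, hyH, hrow, hcov1,
    hcov2, hPH, hHh, hT⟩ := S
  by_cases hx : xh < xf
  · -- move right
    have hv : f (xh + 1) yh ∉ B := hrow (xh + 1) (by omega) (by omega)
    have hst : Step Adj O B (insert (f (xh + 1) yh) O) :=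
      Or.inr ⟨_, hv, ⟨_, hhead, hf.right xh yh⟩, rfl⟩
    have hsub : O ⊆ insert (f (xh + 1) yh) O := hst.subset
    refine ⟨_, xh + 1, yh, H, hst, ?_⟩
    exact
      { hO := hO.trans hsub
        hB := hB
        hd := hst.disjoint hd
        hcnt := hcnt
        hxf1 := hxf1
        hxf2 := hxf2
        hfree := hfree
        hleft := hleft
        hhead := Set.mem_insert _ _
        hxh1 := by omega
        hxh2 := hx
        hyp := hyp
        hyH := hyH
        hrow := fun x h1 h2 => hrow x (by omega) h2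
        hcov1 := (hcov1.mono hsub).weaken le_rfl (by omega) le_rfl le_rfl
        hcov2 := hcov2.mono hsub
        hPH := hPH
        hHh := hHh
        hT := by omega }
  · have hxe : xh = xf := by omega
    subst hxe
    have hv : f xh (yh + 1) ∉ B := hfree (yh + 1) (by omega) (by omega)
    have hst : Step Adj O B (insert (f xh (yh + 1)) O) :=
      Or.inr ⟨_, hv, ⟨_, hhead, hf.up xh yh⟩, rfl⟩
    have hsub : O ⊆ insert (f xh (yh + 1)) O := hst.subset
    have hc1 : Cov f (insert (f xh (yh + 1)) O) a (xh + 1) (P + 1) (yh + 1 + 1) :=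
      (hcov1.mono hsub).snoc hxh1 (Set.mem_insert _ _)
    by_cases hyH' : yh + 1 < H
    · refine ⟨_, xh, yh + 1, H, hst, ?_⟩
      exact
        { hO := hO.trans hsub
          hB := hB
          hd := hst.disjoint hd
          hcnt := hcnt
          hxf1 := hxf1
          hxf2 := hxf2
          hfree := hfree
          hleft := hleft
          hhead := Set.mem_insert _ _
          hxh1 := hxh1
          hxh2 := le_rfl
          hyp := by omega
          hyH := hyH'
          hrow := fun x h1 h2 => by omega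
          hcov1 := hc1
          hcov2 := hcov2.mono hsub
          hPH := hPH
          hHh := hHh
          hT := by omega }
    · have hHe : H = yh + 1 := by omega
      subst hHe
      refine ⟨_, xh, yh + 1, yh + 1 + 1, hst, ?_⟩
      exact
        { hO := hO.trans hsub
          hB := hB
          hd := hst.disjoint hd
          hcnt := hcnt
          hxf1 := hxf1
          hxf2 := hxf2
          hfree := hfree
          hleft := hleft
          hhead := Set.mem_insert _ _
          hxh1 := hxh1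
          hxh2 := le_rfl
          hyp := by omega
          hyH := by omega
          hrow := fun x h1 h2 => by omega
          hcov1 := hc1
          hcov2 := hc1
          hPH := by omega
          hHh := by omega
          hT := by omega }

theorem L0State.replan {f : ℕ → ℕ → V} {a s p P h D E : ℕ} {O₀ B₀ : Set V}
    (hD : 2 * s + (P - p) ≤ D) (hpP : p ≤ P)
    (hstart : ∀ x, a ≤ x → x < a + s → ∃ ρ, p ≤ ρ ∧ ρ ≤ P ∧ f x ρ ∈ O₀)
    {T : ℕ} {O B B' : Set V} {xf xh yh H : ℕ}
    (S : L0State f a s p P h D E O₀ B₀ T O B xf xh yh H) (hBB : B ⊆ B') (hd' : Disjoint B' O)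
    (hcnt' : cnt f B' a (a + s) p h < s) :
    ∃ xf' xh' yh', L0State f a s p P h D E O₀ B₀ T O B' xf' xh' yh' H := by
  obtain ⟨hO, hB, hd, hcnt, hxf1, hxf2, hfree, hleft, hhead, hxh1, hxh2, hyp, hyH, hrow, hcov1,
    hcov2, hPH, hHh, hT⟩ := S
  have hle : cnt f B a (a + s) p h ≤ cnt f B' a (a + s) p h := cnt_mono_set f hBB _ _ _ _
  have hmulle : D * (s - cnt f B' a (a + s) p h) ≤ D * (s - cnt f B a (a + s) p h) :=
    Nat.mul_le_mul_left _ (by omega)
  by_cases hok : (∀ y, p ≤ y → y < h → f xf y ∉ B') ∧ (∀ x, xh < x → x ≤ xf → f x yh ∉ B')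
  · refine ⟨xf, xh, yh, ?_⟩
    exact
      { hO := hO
        hB := hB.trans hBB
        hd := hd'
        hcnt := hcnt'
        hxf1 := hxf1
        hxf2 := hxf2
        hfree := hok.1
        hleft := fun x h1 h2 => by
          obtain ⟨y, h3, h4, h5⟩ := hleft x h1 h2
          exact ⟨y, h3, h4, hBB h5⟩
        hhead := hhead
        hxh1 := hxh1
        hxh2 := hxh2
        hyp := hyp
        hyH := hyH
        hrow := hok.2
        hcov1 := hcov1
        hcov2 := hcov2
        hPH := hPH
        hHh := hHh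
        hT := by omega }
  · -- a new block in the region
    have hnew : cnt f B a (a + s) p h + 1 ≤ cnt f B' a (a + s) p h := by
      rw [cnt_diff f hBB]
      have : 0 < cnt f (B' \ B) a (a + s) p h := by
        rw [not_and_or] at hok
        rcases hok with hok | hok
        · push Not at hok
          obtain ⟨y, h1, h2, h3⟩ := hok
          exact cnt_pos f hxf1 hxf2 h1 h2 ⟨h3, hfree y h1 h2⟩
        · push Not at hok
          obtain ⟨x, h1, h2, h3⟩ := hok
          exact cnt_pos f (by omega) (by omega) hyp (by omega) ⟨h3, hrow x h1 h2⟩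
      omega
    have hmul : D * (s - cnt f B' a (a + s) p h) + D ≤ D * (s - cnt f B a (a + s) p h) := by
      have e : D * (s - cnt f B' a (a + s) p h) + D = D * (s - cnt f B' a (a + s) p h + 1) := by
        ring
      rw [e]
      exact Nat.mul_le_mul_left _ (by omega)
    obtain ⟨xf', hx1, hx2, hx3, hx4⟩ := exists_leftmost_free f B' hcnt'
    have hxx : xf ≤ xf' := by
      by_contra hlt
      obtain ⟨y, h3, h4, h5⟩ := hleft xf' hx1 (by omega)
      exact hx3 y h3 h4 (hBB h5)
    by_cases hH : P + 1 + s ≤ H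
    · -- restart from a free row among the last `s` covered rows
      have hrow' : cnt (flip f) B' (H - s) (H - s + s) a (a + s) < s := by
        rw [cnt_flip]
        exact (cnt_mono_rect f B' le_rfl le_rfl (by omega) (by omega)).trans_lt hcnt'
      obtain ⟨r, hr1, hr2, hr3⟩ := exists_free_lane (flip f) B' hrow'
      obtain ⟨χ, hχ1, hχ2⟩ := id hcov2
      have hr := hχ1 r (by omega) (by omega)
      refine ⟨xf', χ r, r, ?_⟩
      exact
        { hO := hO
          hB := hB.trans hBB
          hd := hd'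
          hcnt := hcnt'
          hxf1 := hx1
          hxf2 := hx2
          hfree := hx3
          hleft := hx4
          hhead := hr.2.2
          hxh1 := hr.1
          hxh2 := by omega
          hyp := by omega
          hyH := by omega
          hrow := fun x h1 h2 => hr3 x (by omega) (by omega)
          hcov1 := ⟨χ, fun y h1 h2 => ⟨(hχ1 y h1 (by omega)).1, by
              have := hχ2 y r h1 (by omega) (by omega)
              omega, (hχ1 y h1 (by omega)).2.2⟩,
            fun y y' h1 h2 h3 => hχ2 y y' h1 h2 (by omega)⟩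
          hcov2 := hcov2.weaken le_rfl (by omega) le_rfl le_rfl
          hPH := hPH
          hHh := hHh
          hT := by omega }
    · obtain ⟨ρ, h1, h2, h3⟩ := hstart xf' hx1 hx2
      refine ⟨xf', xf', ρ, ?_⟩
      exact
        { hO := hO
          hB := hB.trans hBB
          hd := hd'
          hcnt := hcnt'
          hxf1 := hx1
          hxf2 := hx2
          hfree := hx3
          hleft := hx4
          hhead := hO h3
          hxh1 := hx1
          hxh2 := le_rfl
          hyp := h1
          hyH := by omega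
          hrow := fun x h4 h5 => by omega
          hcov1 := Cov.empty (by omega)
          hcov2 := hcov2.weaken le_rfl (by omega) le_rfl le_rfl
          hPH := hPH
          hHh := hHh
          hT := by omega }

/-- Level 0: climb inside `s` lanes `[a,a+s)` from starts in positions `[p,P]` up to position
`h-1`; costs about one turn per position, plus `D` turns per new block in the region. -/
theorem level0 {f : ℕ → ℕ → V} (hf : IsFrame Adj f) {a s p P h D E T0 : ℕ}
    (hpP : p ≤ P) (hPh : P < h) (hD : 2 * s + (P - p) ≤ D)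
    (I : ℕ → Set V → Set V → Prop) {O₀ B₀ : Set V}
    (hInv : ∀ T ≤ T0, ∀ O' B' H, O₀ ⊆ O' → B₀ ⊆ B' → Cov f O' a (a + s) (P + 1) H →
      P < H → H ≤ h → (h - H) + E ≤ T → I T O' B')
    (hSucc : ∀ T ≤ T0, ∀ O' B', O₀ ⊆ O' → B₀ ⊆ B' → Disjoint B' O' →
      Cov f O' a (a + s) (P + 1) h → E ≤ T → Safe Adj I T O' B')
    (hFail : ∀ T < T0, ∀ O' B' H, O₀ ⊆ O' → B₀ ⊆ B' → Disjoint B' O' →
      Cov f O' a (a + s) (P + 1) H → P < H → H ≤ h → (h - H) + E ≤ T →
      s ≤ cnt f B' a (a + s) p h → Safe Adj I T O' B')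
    (hd : Disjoint B₀ O₀) (hcnt : cnt f B₀ a (a + s) p h < s)
    (hstart : ∀ x, a ≤ x → x < a + s → ∃ ρ, p ≤ ρ ∧ ρ ≤ P ∧ f x ρ ∈ O₀)
    (hT : (h - 1 - p) + D * (s - cnt f B₀ a (a + s) p h) + E ≤ T0) :
    Safe Adj I T0 O₀ B₀ := by
  -- core induction
  have core : ∀ T ≤ T0, ∀ O B xf xh yh H, L0State f a s p P h D E O₀ B₀ T O B xf xh yh H →
      Safe Adj I T O B := by
    intro T
    induction T with
    | zero =>
      intro _ O B xf xh yh H S
      exfalso
      have h1 := S.hT
      have h2 := S.hcnt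
      have h3 : D * 1 ≤ D * (s - cnt f B a (a + s) p h) := Nat.mul_le_mul_left _ (by omega)
      omega
    | succ T ih =>
      intro hTT O B xf xh yh H S
      have hgap : 2 * s ≤ D * (s - cnt f B a (a + s) p h) := by
        have h2 := S.hcnt
        have h3 : D * 1 ≤ D * (s - cnt f B a (a + s) p h) := Nat.mul_le_mul_left _ (by omega)
        omega
      have hc2 := S.hcov2.weaken (le_refl a) (show xf + 1 ≤ a + s by have := S.hxf2; omega)
        le_rfl le_rfl
      have hyH := S.hyH
      have hHh := S.hHh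
      have hTS := S.hT
      by_cases hHe : H = h
      · subst hHe
        exact hSucc (T + 1) hTT O B S.hO S.hB S.hd hc2 (by omega)
      · refine ⟨hInv (T + 1) hTT O B H S.hO S.hB hc2 S.hPH S.hHh (by omega), ?_⟩
        intro B' hBB hd'
        by_cases hc' : s ≤ cnt f B' a (a + s) p h
        · refine ⟨O, Or.inl rfl, ?_⟩
          exact hFail T (by omega) O B' H S.hO (S.hB.trans hBB) hd' hc2 S.hPH S.hHh
            (by have := S.hcnt; omega) hc'
        · obtain ⟨xf', xh', yh', S'⟩ := S.replan hD hpP hstart hBB hd' (by omega)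
          obtain ⟨O', xh'', yh'', H'', hst, S''⟩ := S'.move hf (by omega)
          exact ⟨O', hst, ih (by omega) O' B' xf' xh'' yh'' H'' S''⟩
  obtain ⟨xf, hx1, hx2, hx3, hx4⟩ := exists_leftmost_free f B₀ hcnt
  obtain ⟨ρ, h1, h2, h3⟩ := hstart xf hx1 hx2
  refine core T0 le_rfl O₀ B₀ xf xf ρ (P + 1) ?_
  exact
    { hO := le_refl _
      hB := le_refl _
      hd := hd
      hcnt := hcnt
      hxf1 := hx1
      hxf2 := hx2
      hfree := hx3
      hleft := hx4
      hhead := h3
      hxh1 := hx1
      hxh2 := le_rfl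
      hyp := h1
      hyH := by omega
      hrow := fun x h4 h5 => by omega
      hcov1 := Cov.empty (by omega)
      hcov2 := Cov.empty le_rfl
      hPH := by omega
      hHh := by omega
      hT := by omega }

end Contain
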