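import Pool.Agent.Lib.MP_579b69_co.Level0

namespace Contain

variable {V : Type*} {Adj : V → V → Prop}

/-- the run in the strip `[x0, x1 + N s)` is dead: too many blocks between heights `z` and `h'` -/
def L1Dead (f : ℕ → ℕ → V) (s N x0 x1 z h' : ℕ) (B : Set V) : Prop :=
  x1 + N * s - x0 ≤ cnt f B x0 (x1 + N * s) z h' ∨
    ∀ k < N, s ≤ cnt f B (x1 + k * s) (x1 + (k + 1) * s) z h'

/-- invariant of the level 1 run: dead, or covered up to a height `y` with `h' ≤ y + T`, where
the groups `0, …, k-2` (all groups before the current one) are bad -/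
def L1Inv (f : ℕ → ℕ → V) (s N x0 x1 z h' : ℕ) (T : ℕ) (O B : Set V) : Prop :=
  L1Dead f s N x0 x1 z h' B ∨
    ∃ k y, k ≤ N ∧ y ≤ h' ∧ h' ≤ y + T ∧ Cov f O x0 (x1 + k * s) z y ∧
      ∀ k', k' + 1 < k → s ≤ cnt f B (x1 + k' * s) (x1 + (k' + 1) * s) z h'

theorem L1Dead.mono {f : ℕ → ℕ → V} {s N x0 x1 z h' : ℕ} {B B' : Set V} (h : B ⊆ B')
    (hL : L1Dead f s N x0 x1 z h' B) : L1Dead f s N x0 x1 z h' B' := by
  rcases hL with hL | hL
  · left; exact hL.trans (cnt_mono_set f h _ _ _ _)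
  · right; intro k hk; exact (hL k hk).trans (cnt_mono_set f h _ _ _ _)

theorem L1Inv_mono (f : ℕ → ℕ → V) (s N x0 x1 z h' : ℕ) : IMono (L1Inv f s N x0 x1 z h') := by
  intro T O O' B B' hO hB h
  rcases h with h | ⟨k, y, h1, h2, h3, h4, h5⟩
  · left; exact h.mono hB
  · right
    exact ⟨k, y, h1, h2, h3, h4.mono hO, fun k' hk' => (h5 k' hk').trans (cnt_mono_set f hB _ _ _ _)⟩

private theorem l1_pigeon {M s : ℕ} (g : ℕ → ℕ) (h : ∑ u ∈ Finset.range M, g u < M * s) :
    ∃ u < M, g u < s := by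
  by_contra hcon
  push Not at hcon
  have h1 : ∑ u ∈ Finset.range M, s ≤ ∑ u ∈ Finset.range M, g u :=
    Finset.sum_le_sum fun u hu => hcon u (Finset.mem_range.mp hu)
  rw [Finset.sum_const, Finset.card_range, smul_eq_mul] at h1
  omega

private theorem l1_tele (χ : ℕ → ℕ) (A s : ℕ) (hs : 0 < s) : ∀ M : ℕ, 1 ≤ M →
    (∀ y y', A ≤ y → y ≤ y' → y' < A + M * s → χ y ≤ χ y') →
    ∑ u ∈ Finset.range M, (χ (A + (u + 1) * s - 1) - χ (A + u * s)) + χ A ≤
      χ (A + M * s - 1) := by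
  intro M hM
  induction M, hM using Nat.le_induction with
  | base =>
    intro hmono
    have h1 := hmono A (A + 1 * s - 1) le_rfl (by omega) (by omega)
    simp only [Finset.range_one, Finset.sum_singleton, Nat.zero_add, Nat.zero_mul, Nat.add_zero]
    omega
  | succ M hM ih =>
    intro hmono
    have e1 : (M + 1) * s = M * s + s := by ring
    have e2 : s ≤ M * s := Nat.le_mul_of_pos_left s hM
    have h1 := ih (fun y y' h1 h2 h3 => hmono y y' h1 h2 (by omega))
    rw [Finset.sum_range_succ]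
    have h2 := hmono (A + M * s - 1) (A + M * s) (by omega) (by omega) (by omega)
    have h3 := hmono (A + M * s) (A + (M + 1) * s - 1) (by omega) (by omega) (by omega)
    omega

/-- a group of `s` rows with few blocks and small spread -/
private theorem l1_rows {f : ℕ → ℕ → V} {B : Set V} {s Nb x0 xR A y z h' : ℕ} (χ : ℕ → ℕ)
    (hs : 0 < s) (hNb : 0 < Nb) (hA : A + 4 * (Nb * s) = y) (hz : z ≤ A) (hy : y ≤ h')
    (hβ : cnt f B x0 xR z h' < xR - x0) (hW : xR ≤ x0 + Nb * s)
    (hχ : ∀ r, A ≤ r → r < y → x0 ≤ χ r ∧ χ r < xR)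
    (hm : ∀ r r', A ≤ r → r ≤ r' → r' < y → χ r ≤ χ r') :
    ∃ a, A ≤ a ∧ a + s ≤ y ∧ 2 * cnt f B x0 xR a (a + s) < s ∧
      χ (a + s - 1) - χ a < s := by
  have hM : 1 ≤ 4 * Nb := by omega
  have hbpos : 0 < Nb * s := Nat.mul_pos hNb hs
  have e0 : 4 * Nb * s = 4 * (Nb * s) := by ring
  have h1 := l1_tele χ A s hs (4 * Nb) hM (fun r r' h1 h2 h3 => hm r r' h1 h2 (by omega))
  have h2 : ∑ u ∈ Finset.range (4 * Nb), cnt f B x0 xR (A + u * s) (A + (u + 1) * s) =
      cnt f B x0 xR A y := by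
    have := cnt_sum_groups (flip f) B A s (4 * Nb) x0 xR
    rw [e0, hA, cnt_flip] at this
    rw [this]
    exact Finset.sum_congr rfl fun u _ => (cnt_flip f B _ _ _ _).symm
  have h3 : cnt f B x0 xR A y ≤ cnt f B x0 xR z h' := cnt_mono_rect f B le_rfl le_rfl hz hy
  have h4 := hχ (A + 4 * Nb * s - 1) (by omega) (by omega)
  have h5 := hχ A le_rfl (by omega)
  obtain ⟨u, hu, hu2⟩ := l1_pigeon (M := 4 * Nb) (s := s)
    (fun u => 2 * cnt f B x0 xR (A + u * s) (A + (u + 1) * s) +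
      (χ (A + (u + 1) * s - 1) - χ (A + u * s))) (by
      rw [Finset.sum_add_distrib, ← Finset.mul_sum, h2]
      omega)
  have e1 : (u + 1) * s = u * s + s := by ring
  have e2 : (u + 1) * s ≤ 4 * Nb * s := Nat.mul_le_mul_right s hu
  refine ⟨A + u * s, by omega, by omega, ?_, ?_⟩
  · have e3 : A + u * s + s = A + (u + 1) * s := by omega
    rw [e3]
    omega
  · have e3 : A + u * s + s - 1 = A + (u + 1) * s - 1 := by omega
    rw [e3]
    omega

private theorem l1_dead_safe {f : ℕ → ℕ → V} {s N x0 x1 z h' T : ℕ} {O B : Set V}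
    (h : L1Dead f s N x0 x1 z h' B) : Safe Adj (L1Inv f s N x0 x1 z h') T O B :=
  Safe.idle fun _ _ _ hB => Or.inl (h.mono hB)

private theorem l1_done_safe {f : ℕ → ℕ → V} {s N x0 x1 z h' T k : ℕ} {O B : Set V}
    (hk : k ≤ N) (hc : Cov f O x0 (x1 + k * s) z h')
    (hb : ∀ k', k' + 1 < k → s ≤ cnt f B (x1 + k' * s) (x1 + (k' + 1) * s) z h') :
    Safe Adj (L1Inv f s N x0 x1 z h') T O B :=
  Safe.idle fun _ _ _ hB => Or.inr ⟨k, h', hk, le_rfl, by omega, hc,
    fun k' hk' => (hb k' hk').trans (cnt_mono_set f hB _ _ _ _)⟩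

private theorem l1_claim {f : ℕ → ℕ → V} (hf : IsFrame Adj f) {s Nb N x0 x1 z h' : ℕ}
    (hs : 0 < s) (hR : x1 + N * s ≤ x0 + Nb * s) :
    ∀ n T k y : ℕ, T + (N - k) = n → ∀ O B : Set V, k ≤ N → Cov f O x0 (x1 + k * s) z y →
      z + 4 * (Nb * s) ≤ y → y ≤ h' → Disjoint B O →
      (∀ k' < k, s ≤ cnt f B (x1 + k' * s) (x1 + (k' + 1) * s) z h') →
      (h' - y) + (N - k) * (5 * (Nb * s) + 6 * s ^ 2) +
        (x1 + N * s - x0 - cnt f B x0 (x1 + N * s) z h') * (2 * Nb + 6 * s) ≤ T →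
      Safe Adj (L1Inv f s N x0 x1 z h') T O B := by
  intro n
  induction n using Nat.strong_induction_on with
  | _ n ih =>
  intro T k y hn O B hk hcov hy hyh hd hbad hT
  by_cases hdead : L1Dead f s N x0 x1 z h' B
  · exact l1_dead_safe hdead
  rcases Nat.eq_or_lt_of_le hyh with heq | hlt
  · subst heq
    exact l1_done_safe hk hcov fun k' hk' => hbad k' (by omega)
  -- the least good group
  have hdead' := hdead
  unfold L1Dead at hdead'
  push Not at hdead'
  obtain ⟨hβ, hgood⟩ := hdead'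
  classical
  obtain ⟨k1, ⟨hk1N, hk1⟩, hmin⟩ : ∃ k1, (k1 < N ∧
      cnt f B (x1 + k1 * s) (x1 + (k1 + 1) * s) z h' < s) ∧ ∀ k' < k1,
      s ≤ cnt f B (x1 + k' * s) (x1 + (k' + 1) * s) z h' := by
    refine ⟨Nat.find hgood, Nat.find_spec hgood, ?_⟩
    intro k' hk'
    have h1 := Nat.find_min hgood hk'
    have h2 := (Nat.find_spec hgood).1
    by_contra hcon
    exact h1 ⟨by omega, by omega⟩
  have hkk1 : k ≤ k1 := by
    by_contra hcon
    have := hbad k1 (by omega)
    omega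
  have hNbpos : 0 < Nb := by
    rcases Nat.eq_zero_or_pos Nb with h | h
    · subst h
      omega
    · exact h
  obtain ⟨b, hb⟩ : ∃ b, b = Nb * s := ⟨_, rfl⟩
  obtain ⟨xR, hxR⟩ : ∃ xR, xR = x1 + N * s := ⟨_, rfl⟩
  obtain ⟨K1, hK1⟩ : ∃ K1, K1 = 5 * (Nb * s) + 6 * s ^ 2 := ⟨_, rfl⟩
  obtain ⟨C1, hC1⟩ : ∃ C1, C1 = 2 * Nb + 6 * s := ⟨_, rfl⟩
  obtain ⟨β, hβdef⟩ : ∃ β, β = cnt f B x0 xR z h' := ⟨_, rfl⟩
  have hk1s : (k1 + 1) * s = k1 * s + s := by ring
  have hk1N' : (k1 + 1) * s ≤ N * s := Nat.mul_le_mul_right s hk1N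
  have hks : k * s ≤ k1 * s := Nat.mul_le_mul_right s hkk1
  obtain ⟨χ, hχ1, hχ2⟩ := hcov
  obtain ⟨aR, haR1, haR2, haR3, haR4⟩ := l1_rows (f := f) (B := B) (s := s) (Nb := Nb) (x0 := x0)
    (xR := xR) (A := y - 4 * (Nb * s)) (y := y) (z := z) (h' := h') χ hs hNbpos (by omega)
    (by omega) hyh (by rw [hxR]; exact hβ) (by omega)
    (fun r h1 h2 => by
      have := hχ1 r (by omega) h2
      omega)
    (fun r r' h1 h2 h3 => hχ2 r r' (by omega) h2 h3)
  have hcov : Cov f O x0 (x1 + k * s) z y := ⟨χ, hχ1, hχ2⟩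
  -- travel
  have hχa := hχ1 aR (by omega) (by omega)
  have hχb := hχ1 (aR + s - 1) (by omega) (by omega)
  have hχab := hχ2 aR (aR + s - 1) (by omega) (by omega) (by omega)
  obtain ⟨ET, hET⟩ : ∃ ET, ET = (h' - y) + 4 * b + 3 * s ^ 2 + (N - k1 - 1) * K1 +
    (xR - x0 - β) * C1 := ⟨_, rfl⟩
  have hNk1 : (N - k1) * K1 = (N - k1 - 1) * K1 + K1 := by
    have : N - k1 = (N - k1 - 1) + 1 := by omega
    rw [this]
    simp only [Nat.add_sub_cancel]
    ring
  have hNk : (N - k1) * K1 ≤ (N - k) * K1 := Nat.mul_le_mul_right K1 (by omega)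
  have hbudget : b + 3 * s ^ 2 + ET ≤ T := by
    rw [← hxR, ← hβdef, ← hK1, ← hC1] at hT
    rw [← hb] at hK1
    omega
  have hs2 : ∀ c, 3 * s * (s - c) ≤ 3 * s ^ 2 := by
    intro c
    calc 3 * s * (s - c) ≤ 3 * s * s := Nat.mul_le_mul_left _ (Nat.sub_le _ _)
      _ = 3 * s ^ 2 := by ring
  have hETy : h' - y ≤ ET := by omega
  refine level0 (f := flip f) hf.flip (a := aR) (s := s) (p := χ aR) (P := χ (aR + s - 1))
    (h := x1 + (k1 + 1) * s) (D := 3 * s) (E := ET) hχab (by omega) (by omega)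
    (L1Inv f s N x0 x1 z h') ?_ ?_ ?_ hd ?_ ?_ ?_
  · -- invariant during travel
    intro T' _ O' B' H hO hB _ _ _ hT'
    exact Or.inr ⟨k, y, hk, hyh, by omega, hcov.mono hO, fun k' hk' =>
      (hbad k' (by omega)).trans (cnt_mono_set f hB _ _ _ _)⟩
  · -- climb
    intro T' hT'T O' B' hO hB hd' hcovT hT'
    by_cases hbad1 : s ≤ cnt f B' (x1 + k1 * s) (x1 + (k1 + 1) * s) aR h'
    · have hmeas : T' + (N - (k1 + 1)) < n := by omega
      refine ih _ hmeas T' (k1 + 1) y rfl O' B' (by omega)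
        ((hcov.mono hO).weaken le_rfl (by omega) le_rfl le_rfl) hy hyh hd' ?_ ?_
      · intro k' hk'
        rcases Nat.lt_or_ge k' k1 with hlt' | hge
        · exact (hmin k' hlt').trans (cnt_mono_set f hB _ _ _ _)
        · have : k' = k1 := by omega
          subst this
          exact hbad1.trans (cnt_mono_rect f B' le_rfl le_rfl (by omega) le_rfl)
      · rw [← hxR, ← hK1, ← hC1]
        have h1 : β ≤ cnt f B' x0 xR z h' := by
          rw [hβdef]
          exact cnt_mono_set f hB _ _ _ _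
        have h2 : (xR - x0 - cnt f B' x0 xR z h') * C1 ≤ (xR - x0 - β) * C1 :=
          Nat.mul_le_mul_right C1 (by omega)
        have h3 : N - (k1 + 1) = N - k1 - 1 := by omega
        rw [h3]
        omega
    · push Not at hbad1
      obtain ⟨ψ, hψ1, hψ2⟩ := hcovT
      -- gluing
      have hglue : ∀ O'' H, O' ⊆ O'' → Cov f O'' (x1 + k1 * s) (x1 + k1 * s + s) (aR + s - 1 + 1) H →
          Cov f O'' x0 (x1 + (k1 + 1) * s) z H := by
        intro O'' H hO' hc
        have h1 : Cov f O'' x0 (x1 + k * s) z (aR + s) :=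
          ((hcov.mono hO).mono hO').weaken le_rfl le_rfl le_rfl haR2
        have h2 := Cov.append h1 hc (by omega) (by omega) (by omega) (by omega)
        exact h2.weaken le_rfl (by omega) le_rfl le_rfl
      refine level0 (f := f) hf (a := x1 + k1 * s) (s := s) (p := aR) (P := aR + s - 1)
        (h := h') (D := 3 * s) (E := (N - k1 - 1) * K1 + (xR - x0 - β) * C1) (by omega) (by omega)
        (by omega) (L1Inv f s N x0 x1 z h') ?_ ?_ ?_ hd' ?_ ?_ ?_
      · intro T'' _ O'' B'' H hO' hB' hc _ hHh hT''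
        by_cases hHy : H ≤ y
        · exact Or.inr ⟨k, y, hk, hyh, by omega, (hcov.mono hO).mono hO', fun k' hk' =>
            (hbad k' (by omega)).trans (cnt_mono_set f (hB.trans hB') _ _ _ _)⟩
        · exact Or.inr ⟨k1 + 1, H, by omega, hHh, by omega, hglue O'' H hO' hc, fun k' hk' =>
            (hmin k' (by omega)).trans (cnt_mono_set f (hB.trans hB') _ _ _ _)⟩
      · intro T'' _ O'' B'' hO' hB' _ hc _
        exact l1_done_safe (k := k1 + 1) (by omega) (hglue O'' h' hO' hc) fun k' hk' =>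
          (hmin k' (by omega)).trans (cnt_mono_set f (hB.trans hB') _ _ _ _)
      · intro T'' hT''T O'' B'' H hO' hB' hd'' hc _ hHh hT'' hfail
        have hmeas : T'' + (N - (k1 + 1)) < n := by omega
        have hcovm : Cov f O'' x0 (x1 + (k1 + 1) * s) z (max y H) := by
          by_cases hHy : H ≤ y
          · rw [max_eq_left hHy]
            exact ((hcov.mono hO).mono hO').weaken le_rfl (by omega) le_rfl le_rfl
          · rw [max_eq_right (by omega)]
            exact hglue O'' H hO' hc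
        refine ih _ hmeas T'' (k1 + 1) (max y H) rfl O'' B'' (by omega) hcovm
          (le_trans hy (le_max_left _ _)) (max_le hyh hHh) hd'' ?_ ?_
        · intro k' hk'
          rcases Nat.lt_or_ge k' k1 with hlt' | hge
          · exact (hmin k' hlt').trans (cnt_mono_set f (hB.trans hB') _ _ _ _)
          · have : k' = k1 := by omega
            subst this
            have e1 : x1 + (k' + 1) * s = x1 + k' * s + s := by omega
            rw [e1]
            exact hfail.trans (cnt_mono_rect f B'' le_rfl le_rfl (by omega) le_rfl)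
        · rw [← hxR, ← hK1, ← hC1]
          have h1 : β ≤ cnt f B'' x0 xR z h' := by
            rw [hβdef]
            exact cnt_mono_set f (hB.trans hB') _ _ _ _
          have h2 : (xR - x0 - cnt f B'' x0 xR z h') * C1 ≤ (xR - x0 - β) * C1 :=
            Nat.mul_le_mul_right C1 (by omega)
          have h3 : N - (k1 + 1) = N - k1 - 1 := by omega
          rw [h3]
          have h4 : h' - max y H ≤ h' - H := by omega
          omega
      · have e1 : x1 + (k1 + 1) * s = x1 + k1 * s + s := by omega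
        rw [← e1]
        exact hbad1
      · intro x hx1 hx2
        have := hψ1 x (by omega) (by omega)
        exact ⟨ψ x, this.1, by omega, this.2.2⟩
      · have h1 := hs2 (cnt f B' (x1 + k1 * s) (x1 + k1 * s + s) aR h')
        have h2 : h' - 1 - aR ≤ (h' - y) + 4 * b := by omega
        omega
  · -- failure of the travel
    intro T' hT'T O' B' H hO hB hd' _ _ _ hT' hfail
    by_cases hdead2 : L1Dead f s N x0 x1 z h' B'
    · exact l1_dead_safe hdead2
    have hβ2 : cnt f B' x0 xR z h' < xR - x0 := by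
      unfold L1Dead at hdead2
      push Not at hdead2
      rw [hxR]
      exact hdead2.1
    have hmeas : T' + (N - k1) < n := by omega
    refine ih _ hmeas T' k1 y rfl O' B' (by omega)
      ((hcov.mono hO).weaken le_rfl (by omega) le_rfl le_rfl) hy hyh hd' ?_ ?_
    · intro k' hk'
      exact (hmin k' hk').trans (cnt_mono_set f hB _ _ _ _)
    · rw [← hxR, ← hK1, ← hC1]
      -- new blocks
      have g1 : s ≤ cnt f B' x0 xR aR (aR + s) := by
        rw [cnt_flip] at hfail
        exact hfail.trans (cnt_mono_rect f B' (by omega) (by omega) le_rfl le_rfl)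
      have g2 := cnt_diff f hB x0 xR aR (aR + s)
      have g3 := cnt_diff f hB x0 xR z h'
      have g4 : cnt f (B' \ B) x0 xR aR (aR + s) ≤ cnt f (B' \ B) x0 xR z h' :=
        cnt_mono_rect f _ le_rfl le_rfl (by omega) (by omega)
      obtain ⟨β', hβ'⟩ : ∃ β', β' = cnt f B' x0 xR z h' := ⟨_, rfl⟩
      rw [← hβ'] at hβ2 g3 ⊢
      rw [← hβdef] at g3
      have g5 : s < 2 * (β' - β) := by omega
      have g6 : xR - x0 - β = (xR - x0 - β') + (β' - β) := by omega
      have g7 : (xR - x0 - β) * C1 = (xR - x0 - β') * C1 + (β' - β) * C1 := by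
        rw [g6]
        ring
      have g8 : b + 3 * s ^ 2 ≤ (β' - β) * C1 := by
        rw [hb, hC1]
        calc Nb * s + 3 * s ^ 2 = s * (Nb + 3 * s) := by ring
          _ ≤ (2 * (β' - β)) * (Nb + 3 * s) := Nat.mul_le_mul_right _ g5.le
          _ = (β' - β) * (2 * Nb + 6 * s) := by ring
      rw [← hb] at hK1
      omega
  · -- count
    rw [cnt_flip]
    have : cnt f B (χ aR) (x1 + (k1 + 1) * s) aR (aR + s) ≤ cnt f B x0 xR aR (aR + s) :=
      cnt_mono_rect f B (by omega) (by omega) le_rfl le_rfl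
    omega
  · intro x hx1 hx2
    have h1 := hχ1 x (by omega) (by omega)
    exact ⟨χ x, hχ2 aR x (by omega) hx1 (by omega), hχ2 x (aR + s - 1) (by omega) (by omega)
      (by omega), h1.2.2⟩
  · have h1 := hs2 (cnt (flip f) B aR (aR + s) (χ aR) (x1 + (k1 + 1) * s))
    have h2 : x1 + (k1 + 1) * s - 1 - χ aR ≤ b := by omega
    omega

/-- Level 1: climb inside the strip `[x0, x1 + N s)`, of width at most `b = Nb * s`, starting from
an old coverage of the rows `[z, y)`, `y ≥ z + 4 b`. -/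
theorem level1 {f : ℕ → ℕ → V} (hf : IsFrame Adj f) {s Nb N x0 x1 z y h' T : ℕ} {O B : Set V}
    (hs : 0 < s) (h01 : x0 ≤ x1) (hR : x1 + N * s ≤ x0 + Nb * s)
    (hcov : Cov f O x0 x1 z y) (hy : z + 4 * (Nb * s) ≤ y) (hyh : y ≤ h')
    (hd : Disjoint B O)
    (hT : (h' - y) + N * (5 * (Nb * s) + 6 * s ^ 2) + (x1 + N * s - x0) * (2 * Nb + 6 * s) ≤ T) :
    Safe Adj (L1Inv f s N x0 x1 z h') T O B := by
  refine l1_claim hf hs hR _ T 0 y rfl O B (Nat.zero_le _) (by simpa using hcov) hy hyh hd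
    (fun k' hk' => absurd hk' (Nat.not_lt_zero _)) ?_
  have h1 : (x1 + N * s - x0 - cnt f B x0 (x1 + N * s) z h') * (2 * Nb + 6 * s) ≤
      (x1 + N * s - x0) * (2 * Nb + 6 * s) := Nat.mul_le_mul_right _ (Nat.sub_le _ _)
  rw [Nat.sub_zero]
  omega

end Contain
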