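import Pool.Agent.Lib.MP_579b69_co.Basic
import Pool.Agent.Lib.MP_579b69_co.Game

namespace Containment

open Contain

variable {V : Type*} {Adj : V → V → Prop}

/-- a play with a prescribed response function -/
theorem exists_play (R : List (Finset V) → Finset V) :
    ∃ S : ℕ → Finset V, ∀ t, S t = R (hist S t) := by
  let L : ℕ → List (Finset V) := fun t => Nat.rec [] (fun _ l => l ++ [R l]) t
  have hL0 : L 0 = [] := rfl
  have hLs : ∀ t, L (t + 1) = L t ++ [R (L t)] := fun t => rfl
  refine ⟨fun t => R (L t), fun t => ?_⟩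
  have key : ∀ t, hist (fun t => R (L t)) t = L t := by
    intro t
    induction t with
    | zero => simp [hist, hL0]
    | succ t ih =>
      rw [hLs, ← ih]
      unfold hist at ih ⊢
      rw [List.range_succ, List.map_append, ih]
      rfl
  rw [key t]

theorem hist_length (S : ℕ → Finset V) (t : ℕ) : (hist S t).length = t := by
  simp [hist]

/-- the play read off from a list -/
def ofList (l : List (Finset V)) : ℕ → Finset V := fun i => l.getD i ∅

theorem ofList_hist (S : ℕ → Finset V) {t i : ℕ} (hi : i < t) : ofList (hist S t) i = S i := by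
  unfold ofList hist
  simp [List.getD_eq_getElem?_getD, hi]

theorem hist_congr {S S' : ℕ → Finset V} {t : ℕ} (h : ∀ i < t, S i = S' i) :
    hist S t = hist S' t := by
  unfold hist
  apply List.map_congr_left
  intro i hi
  exact h i (List.mem_range.mp hi)

theorem occ_congr {B0 : Finset V} {S S' : ℕ → Finset V} {t : ℕ} (h : ∀ i < t, S i = S' i) :
    occ B0 S t = occ B0 S' t := by
  unfold occ
  ext v
  simp only [Set.mem_ofPred_eq]
  constructor
  · rintro (hv | ⟨i, hi, hv⟩)
    · exact Or.inl hv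
    · exact Or.inr ⟨i, hi, h i hi ▸ hv⟩
  · rintro (hv | ⟨i, hi, hv⟩)
    · exact Or.inl hv
    · exact Or.inr ⟨i, hi, (h i hi).symm ▸ hv⟩

theorem del_congr {σ : List (Finset V) → Finset V} {S S' : ℕ → Finset V} {t : ℕ}
    (h : ∀ i < t, S i = S' i) : del σ S (t + 1) = del σ S' (t + 1) := by
  unfold del
  ext v
  simp only [Set.mem_ofPred_eq]
  constructor
  · rintro ⟨i, hi, hv⟩
    refine ⟨i, hi, ?_⟩
    rwa [hist_congr (S' := S) fun j hj => (h j (by omega)).symm]
  · rintro ⟨i, hi, hv⟩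
    refine ⟨i, hi, ?_⟩
    rwa [hist_congr (S' := S') fun j hj => h j (by omega)]

theorem occ_succ (B0 : Finset V) (S : ℕ → Finset V) (t : ℕ) :
    occ B0 S (t + 1) = occ B0 S t ∪ ↑(S t) := by
  unfold occ
  ext v
  simp only [Set.mem_ofPred_eq, Set.mem_union, Finset.mem_coe]
  constructor
  · rintro (hv | ⟨i, hi, hv⟩)
    · exact Or.inl (Or.inl hv)
    · rcases Nat.lt_succ_iff_lt_or_eq.mp hi with h | h
      · exact Or.inl (Or.inr ⟨i, h, hv⟩)
      · exact Or.inr (h ▸ hv)
  · rintro ((hv | ⟨i, hi, hv⟩) | hv)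
    · exact Or.inl hv
    · exact Or.inr ⟨i, by omega, hv⟩
    · exact Or.inr ⟨t, by omega, hv⟩

theorem del_succ (σ : List (Finset V) → Finset V) (S : ℕ → Finset V) (t : ℕ) :
    del σ S (t + 1) = del σ S t ∪ ↑(σ (hist S t)) := by
  unfold del
  ext v
  simp only [Set.mem_ofPred_eq, Set.mem_union, Finset.mem_coe]
  constructor
  · rintro ⟨i, hi, hv⟩
    rcases Nat.lt_succ_iff_lt_or_eq.mp hi with h | h
    · exact Or.inl ⟨i, h, hv⟩
    · exact Or.inr (h ▸ hv)
  · rintro (⟨i, hi, hv⟩ | hv)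
    · exact ⟨i, by omega, hv⟩
    · exact ⟨t, by omega, hv⟩

theorem occ_zero (B0 : Finset V) (S : ℕ → Finset V) : occ B0 S 0 = ↑B0 := by
  unfold occ
  ext v
  simp

theorem del_zero (σ : List (Finset V) → Finset V) (S : ℕ → Finset V) : del σ S 0 = ∅ := by
  unfold del
  ext v
  simp

theorem occ_finite (B0 : Finset V) (S : ℕ → Finset V) (t : ℕ) : (occ B0 S t).Finite := by
  induction t with
  | zero => rw [occ_zero]; exact B0.finite_toSet
  | succ t ih => rw [occ_succ]; exact ih.union (S t).finite_toSet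

theorem del_finite (σ : List (Finset V) → Finset V) (S : ℕ → Finset V) (t : ℕ) :
    (del σ S t).Finite := by
  induction t with
  | zero => rw [del_zero]; exact Set.finite_empty
  | succ t ih => rw [del_succ]; exact ih.union (σ (hist S t)).finite_toSet

/-- if Container plays legally then at most `⌊t q⌋` vertices are deleted -/
theorem del_ncard {q : ℝ} (hq0 : 0 < q) {B0 : Finset V} {σ : List (Finset V) → Finset V}
    {S : ℕ → Finset V} (t : ℕ) (h : ∀ i < t, ContainerLegal q B0 σ S i) :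
    (del σ S t).ncard ≤ ⌊(t : ℝ) * q⌋₊ := by
  induction t with
  | zero => rw [del_zero]; simp
  | succ t ih =>
    rw [del_succ]
    have h1 := ih fun i hi => h i (by omega)
    have h2 := (h t (by omega)).1
    have h3 := Set.ncard_union_le (del σ S t) ↑(σ (hist S t))
    rw [Set.ncard_coe_finset] at h3
    have h4 : ⌊(t : ℝ) * q⌋₊ ≤ ⌊((t : ℝ) + 1) * q⌋₊ := by
      apply Nat.floor_le_floor
      nlinarith
    push_cast
    omega

/-- the invariant of the play at time `t` -/
def Inv (Adj : V → V → Prop) (τ K : ℕ → ℕ) (G : ℕ → Set V → Set V → Prop) (O0 : Finset V)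
    (t : ℕ) (O B : Set V) : Prop :=
  (t < τ 0 → O = ↑O0) ∧ ∀ k, (t = τ k → G k O B) ∧
    (τ k ≤ t → t < τ (k + 1) → KForce Adj (K k) (τ (k + 1) - t) (G (k + 1)) O B)

theorem inv_of_milestone {q : ℝ} {τ K : ℕ → ℕ}
    {G : ℕ → Set V → Set V → Prop} {O0 : Finset V}
    (hτ : StrictMono τ)
    (hstep : ∀ k (O B : Set V), G k O B → Disjoint B O → B.Finite →
      (B.ncard : ℝ) ≤ q * τ k → KForce Adj (K k) (τ (k + 1) - τ k) (G (k + 1)) O B)
    {t k : ℕ} (ht : t = τ k) {O B : Set V} (hG : G k O B) (hd : Disjoint B O)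
    (hB : B.Finite) (hn : (B.ncard : ℝ) ≤ q * t) : Inv Adj τ K G O0 t O B := by
  subst ht
  refine ⟨fun h => ?_, fun k' => ⟨fun h => ?_, fun h1 h2 => ?_⟩⟩
  · exact absurd h (not_lt.mpr (hτ.monotone (Nat.zero_le _)))
  · rw [← hτ.injective h]
    exact hG
  · have e : k' = k := by
      have h3 : k' ≤ k := hτ.le_iff_le.mp h1
      have h4 : k < k' + 1 := hτ.lt_iff_lt.mp h2
      omega
    rw [e]
    exact hstep k O B hG hd hB hn

/-- one turn of the play -/
theorem inv_step {q : ℝ} {g : ℕ → ℕ∞} {τ K : ℕ → ℕ}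
    {G : ℕ → Set V → Set V → Prop} {O0 : Finset V}
    (hτ : StrictMono τ)
    (hK : ∀ k t, τ k < t → t ≤ τ (k + 1) → (K k : ℕ∞) ≤ g t)
    (h0 : ∀ B : Set V, Disjoint B ↑O0 → G 0 ↑O0 B)
    (hstep : ∀ k (O B : Set V), G k O B → Disjoint B O → B.Finite →
      (B.ncard : ℝ) ≤ q * τ k → KForce Adj (K k) (τ (k + 1) - τ k) (G (k + 1)) O B)
    {t : ℕ} {O B B' : Set V} (hI : Inv Adj τ K G O0 t O B) (hBB : B ⊆ B')
    (hd : Disjoint B' O) (hB : B'.Finite) (hn : (B'.ncard : ℝ) ≤ q * (t + 1 : ℕ)) :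
    ∃ S : Finset V, ((S.card : ℕ∞) ≤ g (t + 1) ∧ ∀ v ∈ S, v ∉ B' ∧ ∃ u ∈ O, Adj u v) ∧
      Inv Adj τ K G O0 (t + 1) (O ∪ ↑S) B' := by
  by_cases hlt : t < τ 0
  · have hO := hI.1 hlt
    refine ⟨∅, ⟨by simp, by simp⟩, ?_⟩
    rw [Finset.coe_empty, Set.union_empty]
    rcases Nat.lt_or_ge (t + 1) (τ 0) with h1 | h1
    · refine ⟨fun _ => hO, fun k => ?_⟩
      have h2 : τ 0 ≤ τ k := hτ.monotone (Nat.zero_le _)
      exact ⟨fun h => by omega, fun h => by omega⟩
    · have h2 : t + 1 = τ 0 := by omega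
      refine inv_of_milestone hτ hstep h2 ?_ hd hB hn
      rw [hO]
      exact h0 B' (hO ▸ hd)
  · -- the current phase
    have hex : ∃ k, τ k ≤ t ∧ t < τ (k + 1) := by
      have h1 : ∃ k, t < τ k := ⟨t + 1, lt_of_lt_of_le (Nat.lt_succ_self t) (hτ.id_le (t + 1))⟩
      classical
      have h2 := Nat.find_spec h1
      have h3 : Nat.find h1 ≠ 0 := by
        intro h
        rw [h] at h2
        exact hlt h2
      obtain ⟨k, hk⟩ := Nat.exists_eq_succ_of_ne_zero h3
      refine ⟨k, ?_, ?_⟩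
      · have h4 := Nat.find_min h1 (m := k) (by omega)
        omega
      · rw [hk] at h2
        exact h2
    obtain ⟨k, hk1, hk2⟩ := hex
    have hF := (hI.2 k).2 hk1 hk2
    have e : τ (k + 1) - t = (τ (k + 1) - (t + 1)) + 1 := by omega
    rw [e] at hF
    obtain ⟨O', ⟨S, hS1, hS2, hS3⟩, hF'⟩ := hF B' hBB hd
    have hst : KStep Adj (K k) O B' O' := ⟨S, hS1, hS2, hS3⟩
    refine ⟨S, ⟨?_, hS2⟩, ?_⟩
    · refine le_trans ?_ (hK k (t + 1) (by omega) (by omega))
      exact_mod_cast hS1
    · rw [← hS3]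
      rcases Nat.lt_or_ge (t + 1) (τ (k + 1)) with h1 | h1
      · refine ⟨fun h => ?_, fun k' => ⟨fun h => ?_, fun h2 h3 => ?_⟩⟩
        · have : τ 0 ≤ τ k := hτ.monotone (Nat.zero_le _)
          omega
        · have h2 : k < k' := hτ.lt_iff_lt.mp (by omega)
          have h3 : k' < k + 1 := hτ.lt_iff_lt.mp (by omega)
          omega
        · have h4 : k' < k + 1 := hτ.lt_iff_lt.mp (by omega)
          have h5 : k < k' + 1 := hτ.lt_iff_lt.mp (by omega)
          have h6 : k' = k := by omega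
          rw [h6]
          exact hF'
      · have h2 : t + 1 = τ (k + 1) := by omega
        refine inv_of_milestone hτ hstep h2 ?_ (hst.disjoint hd) hB hn
        rw [h2, Nat.sub_self] at hF'
        exact hF'

/-- From milestones to a win of Spreader. `U` is an unbounded family of finite conditions: the
set of occupied vertices meets `W k` at the milestone `k`, and every finite set misses some
`W k`. -/
theorem spreader_wins_of_milestones (q : ℝ) (hq0 : 0 < q) (g : ℕ → ℕ∞) (τ K : ℕ → ℕ)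
    (G : ℕ → Set V → Set V → Prop) (O0 : Finset V) (W : ℕ → Set V)
    (hτ : StrictMono τ)
    (hK : ∀ k t, τ k < t → t ≤ τ (k + 1) → (K k : ℕ∞) ≤ g t)
    (h0 : ∀ B : Set V, Disjoint B ↑O0 → G 0 ↑O0 B)
    (hstep : ∀ k (O B : Set V), G k O B → Disjoint B O → B.Finite →
      (B.ncard : ℝ) ≤ q * τ k → KForce Adj (K k) (τ (k + 1) - τ k) (G (k + 1)) O B)
    (hW : ∀ k (O B : Set V), G k O B → Disjoint B O → B.Finite →
      (B.ncard : ℝ) ≤ q * τ k → ∃ v ∈ O, v ∈ W k)
    (hfin : ∀ F : Set V, F.Finite → ∃ k0, ∀ k ≥ k0, ∀ v ∈ F, v ∉ W k) :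
    ¬ ContainerWins Adj q g O0 := by
  classical
  rintro ⟨σ, hσ⟩
  -- the good answers
  let good : ℕ → Set V → Set V → Finset V → Prop := fun t O B' S =>
    ((S.card : ℕ∞) ≤ g (t + 1) ∧ ∀ v ∈ S, v ∉ B' ∧ ∃ u ∈ O, Adj u v) ∧
      Inv Adj τ K G O0 (t + 1) (O ∪ ↑S) B'
  let R : List (Finset V) → Finset V := fun l =>
    if h : ∃ S, good l.length (occ O0 (ofList l) l.length)
      (del σ (ofList l) (l.length + 1)) S then h.choose else ∅
  obtain ⟨S, hS⟩ := exists_play R
  have hR1 : ∀ t, (∃ S', good t (occ O0 S t) (del σ S (t + 1)) S') →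
      good t (occ O0 S t) (del σ S (t + 1)) (S t) := by
    intro t hex
    have e1 : occ O0 (ofList (hist S t)) t = occ O0 S t :=
      occ_congr fun i hi => ofList_hist S hi
    have e2 : del σ (ofList (hist S t)) (t + 1) = del σ S (t + 1) :=
      del_congr fun i hi => ofList_hist S hi
    have h1 : ∃ S', good (hist S t).length (occ O0 (ofList (hist S t)) (hist S t).length)
        (del σ (ofList (hist S t)) ((hist S t).length + 1)) S' := by
      rw [hist_length, e1, e2]
      exact hex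
    have h2 : S t = h1.choose := by
      rw [hS t]
      show (if h : _ then _ else _) = _
      rw [dif_pos h1]
    have h3 := h1.choose_spec
    rw [← h2, hist_length, e1, e2] at h3
    exact h3
  have hR2 : ∀ t, (¬ ∃ S', good t (occ O0 S t) (del σ S (t + 1)) S') → S t = ∅ := by
    intro t hex
    have e1 : occ O0 (ofList (hist S t)) t = occ O0 S t :=
      occ_congr fun i hi => ofList_hist S hi
    have e2 : del σ (ofList (hist S t)) (t + 1) = del σ S (t + 1) :=
      del_congr fun i hi => ofList_hist S hi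
    have h1 : ¬ ∃ S', good (hist S t).length (occ O0 (ofList (hist S t)) (hist S t).length)
        (del σ (ofList (hist S t)) ((hist S t).length + 1)) S' := by
      rw [hist_length, e1, e2]
      exact hex
    rw [hS t]
    show (if h : _ then _ else _) = _
    rw [dif_neg h1]
  -- Spreader plays legally
  have hleg : ∀ t, SpreaderLegal Adj g O0 σ S t := by
    intro t
    by_cases hex : ∃ S', good t (occ O0 S t) (del σ S (t + 1)) S'
    · obtain ⟨⟨h1, h2⟩, _⟩ := hR1 t hex
      exact ⟨h1, fun v hv => ⟨(h2 v hv).1, Or.inr (h2 v hv).2⟩⟩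
    · rw [SpreaderLegal, hR2 t hex]
      simp
  obtain ⟨hcl, t0, ht0⟩ := hσ S hleg
  -- disjointness
  have hdis : ∀ t, Disjoint (del σ S t) (occ O0 S t) := by
    intro t
    induction t with
    | zero => rw [del_zero]; exact Set.empty_disjoint _
    | succ t ih =>
      rw [occ_succ, Set.disjoint_union_right]
      constructor
      · rw [del_succ, Set.disjoint_union_left]
        refine ⟨ih, ?_⟩
        rw [Set.disjoint_left]
        intro v hv
        exact (hcl t).2 v hv
      · rw [Set.disjoint_right]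
        intro v hv
        exact ((hleg t).2 v hv).1
  have hdis' : ∀ t, Disjoint (del σ S (t + 1)) (occ O0 S t) := by
    intro t
    have h1 := hdis (t + 1)
    rw [occ_succ, Set.disjoint_union_right] at h1
    exact h1.1
  have hcard : ∀ t : ℕ, ((del σ S t).ncard : ℝ) ≤ q * t := by
    intro t
    have h1 := del_ncard (B0 := O0) (σ := σ) (S := S) hq0 t fun i _ => hcl i
    have h2 : (⌊(t : ℝ) * q⌋₊ : ℝ) ≤ (t : ℝ) * q := Nat.floor_le (by positivity)
    have h3 : ((del σ S t).ncard : ℝ) ≤ (⌊(t : ℝ) * q⌋₊ : ℝ) := by exact_mod_cast h1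
    linarith
  -- the invariant
  have hinv : ∀ t, Inv Adj τ K G O0 t (occ O0 S t) (del σ S t) := by
    intro t
    induction t with
    | zero =>
      rw [occ_zero, del_zero]
      rcases Nat.eq_zero_or_pos (τ 0) with h1 | h1
      · refine inv_of_milestone hτ hstep (k := 0) h1.symm (h0 _ (Set.empty_disjoint _))
          (Set.empty_disjoint _) Set.finite_empty ?_
        simp
      · refine ⟨fun _ => rfl, fun k => ?_⟩
        have h2 : τ 0 ≤ τ k := hτ.monotone (Nat.zero_le _)
        exact ⟨fun h => by omega, fun h => by omega⟩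
    | succ t ih =>
      have hex : ∃ S', good t (occ O0 S t) (del σ S (t + 1)) S' := by
        refine inv_step hτ hK h0 hstep ih ?_ (hdis' t) (del_finite _ _ _) (hcard (t + 1))
        rw [del_succ]
        exact Set.subset_union_left
      have h1 := (hR1 t hex).2
      rw [occ_succ]
      exact h1
  -- conclusion
  obtain ⟨k0, hk0⟩ := hfin (occ O0 S t0) (occ_finite _ _ _)
  set k := max k0 t0 with hk
  have hk1 : t0 ≤ τ k := le_trans (le_max_right _ _) (hτ.id_le k)
  obtain ⟨v, hv1, hv2⟩ := hW k (occ O0 S (τ k)) (del σ S (τ k)) (((hinv (τ k)).2 k).1 rfl)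
    (hdis _) (del_finite _ _ _) (hcard _)
  rw [ht0 (τ k) hk1] at hv1
  exact hk0 k (le_max_left _ _) v hv1 hv2

end Containment
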