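import Pool.Agent.Lib.MP_579b69_co.Snap

namespace Contain

variable {V : Type*} {Adj : V → V → Prop}

/-- Everything known after a round `n → n + m` (version with trunk among the row elements). -/
structure RawAll (f : ℕ → ℕ → V) (s Nb n ρ m : ℕ) (c : ℕ → ℤ) (B0 O B' : Set V) : Prop where
  /-- own columns -/
  own_col : ∀ i < ρ, 0 < c i - s - lateC f s Nb n B0 B' i - aheadC f s Nb n m B' i →
    ColF f s Nb 20 i (n + m - i) (c i - s - lateC f s Nb n B0 B' i - aheadC f s Nb n m B' i) O B'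
  /-- own rows -/
  own_row : ∀ i, ρ ≤ i → i ≤ n → 0 < c i - s - lateC (flip f) s Nb n B0 B' (n - i) -
      aheadC (flip f) s Nb n m B' (n - i) →
    ColF (flip f) s Nb 20 (n - i) (i + m) (c i - s - lateC (flip f) s Nb n B0 B' (n - i) -
      aheadC (flip f) s Nb n m B' (n - i)) O B'
  /-- new columns crossed by their own row element -/
  near : ∀ i, ρ ≤ i → i ≤ n →
    (lateC (flip f) s Nb n B0 B' (n - i) + nearC (flip f) s Nb n B' (n - i) : ℤ) < c i →
    0 < ((Nb * s : ℕ) : ℤ) - 2 * s - aheadC f s Nb n m B' i →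
    ColF f s Nb 20 i (n + m - i) (((Nb * s : ℕ) : ℤ) - 2 * s - aheadC f s Nb n m B' i) O B'
  /-- new columns crossed by the trunk `r` -/
  trunk : ∀ r, ρ ≤ r → r ≤ n →
    (lateC (flip f) s Nb n B0 B' (n - r) + aheadC (flip f) s Nb n m B' (n - r) : ℤ) < c r →
    ∀ i, r ≤ i → i + 21 ≤ r + m → 0 < ((Nb * s : ℕ) : ℤ) - 2 * s - aheadC f s Nb n m B' i →
    ColF f s Nb 20 i (n + m - i) (((Nb * s : ℕ) : ℤ) - 2 * s - aheadC f s Nb n m B' i) O B'

/-- duration of a round -/
def TRound (s Nb m : ℕ) : ℕ := m * (Nb * s) + 2 * wOld s Nb + wAlpha s Nb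

theorem lateC_mono (f : ℕ → ℕ → V) (s Nb n : ℕ) {B0 B1 B2 : Set V} (h : B1 ⊆ B2) (i : ℕ) :
    lateC f s Nb n B0 B1 i ≤ lateC f s Nb n B0 B2 i :=
  cnt_mono_set f (Set.sdiff_subset_sdiff_left h) _ _ _ _

theorem aheadC_mono (f : ℕ → ℕ → V) (s Nb n m : ℕ) {B1 B2 : Set V} (h : B1 ⊆ B2) (i : ℕ) :
    aheadC f s Nb n m B1 i ≤ aheadC f s Nb n m B2 i :=
  cnt_mono_set f h _ _ _ _

theorem nearC_mono (f : ℕ → ℕ → V) (s Nb n : ℕ) {B1 B2 : Set V} (h : B1 ⊆ B2) (i : ℕ) :
    nearC f s Nb n B1 i ≤ nearC f s Nb n B2 i :=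
  cnt_mono_set f h _ _ _ _

theorem nearC_le_aheadC (f : ℕ → ℕ → V) (s Nb : ℕ) {n m i : ℕ} (hm : 1 ≤ m) (hi : i ≤ n)
    (B' : Set V) : nearC f s Nb n B' i ≤ aheadC f s Nb n m B' i := by
  refine cnt_mono_rect f B' le_rfl le_rfl le_rfl (Nat.mul_le_mul_right _ ?_)
  omega

/-- the invariant attached to a single element run up by `μ` macro rows -/
theorem ColS.elem {g : ℕ → ℕ → V} (hg : IsFrame Adj g) {s Nb a j μ : ℕ} {c : ℤ} {O B : Set V}
    (hs : 0 < s) (hd : Disjoint B O) (h : ColS g s Nb 4 a j c O B) :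
    ∃ I : ℕ → Set V → Set V → Prop, IMono I ∧
      (∀ T, μ * (Nb * s) + wOld s Nb ≤ T → Safe Adj I T O B) ∧
      (20 ≤ μ → ∀ O' B', B ⊆ B' → I 0 O' B' → 0 < c - s -
        cnt g (B' \ B) (a * (Nb * s)) ((a + 1) * (Nb * s)) ((j - 4) * (Nb * s)) (j * (Nb * s)) -
        cnt g B' (a * (Nb * s)) ((a + 1) * (Nb * s)) (j * (Nb * s)) ((j + μ) * (Nb * s)) →
        ColF g s Nb 20 a (j + μ) (c - s -
          cnt g (B' \ B) (a * (Nb * s)) ((a + 1) * (Nb * s)) ((j - 4) * (Nb * s)) (j * (Nb * s)) -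
          cnt g B' (a * (Nb * s)) ((a + 1) * (Nb * s)) (j * (Nb * s)) ((j + μ) * (Nb * s))) O' B') ∧
      (∀ T d O' B', B ⊆ B' → I T O' B' → (d + 1) * (Nb * s) + T ≤ μ * (Nb * s) →
        c ≤ cnt g (B' \ B) (a * (Nb * s)) ((a + 1) * (Nb * s)) ((j - 4) * (Nb * s))
          (j * (Nb * s)) +
          cnt g B' (a * (Nb * s)) ((a + 1) * (Nb * s)) (j * (Nb * s)) ((j + μ) * (Nb * s)) ∨
        Cov g O' (a * (Nb * s)) ((a + 1) * (Nb * s)) ((j + d) * (Nb * s))
          ((j + d + 1) * (Nb * s))) := by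
  obtain ⟨x0, x1, N, hx0, hx, hN, hζ, h1, h0, hrun⟩ := h.run (μ := μ) hg hs le_rfl hd
  refine ⟨L1Inv g s N x0 x1 ((j - 4) * (Nb * s)) ((j + μ) * (Nb * s)),
    L1Inv_mono _ _ _ _ _ _ _, hrun, ?_, ?_⟩
  · intro hμ O' B' hB hI hpos
    exact hI.toColF hμ hB hN hx0 hx hζ h1 h0 hpos
  · intro T d O' B' hB hI hT
    by_cases hD : L1Dead g s N x0 x1 ((j - 4) * (Nb * s)) ((j + μ) * (Nb * s)) B'
    · left
      exact L1Dead.ledger hB hN hx0 hx hζ h1 h0 hD
    · right
      exact hI.crossing hN hx0 hζ hD hT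

/-- the own elements, with their consequences -/
structure OwnEl (Adj : V → V → Prop) (f : ℕ → ℕ → V) (s Nb n ρ m : ℕ) (c : ℕ → ℤ)
    (O B : Set V) (i : ℕ) (I : ℕ → Set V → Set V → Prop) : Prop where
  mono : IMono I
  safe : Safe Adj I (m * (Nb * s) + wOld s Nb) O B
  col : i < ρ → ∀ O' B', B ⊆ B' → I 0 O' B' →
    0 < c i - s - lateC f s Nb n B B' i - aheadC f s Nb n m B' i →
    ColF f s Nb 20 i (n + m - i) (c i - s - lateC f s Nb n B B' i - aheadC f s Nb n m B' i) O' B'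
  row : ρ ≤ i → i ≤ n → ∀ O' B', B ⊆ B' → I 0 O' B' →
    0 < c i - s - lateC (flip f) s Nb n B B' (n - i) - aheadC (flip f) s Nb n m B' (n - i) →
    ColF (flip f) s Nb 20 (n - i) (i + m) (c i - s - lateC (flip f) s Nb n B B' (n - i) -
      aheadC (flip f) s Nb n m B' (n - i)) O' B'
  cross : ρ ≤ i → i ≤ n → ∀ T d O' B', B ⊆ B' → I T O' B' →
    (d + 1) * (Nb * s) + T ≤ m * (Nb * s) →
    c i ≤ lateC (flip f) s Nb n B B' (n - i) + aheadC (flip f) s Nb n m B' (n - i) ∨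
    Cov (flip f) O' ((n - i) * (Nb * s)) ((n - i + 1) * (Nb * s)) ((i + d) * (Nb * s))
      ((i + d + 1) * (Nb * s))

theorem exists_ownEl {f : ℕ → ℕ → V} (hf : IsFrame Adj f) {s Nb n ρ m : ℕ} {c : ℕ → ℤ}
    {O B : Set V} (hs : 0 < s) (hm : 21 ≤ m) (h : Snap f s Nb n ρ c O B) (hd : Disjoint B O)
    (i : ℕ) : ∃ I, OwnEl Adj f s Nb n ρ m c O B i I := by
  have triv : ∀ T, Safe Adj (fun _ _ _ => True) T O B := fun T => Safe.idle fun _ _ _ _ => trivial
  by_cases hc : c i ≤ 0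
  · refine ⟨fun _ _ _ => True, fun _ _ _ _ _ _ _ _ => trivial, triv _, ?_, ?_, ?_⟩
    · intro _ O' B' _ _ hpos
      omega
    · intro _ _ O' B' _ _ hpos
      omega
    · intro _ _ T d O' B' _ _ _
      left
      omega
  · rw [not_le] at hc
    by_cases hi : i < ρ
    · have hin : i ≤ n := by have := h.rho_le; omega
      obtain ⟨I, hI, hrun, hcol, -⟩ := (h.col i hi hc).elem (μ := m) hf hs hd
      refine ⟨I, hI, hrun _ le_rfl, ?_, fun hi' => by omega, fun hi' => by omega⟩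
      intro _ O' B' hB hI0 hpos
      have e : n + m - i = n - i + m := by omega
      have := hcol (by omega) O' B' hB hI0
      rw [lateC, aheadC, e] at hpos ⊢
      exact this hpos
    · by_cases hin : i ≤ n
      · obtain ⟨I, hI, hrun, hcol, hcr⟩ := (h.row i (by omega) hin hc).elem (μ := m) hf.flip hs hd
        have e1 : n - (n - i) = i := by omega
        have e2 : n + m - (n - i) = i + m := by omega
        refine ⟨I, hI, hrun _ le_rfl, fun hi' => absurd hi' hi, ?_, ?_⟩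
        · intro _ _ O' B' hB hI0 hpos
          have := hcol (by omega) O' B' hB hI0
          rw [lateC, aheadC, e1, e2] at hpos ⊢
          exact this hpos
        · intro _ _ T d O' B' hB hIT hT
          rw [lateC, aheadC, e1, e2]
          exact hcr T d O' B' hB hIT hT
      · exact ⟨fun _ _ _ => True, fun _ _ _ _ _ _ _ _ => trivial, triv _,
          fun hi' => absurd hi' hi, fun _ hi' => absurd hi' hin, fun _ hi' => absurd hi' hin⟩

/-- the auxiliary row elements of the first phase -/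
theorem exists_nearEl {f : ℕ → ℕ → V} (hf : IsFrame Adj f) {s Nb n ρ : ℕ} {c : ℕ → ℤ}
    {O B : Set V} (hs : 0 < s) (h : Snap f s Nb n ρ c O B) (hd : Disjoint B O)
    (i : ℕ) : ∃ I : ℕ → Set V → Set V → Prop, IMono I ∧ Safe Adj I (Nb * s + wOld s Nb) O B ∧
      (ρ ≤ i → i ≤ n → ∀ O' B', B ⊆ B' → I 0 O' B' →
        c i ≤ lateC (flip f) s Nb n B B' (n - i) + nearC (flip f) s Nb n B' (n - i) ∨
        Cov (flip f) O' ((n - i) * (Nb * s)) ((n - i + 1) * (Nb * s)) (i * (Nb * s))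
          ((i + 1) * (Nb * s))) := by
  have triv : ∀ T, Safe Adj (fun _ _ _ => True) T O B := fun T => Safe.idle fun _ _ _ _ => trivial
  by_cases hc : c i ≤ 0
  · refine ⟨fun _ _ _ => True, fun _ _ _ _ _ _ _ _ => trivial, triv _, ?_⟩
    intro _ _ O' B' _ _
    left
    omega
  · rw [not_le] at hc
    by_cases hi : ρ ≤ i ∧ i ≤ n
    · obtain ⟨I, hI, hrun, -, hcr⟩ := (h.row i hi.1 hi.2 hc).elem (μ := 1) hf.flip hs hd
      have e1 : n - (n - i) = i := by omega
      refine ⟨I, hI, hrun _ (by rw [one_mul]), ?_⟩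
      intro _ _ O' B' hB hI0
      have := hcr 0 0 O' B' hB hI0 (by omega)
      rw [lateC, nearC, e1]
      exact this
    · exact ⟨fun _ _ _ => True, fun _ _ _ _ _ _ _ _ => trivial, triv _,
          fun h1 h2 => absurd ⟨h1, h2⟩ hi⟩

/-- the candidate `r = i - d` for the start of the E-run in strip `i` is dead -/
def DeadC (f : ℕ → ℕ → V) (s Nb n m : ℕ) (c : ℕ → ℤ) (B0 B' : Set V) (i d : ℕ) : Prop :=
  c (i - d) ≤ lateC (flip f) s Nb n B0 B' (n - (i - d)) +
    aheadC (flip f) s Nb n m B' (n - (i - d)) ∧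
  (d = 0 → c i ≤ lateC (flip f) s Nb n B0 B' (n - i) + nearC (flip f) s Nb n B' (n - i))

theorem DeadC.mono {f : ℕ → ℕ → V} {s Nb n m : ℕ} {c : ℕ → ℤ} {B0 B1 B2 : Set V} {i d : ℕ}
    (hB : B1 ⊆ B2) (h : DeadC f s Nb n m c B0 B1 i d) : DeadC f s Nb n m c B0 B2 i d := by
  obtain ⟨h1, h2⟩ := h
  have e1 := lateC_mono (flip f) s Nb n (B0 := B0) hB (n - (i - d))
  have e2 := aheadC_mono (flip f) s Nb n m hB (n - (i - d))
  have e3 := lateC_mono (flip f) s Nb n (B0 := B0) hB (n - i)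
  have e4 := nearC_mono (flip f) s Nb n hB (n - i)
  refine ⟨by omega, fun hd => ?_⟩
  have := h2 hd
  omega

/-- the time of the phase `d` -/
def tauP (s Nb d : ℕ) : ℕ := (d + 1) * (Nb * s) + wOld s Nb

/-- invariant of the E-run in the strip `i` started at macro row `j` -/
def IE (f : ℕ → ℕ → V) (s Nb n m i j : ℕ) : ℕ → Set V → Set V → Prop :=
  fun T O B => T = 0 → ERaw f s Nb i j (n + m - i) O B

theorem IE_mono (f : ℕ → ℕ → V) (s Nb n m i j : ℕ) : IMono (IE f s Nb n m i j) := by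
  intro T O O' B B' hO hB h hT
  exact (h hT).mono hO hB

/-- state after the phase `d` -/
structure PState (Adj : V → V → Prop) (f : ℕ → ℕ → V) (s Nb n ρ m : ℕ) (c : ℕ → ℤ)
    (B0 : Set V) (J : ℕ → ℕ → Set V → Set V → Prop) (d : ℕ) (O' B' : Set V) : Prop where
  sub : B0 ⊆ B'
  disj : Disjoint B' O'
  own : ∀ i < n + m + 1, Safe Adj (J i) (m * (Nb * s) + wOld s Nb - tauP s Nb d) O' B'
  erun : ∀ i < n + m + 1, (∃ d' ≤ d, d' ≤ i ∧ ρ ≤ i - d' ∧ i - d' ≤ n ∧
      Safe Adj (IE f s Nb n m i (n - (i - d'))) (TRound s Nb m - tauP s Nb d) O' B') ∨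
    ∀ d' ≤ d, d' ≤ i → ρ ≤ i - d' → i - d' ≤ n → DeadC f s Nb n m c B0 B' i d'

theorem start_erun {f : ℕ → ℕ → V} (hf : IsFrame Adj f) {s Nb n m i r d : ℕ} {O' B' : Set V}
    (hs : 0 < s) (hr : r ≤ n) (hi : i = r + d) (hd : d + 21 ≤ m)
    (hcross : Cov (flip f) O' ((n - r) * (Nb * s)) ((n - r + 1) * (Nb * s)) (i * (Nb * s))
      ((i + 1) * (Nb * s))) (hdis : Disjoint B' O') :
    Safe Adj (IE f s Nb n m i (n - r)) (TRound s Nb m - tauP s Nb d) O' B' := by
  refine erun hf hs hcross (by omega) hdis ?_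
  obtain ⟨q, rfl⟩ : ∃ q, m = q + d + 5 := ⟨m - d - 5, by omega⟩
  have e : n + (q + d + 5) - i - (n - r) - 5 = q := by omega
  rw [e, TRound, tauP]
  have e1 : (q + d + 5) * (Nb * s) = q * (Nb * s) + d * (Nb * s) + 5 * (Nb * s) := by ring
  have e2 : (d + 1) * (Nb * s) = d * (Nb * s) + Nb * s := by ring
  rw [e1, e2]
  omega

/-- index set of the parallel composition -/
def idx (n m : ℕ) : Finset (ℕ × ℕ) := Finset.range 3 ×ˢ Finset.range (n + m + 1)

theorem card_idx (n m : ℕ) : (idx n m).card = 3 * (n + m + 1) := by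
  rw [idx, Finset.card_product, Finset.card_range, Finset.card_range]

theorem mem_idx {n m k i : ℕ} : (k, i) ∈ idx n m ↔ k < 3 ∧ i < n + m + 1 := by
  rw [idx, Finset.mem_product, Finset.mem_range, Finset.mem_range]

/-- phase `0` -/
theorem phase_zero {f : ℕ → ℕ → V} (hf : IsFrame Adj f) {s Nb n ρ m : ℕ} {c : ℕ → ℤ}
    {O B : Set V} (hs : 0 < s) (hm : 21 ≤ m) (h : Snap f s Nb n ρ c O B) (hd : Disjoint B O)
    {J : ℕ → ℕ → Set V → Set V → Prop} (hJ : ∀ i, OwnEl Adj f s Nb n ρ m c O B i (J i)) :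
    KForce Adj (3 * (n + m + 1)) (tauP s Nb 0) (PState Adj f s Nb n ρ m c B J 0) O B := by
  choose D hD1 hD2 hD3 using fun i => exists_nearEl hf hs h hd i
  have hpar := par_force (Adj := Adj) (idx n m)
    (fun p => if p.1 = 0 then J p.2 else if p.1 = 1 then D p.2 else fun _ _ _ => True)
    (by
      rintro ⟨k, i⟩ _
      dsimp only
      split_ifs
      · exact (hJ i).mono
      · exact hD1 i
      · exact fun _ _ _ _ _ _ _ _ => trivial)
    (tauP s Nb 0) (fun p => if p.1 = 0 then m * (Nb * s) + wOld s Nb else Nb * s + wOld s Nb) hd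
    (by
      rintro ⟨k, i⟩ _
      dsimp only
      split_ifs
      · exact (hJ i).safe
      · exact hD2 i
      · exact Safe.idle fun _ _ _ _ => trivial)
  rw [card_idx] at hpar
  refine hpar.imp ?_
  rintro O' B' ⟨hO, hB, hdis, hall⟩
  refine ⟨hB, hdis, ?_, ?_⟩
  · intro i hi
    have := hall (0, i) (mem_idx.2 ⟨by omega, hi⟩)
    simpa using this
  · intro i hi
    by_cases hin : ρ ≤ i ∧ i ≤ n
    · have h1 := hall (1, i) (mem_idx.2 ⟨by omega, hi⟩)
      have h2 : Safe Adj (D i) 0 O' B' := by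
        have e : Nb * s + wOld s Nb - tauP s Nb 0 = 0 := by
          rw [tauP]
          have : (0 + 1) * (Nb * s) = Nb * s := by ring
          omega
        simpa [e] using h1
      rcases hD3 i hin.1 hin.2 O' B' hB h2 with hdead | hcr
      · right
        intro d' hd' _ _ _
        obtain rfl : d' = 0 := by omega
        refine ⟨?_, fun _ => hdead⟩
        have := nearC_le_aheadC (flip f) s Nb (n := n) (m := m) (i := n - i) (by omega)
          (by omega) B'
        rw [Nat.sub_zero]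
        omega
      · left
        exact ⟨0, le_rfl, Nat.zero_le _, hin.1, hin.2,
          start_erun hf hs (r := i) hin.2 rfl (by omega) hcr hdis⟩
    · right
      intro d' hd' _ h1 h2
      obtain rfl : d' = 0 := by omega
      exact absurd ⟨h1, h2⟩ hin

/-- one more phase -/
theorem phase_succ {f : ℕ → ℕ → V} (hf : IsFrame Adj f) {s Nb n ρ m d : ℕ} {c : ℕ → ℤ}
    {O B O1 B1 : Set V} (hs : 0 < s) (hdm : d + 22 ≤ m)
    {J : ℕ → ℕ → Set V → Set V → Prop} (hJ : ∀ i, OwnEl Adj f s Nb n ρ m c O B i (J i))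
    (hP : PState Adj f s Nb n ρ m c B J d O1 B1) :
    KForce Adj (3 * (n + m + 1)) (Nb * s) (PState Adj f s Nb n ρ m c B J (d + 1)) O1 B1 := by
  classical
  obtain ⟨hsub, hdis1, hown, her⟩ := hP
  -- the start index of every started run
  have hch : ∀ i, ∃ e : ℕ, (i < n + m + 1 ∧ e ≤ d ∧ e ≤ i ∧ ρ ≤ i - e ∧ i - e ≤ n ∧
      Safe Adj (IE f s Nb n m i (n - (i - e))) (TRound s Nb m - tauP s Nb d) O1 B1) ∨
      (e = d + 1 ∧ (i < n + m + 1 → ∀ d' ≤ d, d' ≤ i → ρ ≤ i - d' → i - d' ≤ n →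
        DeadC f s Nb n m c B B1 i d')) := by
    intro i
    by_cases hi : i < n + m + 1
    · rcases her i hi with ⟨e, h1, h2, h3, h4, h5⟩ | h1
      · exact ⟨e, Or.inl ⟨hi, h1, h2, h3, h4, h5⟩⟩
      · exact ⟨d + 1, Or.inr ⟨rfl, fun _ => h1⟩⟩
    · exact ⟨d + 1, Or.inr ⟨rfl, fun hi' => absurd hi' hi⟩⟩
  choose st hst using hch
  have hpar := par_force (Adj := Adj) (idx n m)
    (fun p => if p.1 = 0 then J p.2 else if p.1 = 1 ∧ st p.2 ≤ d then
      IE f s Nb n m p.2 (n - (p.2 - st p.2)) else fun _ _ _ => True)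
    (by
      rintro ⟨k, i⟩ _
      dsimp only
      split_ifs
      · exact (hJ i).mono
      · exact IE_mono _ _ _ _ _ _ _
      · exact fun _ _ _ _ _ _ _ _ => trivial)
    (Nb * s) (fun p => if p.1 = 0 then m * (Nb * s) + wOld s Nb - tauP s Nb d else
      TRound s Nb m - tauP s Nb d) hdis1
    (by
      rintro ⟨k, i⟩ hk
      rw [mem_idx] at hk
      dsimp only
      split_ifs with h1 h2
      · exact hown i hk.2
      · rcases hst i with h3 | h3
        · exact h3.2.2.2.2.2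
        · omega
      · exact Safe.idle fun _ _ _ _ => trivial)
  rw [card_idx] at hpar
  refine hpar.imp ?_
  rintro O' B' ⟨hO, hB, hdis, hall⟩
  have etau : tauP s Nb (d + 1) = tauP s Nb d + Nb * s := by
    rw [tauP, tauP]
    ring
  have hown' : ∀ i < n + m + 1,
      Safe Adj (J i) (m * (Nb * s) + wOld s Nb - tauP s Nb (d + 1)) O' B' := by
    intro i hi
    have := hall (0, i) (mem_idx.2 ⟨by omega, hi⟩)
    rw [etau, ← Nat.sub_sub]
    simpa using this
  refine ⟨hsub.trans hB, hdis, hown', ?_⟩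
  intro i hi
  rcases hst i with ⟨_, h1, h2, h3, h4, h5⟩ | ⟨h1, h2⟩
  · left
    refine ⟨st i, by omega, h2, h3, h4, ?_⟩
    have := hall (1, i) (mem_idx.2 ⟨by omega, hi⟩)
    rw [etau, ← Nat.sub_sub]
    simpa [h1] using this
  · by_cases hc : d + 1 ≤ i ∧ ρ ≤ i - (d + 1) ∧ i - (d + 1) ≤ n
    · obtain ⟨hc1, hc2, hc3⟩ := hc
      have hr : i = i - (d + 1) + (d + 1) := by omega
      have hT : (d + 1 + 1) * (Nb * s) + (m * (Nb * s) + wOld s Nb - tauP s Nb (d + 1)) ≤
          m * (Nb * s) := by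
        rw [tauP]
        have : (d + 1 + 1) * (Nb * s) ≤ m * (Nb * s) := Nat.mul_le_mul_right _ (by omega)
        omega
      rcases (hJ (i - (d + 1))).cross hc2 hc3 _ (d + 1) O' B' (hsub.trans hB)
        (hown' (i - (d + 1)) (by omega)).inv hT with hdead | hcr
      · right
        intro d' hd' hd1 hd2 hd3
        rcases Nat.lt_or_ge d d' with hlt | hge
        · obtain rfl : d' = d + 1 := by omega
          exact ⟨hdead, fun h0 => by omega⟩
        · exact (h2 hi d' hge hd1 hd2 hd3).mono hB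
      · left
        refine ⟨d + 1, le_rfl, hc1, hc2, hc3, ?_⟩
        rw [← hr] at hcr
        exact start_erun hf hs hc3 hr (by omega) hcr hdis
    · right
      intro d' hd' hd1 hd2 hd3
      rcases Nat.lt_or_ge d d' with hlt | hge
      · obtain rfl : d' = d + 1 := by omega
        exact absurd ⟨hd1, hd2, hd3⟩ hc
      · exact (h2 hi d' hge hd1 hd2 hd3).mono hB

/-- all phases -/
theorem phases {f : ℕ → ℕ → V} (hf : IsFrame Adj f) {s Nb n ρ m : ℕ} {c : ℕ → ℤ}
    {O B : Set V} (hs : 0 < s) (hm : 21 ≤ m) (h : Snap f s Nb n ρ c O B) (hd : Disjoint B O)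
    {J : ℕ → ℕ → Set V → Set V → Prop} (hJ : ∀ i, OwnEl Adj f s Nb n ρ m c O B i (J i)) :
    ∀ d, d + 21 ≤ m →
      KForce Adj (3 * (n + m + 1)) (tauP s Nb d) (PState Adj f s Nb n ρ m c B J d) O B := by
  intro d
  induction d with
  | zero => exact fun _ => phase_zero hf hs hm h hd hJ
  | succ d ih =>
    intro hdm
    have etau : tauP s Nb (d + 1) = tauP s Nb d + Nb * s := by
      rw [tauP, tauP]
      ring
    rw [etau]
    exact (ih (by omega)).trans fun O' B' hP => phase_succ hf hs (by omega) hJ hP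

/-- **Round dynamics.** -/
theorem round_dyn {f : ℕ → ℕ → V} (hf : IsFrame Adj f) {s Nb n ρ m : ℕ} {c : ℕ → ℤ}
    {O B : Set V} (hs : 0 < s) (hm : 21 ≤ m) (h : Snap f s Nb n ρ c O B) (hd : Disjoint B O) :
    KForce Adj (3 * (n + m + 1)) (TRound s Nb m)
      (fun O' B' => B ⊆ B' ∧ Disjoint B' O' ∧ RawAll f s Nb n ρ m c B O' B') O B := by
  classical
  choose J hJ using fun i => exists_ownEl hf hs hm h hd i
  obtain ⟨d, rfl⟩ : ∃ d, m = d + 21 := ⟨m - 21, by omega⟩
  have hph := phases hf hs hm h hd hJ d le_rfl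
  have hτ : tauP s Nb d ≤ TRound s Nb (d + 21) := by
    rw [tauP, TRound]
    have : (d + 1) * (Nb * s) ≤ (d + 21) * (Nb * s) := Nat.mul_le_mul_right _ (by omega)
    omega
  have eT : TRound s Nb (d + 21) = tauP s Nb d + (TRound s Nb (d + 21) - tauP s Nb d) := by omega
  rw [eT]
  refine hph.trans ?_
  rintro O1 B1 ⟨hsub, hdis1, hown, her⟩
  have hch : ∀ i, ∃ e : ℕ, (i < n + (d + 21) + 1 ∧ e ≤ d ∧ e ≤ i ∧ ρ ≤ i - e ∧ i - e ≤ n ∧
      Safe Adj (IE f s Nb n (d + 21) i (n - (i - e))) (TRound s Nb (d + 21) - tauP s Nb d)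
        O1 B1) ∨
      (e = d + 1 ∧ (i < n + (d + 21) + 1 → ∀ d' ≤ d, d' ≤ i → ρ ≤ i - d' → i - d' ≤ n →
        DeadC f s Nb n (d + 21) c B B1 i d')) := by
    intro i
    by_cases hi : i < n + (d + 21) + 1
    · rcases her i hi with ⟨e, h1, h2, h3, h4, h5⟩ | h1
      · exact ⟨e, Or.inl ⟨hi, h1, h2, h3, h4, h5⟩⟩
      · exact ⟨d + 1, Or.inr ⟨rfl, fun _ => h1⟩⟩
    · exact ⟨d + 1, Or.inr ⟨rfl, fun hi' => absurd hi' hi⟩⟩
  choose st hst using hch
  have hpar := par_force (Adj := Adj) (idx n (d + 21))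
    (fun p => if p.1 = 0 then J p.2 else if p.1 = 1 ∧ st p.2 ≤ d then
      IE f s Nb n (d + 21) p.2 (n - (p.2 - st p.2)) else fun _ _ _ => True)
    (by
      rintro ⟨k, i⟩ _
      dsimp only
      split_ifs
      · exact (hJ i).mono
      · exact IE_mono _ _ _ _ _ _ _
      · exact fun _ _ _ _ _ _ _ _ => trivial)
    (TRound s Nb (d + 21) - tauP s Nb d)
    (fun p => if p.1 = 0 then (d + 21) * (Nb * s) + wOld s Nb - tauP s Nb d else
      TRound s Nb (d + 21) - tauP s Nb d) hdis1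
    (by
      rintro ⟨k, i⟩ hk
      rw [mem_idx] at hk
      dsimp only
      split_ifs with h1 h2
      · exact hown i hk.2
      · rcases hst i with h3 | h3
        · exact h3.2.2.2.2.2
        · omega
      · exact Safe.idle fun _ _ _ _ => trivial)
  rw [card_idx] at hpar
  refine hpar.imp ?_
  rintro O' B' ⟨hO, hB, hdis, hall⟩
  have hBB : B ⊆ B' := hsub.trans hB
  have hown' : ∀ i < n + (d + 21) + 1, J i 0 O' B' := by
    intro i hi
    have h1 := hall (0, i) (mem_idx.2 ⟨by omega, hi⟩)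
    have e : (d + 21) * (Nb * s) + wOld s Nb - tauP s Nb d -
        (TRound s Nb (d + 21) - tauP s Nb d) = 0 := by
      rw [TRound]
      omega
    have h2 : Safe Adj (J i) 0 O' B' := by simpa [e] using h1
    exact h2
  have hE : ∀ i < n + (d + 21) + 1, st i ≤ d →
      ERaw f s Nb i (n - (i - st i)) (n + (d + 21) - i) O' B' := by
    intro i hi hsi
    have h1 := hall (1, i) (mem_idx.2 ⟨by omega, hi⟩)
    have h2 : Safe Adj (IE f s Nb n (d + 21) i (n - (i - st i))) 0 O' B' := by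
      simpa [hsi] using h1
    exact h2 rfl
  refine ⟨hBB, hdis, ?_, ?_, ?_, ?_⟩
  · intro i hi hpos
    have := h.rho_le
    exact (hJ i).col hi O' B' hBB (hown' i (by omega)) hpos
  · intro i hi1 hi2 hpos
    exact (hJ i).row hi1 hi2 O' B' hBB (hown' i (by omega)) hpos
  · intro i hi1 hi2 hlt hpos
    rcases hst i with ⟨_, h1, h2, h3, h4, h5⟩ | ⟨h1, h2⟩
    · refine (hE i (by omega) h1).toColF (j := n - i) (by omega) (by omega) hpos ?_
      rw [aheadC]
      omega
    · exfalso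
      have h3 := (h2 (by omega) 0 (by omega) (by omega) hi1 hi2).2 rfl
      have e1 := lateC_mono (flip f) s Nb n (B0 := B) hB (n - i)
      have e2 := nearC_mono (flip f) s Nb n hB (n - i)
      omega
  · intro r hr1 hr2 hlt i hri him hpos
    rcases hst i with ⟨_, h1, h2, h3, h4, h5⟩ | ⟨h1, h2⟩
    · refine (hE i (by omega) h1).toColF (j := n - i) (by omega) (by omega) hpos ?_
      rw [aheadC]
      omega
    · exfalso
      have hir : i - (i - r) = r := by omega
      have h3 := (h2 (by omega) (i - r) (by omega) (by omega) (by omega) (by omega)).1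
      rw [hir] at h3
      have e1 := lateC_mono (flip f) s Nb n (B0 := B) hB (n - r)
      have e2 := aheadC_mono (flip f) s Nb n (d + 21) hB (n - r)
      omega

end Contain
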