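import Pool.Agent.Lib.MP_579b69_co.ERun

/-!
Macro scale: `b = Nb * s`.  Macro strip `i` = columns `[i b, (i+1) b)`, macro row `j` = rows
`[j b, (j+1) b)`, macro square `(i,j)` has level `i + j`.  A *snapshot* at level `n` with split `ρ`
has an element for every `i ≤ n`: for `i < ρ` a column element, strip `i`, covered up to the
height `(n-i) b`; for `i ≥ ρ` a row element: row strip `n-i`, covered up to column `i b`.
-/

namespace Contain

variable {V : Type*} {Adj : V → V → Prop}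

/-- column snapshot of strength `c` : the macro rows `[j-ζ, j)` are covered inside the columns
`[x0,x1)` of strip `i`; to the right of `x1` (resp. `x0`) the strip has fewer blocks there than
columns, by at least `c`. -/
def ColS (f : ℕ → ℕ → V) (s Nb ζ i j : ℕ) (c : ℤ) (O B : Set V) : Prop :=
  ∃ x0 x1 N : ℕ, i * (Nb * s) ≤ x0 ∧ x0 ≤ x1 ∧ x1 + N * s = (i + 1) * (Nb * s) ∧ ζ ≤ j ∧
    Cov f O x0 x1 ((j - ζ) * (Nb * s)) (j * (Nb * s)) ∧
    c + cnt f B x1 ((i + 1) * (Nb * s)) ((j - ζ) * (Nb * s)) (j * (Nb * s)) ≤ (N * s : ℕ) ∧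
    c + cnt f B x0 ((i + 1) * (Nb * s)) ((j - ζ) * (Nb * s)) (j * (Nb * s)) + (x0 : ℤ) ≤
      ((i + 1) * (Nb * s) : ℕ)

/-- column snapshot with `x0 = i b` (the count over the whole strip is a separate condition) -/
def ColF (f : ℕ → ℕ → V) (s Nb ζ i j : ℕ) (c : ℤ) (O B : Set V) : Prop :=
  ∃ x1 N : ℕ, i * (Nb * s) ≤ x1 ∧ x1 + N * s = (i + 1) * (Nb * s) ∧ ζ ≤ j ∧
    Cov f O (i * (Nb * s)) x1 ((j - ζ) * (Nb * s)) (j * (Nb * s)) ∧
    c + cnt f B x1 ((i + 1) * (Nb * s)) ((j - ζ) * (Nb * s)) (j * (Nb * s)) ≤ (N * s : ℕ)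

/-- snapshot at the beginning of a round -/
structure Snap (f : ℕ → ℕ → V) (s Nb n ρ : ℕ) (c : ℕ → ℤ) (O B : Set V) : Prop where
  rho_le : ρ ≤ n + 1
  le : ∀ i ≤ n, c i ≤ (Nb * s : ℕ)
  col : ∀ i < ρ, 0 < c i → ColS f s Nb 4 i (n - i) (c i) O B
  row : ∀ i, ρ ≤ i → i ≤ n → 0 < c i → ColS (flip f) s Nb 4 (n - i) i (c i) O B

/-- snapshot at the end of a round -/
structure SnapF (f : ℕ → ℕ → V) (s Nb n ρ1 ρ2 : ℕ) (c : ℕ → ℤ) (O B : Set V) : Prop where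
  rho_le : ρ1 ≤ ρ2
  rho_le2 : ρ2 ≤ n + 1
  le : ∀ i ≤ n, c i ≤ (Nb * s : ℕ)
  zero : ∀ i, ρ1 ≤ i → i < ρ2 → c i = 0
  col : ∀ i < ρ1, 0 < c i → ColF f s Nb 20 i (n - i) (c i) O B
  row : ∀ i, ρ2 ≤ i → i ≤ n → 0 < c i → ColF (flip f) s Nb 20 (n - i) i (c i) O B
  colc : ∀ i < ρ1, c i + cnt f B (i * (Nb * s)) ((i + 1) * (Nb * s)) ((n - i - 20) * (Nb * s))
    ((n - i) * (Nb * s)) ≤ (Nb * s : ℕ)
  rowc : ∀ i, ρ2 ≤ i → i ≤ n → c i + cnt (flip f) B ((n - i) * (Nb * s))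
    ((n - i + 1) * (Nb * s)) ((i - 20) * (Nb * s)) (i * (Nb * s)) ≤ (Nb * s : ℕ)

open Classical in
/-- number of blocks at macro levels `< n` (macro squares of side `b`) -/
noncomputable def Theta (f : ℕ → ℕ → V) (b n : ℕ) (B : Set V) : ℕ :=
  ((Finset.range (n * b) ×ˢ Finset.range (n * b)).filter
    (fun p => p.1 / b + p.2 / b < n ∧ f p.1 p.2 ∈ B)).card

/-- new blocks in the strip `i`, in the zone below the front -/
noncomputable def lateC (f : ℕ → ℕ → V) (s Nb n : ℕ) (B0 B' : Set V) (i : ℕ) : ℕ :=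
  cnt f (B' \ B0) (i * (Nb * s)) ((i + 1) * (Nb * s)) ((n - i - 4) * (Nb * s))
    ((n - i) * (Nb * s))

/-- blocks in the strip `i` between levels `n` and `n + m` -/
noncomputable def aheadC (f : ℕ → ℕ → V) (s Nb n m : ℕ) (B' : Set V) (i : ℕ) : ℕ :=
  cnt f B' (i * (Nb * s)) ((i + 1) * (Nb * s)) ((n - i) * (Nb * s)) ((n + m - i) * (Nb * s))

/-- blocks in the first macro square of the strip `i` above the front -/
noncomputable def nearC (f : ℕ → ℕ → V) (s Nb n : ℕ) (B' : Set V) (i : ℕ) : ℕ :=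
  cnt f B' (i * (Nb * s)) ((i + 1) * (Nb * s)) ((n - i) * (Nb * s)) ((n - i + 1) * (Nb * s))

/-! ### arithmetic of the macro scale -/

private theorem snap_strip {s Nb i : ℕ} : (i + 1) * (Nb * s) = i * (Nb * s) + Nb * s := by ring

private theorem snap_sub {b j ζ : ℕ} (h : ζ ≤ j) : (j - ζ) * b + ζ * b = j * b := by
  rw [← Nat.add_mul]
  congr 1
  omega

private theorem snap_le {b j j' : ℕ} (h : j ≤ j') : j * b ≤ j' * b := Nat.mul_le_mul_right b h

/-- blocks of `B'` to the right of `x` in the long zone: old ones in the old zone, late ones,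
ahead ones -/
private theorem snap_cnt_le {f : ℕ → ℕ → V} {B B' : Set V} (hB : B ⊆ B') {xL x R z y h' : ℕ}
    (hx : xL ≤ x) (hz : z ≤ y) (hy : y ≤ h') :
    cnt f B' x R z h' ≤ cnt f B x R z y + cnt f (B' \ B) xL R z y + cnt f B' xL R y h' := by
  rw [cnt_split_y f B' x R hz hy, cnt_diff f hB x R z y]
  have h1 : cnt f (B' \ B) x R z y ≤ cnt f (B' \ B) xL R z y :=
    cnt_mono_rect f _ hx le_rfl le_rfl le_rfl
  have h2 : cnt f B' x R y h' ≤ cnt f B' xL R y h' :=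
    cnt_mono_rect f _ hx le_rfl le_rfl le_rfl
  omega

/-- `N` bad groups contain `N s` blocks -/
private theorem snap_bad {f : ℕ → ℕ → V} {B : Set V} {x s N z h' : ℕ}
    (h : ∀ k < N, s ≤ cnt f B (x + k * s) (x + (k + 1) * s) z h') :
    N * s ≤ cnt f B x (x + N * s) z h' := by
  rw [cnt_sum_groups]
  calc N * s = ∑ _k ∈ Finset.range N, s := by
        rw [Finset.sum_const, Finset.card_range, smul_eq_mul]
    _ ≤ _ := Finset.sum_le_sum fun k hk => h k (Finset.mem_range.mp hk)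

/-! ### single elements -/

/-- a live column element can be run up by `μ` macro rows -/
theorem ColS.run {f : ℕ → ℕ → V} (hf : IsFrame Adj f) {s Nb ζ i j μ : ℕ} {c : ℤ} {O B : Set V}
    (hs : 0 < s) (hζ : 4 ≤ ζ) (hd : Disjoint B O) (h : ColS f s Nb ζ i j c O B) :
    ∃ x0 x1 N : ℕ, i * (Nb * s) ≤ x0 ∧ x0 ≤ x1 ∧ x1 + N * s = (i + 1) * (Nb * s) ∧ ζ ≤ j ∧
      c + cnt f B x1 ((i + 1) * (Nb * s)) ((j - ζ) * (Nb * s)) (j * (Nb * s)) ≤ (N * s : ℕ) ∧
      c + cnt f B x0 ((i + 1) * (Nb * s)) ((j - ζ) * (Nb * s)) (j * (Nb * s)) + (x0 : ℤ) ≤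
        ((i + 1) * (Nb * s) : ℕ) ∧
      ∀ T, μ * (Nb * s) + wOld s Nb ≤ T →
        Safe Adj (L1Inv f s N x0 x1 ((j - ζ) * (Nb * s)) ((j + μ) * (Nb * s))) T O B := by
  obtain ⟨x0, x1, N, hx0, hx, hN, hj, hcov, h1, h0⟩ := h
  refine ⟨x0, x1, N, hx0, hx, hN, hj, h1, h0, ?_⟩
  intro T hT
  have e1 := snap_strip (s := s) (Nb := Nb) (i := i)
  have e2 := snap_sub (b := Nb * s) hj
  have e3 : 4 * (Nb * s) ≤ ζ * (Nb * s) := snap_le hζ
  have e4 : (j + μ) * (Nb * s) = j * (Nb * s) + μ * (Nb * s) := by ring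
  have hNs : N * s ≤ Nb * s := by omega
  have hNN : N ≤ Nb := Nat.le_of_mul_le_mul_right hNs hs
  refine level1 hf (Nb := Nb) (y := j * (Nb * s)) hs hx (by omega) hcov (by omega) (by omega) hd ?_
  have e5 : N * (5 * (Nb * s) + 6 * s ^ 2) ≤ Nb * (5 * (Nb * s) + 6 * s ^ 2) :=
    Nat.mul_le_mul_right _ hNN
  have e6 : (x1 + N * s - x0) * (2 * Nb + 6 * s) ≤ (Nb * s) * (2 * Nb + 6 * s) :=
    Nat.mul_le_mul_right _ (by omega)
  unfold wOld at hT
  omega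

/-- ledger, dead case -/
theorem L1Dead.ledger {f : ℕ → ℕ → V} {s Nb ζ i j μ x0 x1 N : ℕ} {c : ℤ} {B B' : Set V}
    (hB : B ⊆ B') (hN : x1 + N * s = (i + 1) * (Nb * s)) (hx0 : i * (Nb * s) ≤ x0)
    (hx : x0 ≤ x1) (hζ : ζ ≤ j)
    (h1 : c + cnt f B x1 ((i + 1) * (Nb * s)) ((j - ζ) * (Nb * s)) (j * (Nb * s)) ≤ (N * s : ℕ))
    (h0 : c + cnt f B x0 ((i + 1) * (Nb * s)) ((j - ζ) * (Nb * s)) (j * (Nb * s)) + (x0 : ℤ) ≤
        ((i + 1) * (Nb * s) : ℕ))
    (hL : L1Dead f s N x0 x1 ((j - ζ) * (Nb * s)) ((j + μ) * (Nb * s)) B') :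
    c ≤ cnt f (B' \ B) (i * (Nb * s)) ((i + 1) * (Nb * s)) ((j - ζ) * (Nb * s)) (j * (Nb * s)) +
      cnt f B' (i * (Nb * s)) ((i + 1) * (Nb * s)) (j * (Nb * s)) ((j + μ) * (Nb * s)) := by
  have e1 := snap_strip (s := s) (Nb := Nb) (i := i)
  have e2 := snap_sub (b := Nb * s) hζ
  have e4 : (j + μ) * (Nb * s) = j * (Nb * s) + μ * (Nb * s) := by ring
  unfold L1Dead at hL
  rw [hN] at hL
  rcases hL with hL | hL
  · have g := snap_cnt_le (f := f) hB (xL := i * (Nb * s)) (x := x0) (R := (i + 1) * (Nb * s))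
      (z := (j - ζ) * (Nb * s)) (y := j * (Nb * s)) (h' := (j + μ) * (Nb * s)) hx0 (by omega)
      (by omega)
    omega
  · have g := snap_cnt_le (f := f) hB (xL := i * (Nb * s)) (x := x1) (R := (i + 1) * (Nb * s))
      (z := (j - ζ) * (Nb * s)) (y := j * (Nb * s)) (h' := (j + μ) * (Nb * s)) (by omega)
      (by omega) (by omega)
    have g2 := snap_bad hL
    rw [hN] at g2
    omega

/-- ledger, live case: at the end of the run (`T = 0`), the covered groups give a column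
coverage with `x1'`, and strength `c - s - late - ahead` on the whole zone `[j-ζ, j+μ)` -/
theorem L1Inv.ledger {f : ℕ → ℕ → V} {s Nb ζ i j μ x0 x1 N : ℕ} {c : ℤ} {O B B' : Set V}
    (hB : B ⊆ B') (hN : x1 + N * s = (i + 1) * (Nb * s)) (hx0 : i * (Nb * s) ≤ x0)
    (hx : x0 ≤ x1) (hζ : ζ ≤ j)
    (h1 : c + cnt f B x1 ((i + 1) * (Nb * s)) ((j - ζ) * (Nb * s)) (j * (Nb * s)) ≤ (N * s : ℕ))
    (h0 : c + cnt f B x0 ((i + 1) * (Nb * s)) ((j - ζ) * (Nb * s)) (j * (Nb * s)) + (x0 : ℤ) ≤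
        ((i + 1) * (Nb * s) : ℕ))
    (hL : L1Inv f s N x0 x1 ((j - ζ) * (Nb * s)) ((j + μ) * (Nb * s)) 0 O B')
    (hc : (cnt f (B' \ B) (i * (Nb * s)) ((i + 1) * (Nb * s)) ((j - ζ) * (Nb * s)) (j * (Nb * s)) +
      cnt f B' (i * (Nb * s)) ((i + 1) * (Nb * s)) (j * (Nb * s)) ((j + μ) * (Nb * s)) : ℤ) < c) :
    ∃ x1' N' : ℕ, x0 ≤ x1' ∧ x1' + N' * s = (i + 1) * (Nb * s) ∧
      Cov f O x0 x1' ((j - ζ) * (Nb * s)) ((j + μ) * (Nb * s)) ∧
      c - s - cnt f (B' \ B) (i * (Nb * s)) ((i + 1) * (Nb * s)) ((j - ζ) * (Nb * s))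
          (j * (Nb * s))
        - cnt f B' (i * (Nb * s)) ((i + 1) * (Nb * s)) (j * (Nb * s)) ((j + μ) * (Nb * s))
        + cnt f B' x1' ((i + 1) * (Nb * s)) ((j - ζ) * (Nb * s)) ((j + μ) * (Nb * s)) ≤
      (N' * s : ℕ) := by
  have e1 := snap_strip (s := s) (Nb := Nb) (i := i)
  have e2 := snap_sub (b := Nb * s) hζ
  have e4 : (j + μ) * (Nb * s) = j * (Nb * s) + μ * (Nb * s) := by ring
  rcases hL with hL | ⟨k, y, hk, hy1, hy2, hcov, hbad⟩
  · have := L1Dead.ledger hB hN hx0 hx hζ h1 h0 hL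
    omega
  have hyy : y = (j + μ) * (Nb * s) := by omega
  subst hyy
  have hks : k * s ≤ N * s := Nat.mul_le_mul_right s hk
  have hNk : (N - k) * s + k * s = N * s := snap_sub hk
  refine ⟨x1 + k * s, N - k, by omega, by omega, hcov, ?_⟩
  have g := snap_cnt_le (f := f) hB (xL := i * (Nb * s)) (x := x1) (R := (i + 1) * (Nb * s))
    (z := (j - ζ) * (Nb * s)) (y := j * (Nb * s)) (h' := (j + μ) * (Nb * s)) (by omega)
    (by omega) (by omega)
  have g1 := cnt_split_x f B' (x0 := x1) (x1 := x1 + k * s) (x2 := (i + 1) * (Nb * s))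
    ((j - ζ) * (Nb * s)) ((j + μ) * (Nb * s)) (by omega) (by omega)
  have g2 : k * s ≤ cnt f B' x1 (x1 + k * s) ((j - ζ) * (Nb * s)) ((j + μ) * (Nb * s)) + s := by
    rcases Nat.eq_zero_or_pos k with hk0 | hk0
    · subst hk0
      omega
    · obtain ⟨k2, rfl⟩ : ∃ k2, k = k2 + 1 := ⟨k - 1, by omega⟩
      have g3 := snap_bad (f := f) (B := B') (x := x1) (s := s) (N := k2)
        (z := (j - ζ) * (Nb * s)) (h' := (j + μ) * (Nb * s)) (fun k' hk' => hbad k' (by omega))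
      have g4 : (k2 + 1) * s = k2 * s + s := by ring
      have g5 : cnt f B' x1 (x1 + k2 * s) ((j - ζ) * (Nb * s)) ((j + μ) * (Nb * s)) ≤
          cnt f B' x1 (x1 + (k2 + 1) * s) ((j - ζ) * (Nb * s)) ((j + μ) * (Nb * s)) :=
        cnt_mono_rect f B' le_rfl (by omega) le_rfl le_rfl
      omega
  omega

/-- own elements: result in the form of a final column snapshot -/
theorem L1Inv.toColF {f : ℕ → ℕ → V} {s Nb ζ i j μ x0 x1 N : ℕ} {c : ℤ} {O B B' : Set V}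
    (hμ : 20 ≤ μ)
    (hB : B ⊆ B') (hN : x1 + N * s = (i + 1) * (Nb * s)) (hx0 : i * (Nb * s) ≤ x0)
    (hx : x0 ≤ x1) (hζ : ζ ≤ j)
    (h1 : c + cnt f B x1 ((i + 1) * (Nb * s)) ((j - ζ) * (Nb * s)) (j * (Nb * s)) ≤ (N * s : ℕ))
    (h0 : c + cnt f B x0 ((i + 1) * (Nb * s)) ((j - ζ) * (Nb * s)) (j * (Nb * s)) + (x0 : ℤ) ≤
        ((i + 1) * (Nb * s) : ℕ))
    (hL : L1Inv f s N x0 x1 ((j - ζ) * (Nb * s)) ((j + μ) * (Nb * s)) 0 O B')
    (hc : 0 < c - s -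
      cnt f (B' \ B) (i * (Nb * s)) ((i + 1) * (Nb * s)) ((j - ζ) * (Nb * s)) (j * (Nb * s)) -
      cnt f B' (i * (Nb * s)) ((i + 1) * (Nb * s)) (j * (Nb * s)) ((j + μ) * (Nb * s))) :
    ColF f s Nb 20 i (j + μ) (c - s -
      cnt f (B' \ B) (i * (Nb * s)) ((i + 1) * (Nb * s)) ((j - ζ) * (Nb * s)) (j * (Nb * s)) -
      cnt f B' (i * (Nb * s)) ((i + 1) * (Nb * s)) (j * (Nb * s)) ((j + μ) * (Nb * s))) O B' := by
  have e1 := snap_strip (s := s) (Nb := Nb) (i := i)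
  obtain ⟨x1', N', hx1', hN', hcov, hle⟩ := L1Inv.ledger hB hN hx0 hx hζ h1 h0 hL (by omega)
  have hz : (j - ζ) * (Nb * s) ≤ (j + μ - 20) * (Nb * s) := snap_le (by omega)
  refine ⟨x1', N', by omega, hN', by omega, hcov.weaken hx0 le_rfl hz le_rfl, ?_⟩
  have g : cnt f B' x1' ((i + 1) * (Nb * s)) ((j + μ - 20) * (Nb * s)) ((j + μ) * (Nb * s)) ≤
      cnt f B' x1' ((i + 1) * (Nb * s)) ((j - ζ) * (Nb * s)) ((j + μ) * (Nb * s)) :=
    cnt_mono_rect f B' le_rfl le_rfl hz le_rfl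
  omega

/-- crossing of the macro square `(i', j)`, `i ≤ i'`, by a row element; here stated for a column
element of `flip f`: at remaining time `T` the run with target `(j+μ) b` has covered up to `y` with
`(j+μ) b ≤ y + T`. -/
theorem L1Inv.crossing {f : ℕ → ℕ → V} {s Nb ζ i j μ d x0 x1 N T : ℕ} {O B' : Set V}
    (hN : x1 + N * s = (i + 1) * (Nb * s)) (hx0 : i * (Nb * s) ≤ x0) (hζ : ζ ≤ j)
    (hL : L1Inv f s N x0 x1 ((j - ζ) * (Nb * s)) ((j + μ) * (Nb * s)) T O B')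
    (hD : ¬ L1Dead f s N x0 x1 ((j - ζ) * (Nb * s)) ((j + μ) * (Nb * s)) B')
    (hT : (d + 1) * (Nb * s) + T ≤ μ * (Nb * s)) :
    Cov f O (i * (Nb * s)) ((i + 1) * (Nb * s)) ((j + d) * (Nb * s)) ((j + d + 1) * (Nb * s)) := by
  have e2 := snap_sub (b := Nb * s) hζ
  have e4 : (j + μ) * (Nb * s) = j * (Nb * s) + μ * (Nb * s) := by ring
  have e5 : (j + d) * (Nb * s) = j * (Nb * s) + d * (Nb * s) := by ring
  have e6 : (j + d + 1) * (Nb * s) = j * (Nb * s) + (d + 1) * (Nb * s) := by ring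
  rcases hL with hL | ⟨k, y, hk, hy1, hy2, hcov, hbad⟩
  · exact absurd hL hD
  have hks : k * s ≤ N * s := Nat.mul_le_mul_right s hk
  exact hcov.weaken hx0 (by omega) (by omega) (by omega)

/-- E-runs: result in the form of a final column snapshot -/
theorem ERaw.toColF {f : ℕ → ℕ → V} {s Nb i j j' l : ℕ} {c : ℤ} {O B : Set V}
    (hl : j' + 21 ≤ l) (hj : j ≤ j') (h : ERaw f s Nb i j' l O B) (hc : 0 < c)
    (hcc : c + 2 * s + cnt f B (i * (Nb * s)) ((i + 1) * (Nb * s)) (j * (Nb * s)) (l * (Nb * s)) ≤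
      (Nb * s : ℕ)) :
    ColF f s Nb 20 i l c O B := by
  have e1 := snap_strip (s := s) (Nb := Nb) (i := i)
  have hjb : j * (Nb * s) ≤ j' * (Nb * s) := snap_le hj
  rcases h with h | ⟨K, hK, hcov, hcnt⟩
  · have g : cnt f B (i * (Nb * s)) ((i + 1) * (Nb * s)) (j' * (Nb * s)) (l * (Nb * s)) ≤
        cnt f B (i * (Nb * s)) ((i + 1) * (Nb * s)) (j * (Nb * s)) (l * (Nb * s)) :=
      cnt_mono_rect f B le_rfl le_rfl hjb le_rfl
    omega
  · have hKs : K * s ≤ Nb * s := Nat.mul_le_mul_right s hK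
    have hNK : (Nb - K) * s + K * s = Nb * s := snap_sub hK
    have hz : (j' + 1) * (Nb * s) ≤ (l - 20) * (Nb * s) := snap_le (by omega)
    have hz2 : j * (Nb * s) ≤ (l - 20) * (Nb * s) := snap_le (by omega)
    refine ⟨i * (Nb * s) + K * s, Nb - K, by omega, by omega, by omega,
      hcov.weaken le_rfl le_rfl hz le_rfl, ?_⟩
    have g1 := cnt_split_x f B (x0 := i * (Nb * s)) (x1 := i * (Nb * s) + K * s)
      (x2 := (i + 1) * (Nb * s)) (j * (Nb * s)) (l * (Nb * s)) (by omega) (by omega)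
    have g2 : cnt f B (i * (Nb * s)) (i * (Nb * s) + K * s) (j' * (Nb * s)) (l * (Nb * s)) ≤
        cnt f B (i * (Nb * s)) (i * (Nb * s) + K * s) (j * (Nb * s)) (l * (Nb * s)) :=
      cnt_mono_rect f B le_rfl le_rfl hjb le_rfl
    have g3 : cnt f B (i * (Nb * s) + K * s) ((i + 1) * (Nb * s)) ((l - 20) * (Nb * s))
        (l * (Nb * s)) ≤
        cnt f B (i * (Nb * s) + K * s) ((i + 1) * (Nb * s)) (j * (Nb * s)) (l * (Nb * s)) :=
      cnt_mono_rect f B le_rfl le_rfl hz2 le_rfl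
    omega

/-- a final snapshot is a snapshot -/
theorem SnapF.toSnap {f : ℕ → ℕ → V} {s Nb n ρ1 ρ2 : ℕ} {c : ℕ → ℤ} {O B : Set V}
    (h : SnapF f s Nb n ρ1 ρ2 c O B) : Snap f s Nb n ρ2 c O B := by
  have key : ∀ (g : ℕ → ℕ → V) (i j : ℕ) (c : ℤ), ColF g s Nb 20 i j c O B →
      c + cnt g B (i * (Nb * s)) ((i + 1) * (Nb * s)) ((j - 20) * (Nb * s)) (j * (Nb * s)) ≤
        (Nb * s : ℕ) → ColS g s Nb 4 i j c O B := by
    intro g i j c ⟨x1, N, hx1, hN, hj, hcov, hc⟩ hcc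
    have e1 := snap_strip (s := s) (Nb := Nb) (i := i)
    have hz : (j - 20) * (Nb * s) ≤ (j - 4) * (Nb * s) := snap_le (by omega)
    refine ⟨i * (Nb * s), x1, N, le_rfl, hx1, hN, by omega, hcov.weaken le_rfl le_rfl hz le_rfl,
      ?_, ?_⟩
    · have g1 : cnt g B x1 ((i + 1) * (Nb * s)) ((j - 4) * (Nb * s)) (j * (Nb * s)) ≤
          cnt g B x1 ((i + 1) * (Nb * s)) ((j - 20) * (Nb * s)) (j * (Nb * s)) :=
        cnt_mono_rect g B le_rfl le_rfl hz le_rfl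
      omega
    · have g1 : cnt g B (i * (Nb * s)) ((i + 1) * (Nb * s)) ((j - 4) * (Nb * s)) (j * (Nb * s)) ≤
          cnt g B (i * (Nb * s)) ((i + 1) * (Nb * s)) ((j - 20) * (Nb * s)) (j * (Nb * s)) :=
        cnt_mono_rect g B le_rfl le_rfl hz le_rfl
      omega
  refine ⟨h.rho_le2, h.le, ?_, ?_⟩
  · intro i hi hc
    by_cases hi1 : i < ρ1
    · exact key f i (n - i) (c i) (h.col i hi1 hc) (h.colc i hi1)
    · have := h.zero i (by omega) hi
      omega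
  · intro i hi1 hi2 hc
    exact key (_root_.flip f) (n - i) i (c i) (h.row i hi1 hi2 hc) (h.rowc i hi1 hi2)

theorem Snap.flip {f : ℕ → ℕ → V} {s Nb n ρ : ℕ} {c : ℕ → ℤ} {O B : Set V}
    (h : Snap f s Nb n ρ c O B) :
    Snap (_root_.flip f) s Nb n (n + 1 - ρ) (fun i => c (n - i)) O B := by
  have hρ := h.rho_le
  refine ⟨by omega, fun i _ => h.le (n - i) (by omega), ?_, ?_⟩
  · intro i hi hc
    have := h.row (n - i) (by omega) (by omega) hc
    have e : n - (n - i) = i := by omega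
    rw [e] at this
    exact this
  · intro i hi1 hi2 hc
    have := h.col (n - i) (by omega) hc
    have e : n - (n - i) = i := by omega
    rw [e] at this
    exact this

theorem SnapF.flip {f : ℕ → ℕ → V} {s Nb n ρ1 ρ2 : ℕ} {c : ℕ → ℤ} {O B : Set V}
    (h : SnapF f s Nb n ρ1 ρ2 c O B) :
    SnapF (_root_.flip f) s Nb n (n + 1 - ρ2) (n + 1 - ρ1) (fun i => c (n - i)) O B := by
  have hρ := h.rho_le
  have hρ2 := h.rho_le2
  refine ⟨by omega, by omega, fun i _ => h.le (n - i) (by omega), ?_, ?_, ?_, ?_, ?_⟩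
  · intro i hi1 hi2
    exact h.zero (n - i) (by omega) (by omega)
  · intro i hi hc
    have := h.row (n - i) (by omega) (by omega) hc
    have e : n - (n - i) = i := by omega
    rw [e] at this
    exact this
  · intro i hi1 hi2 hc
    have := h.col (n - i) (by omega) hc
    have e : n - (n - i) = i := by omega
    rw [e] at this
    exact this
  · intro i hi
    have := h.rowc (n - i) (by omega) (by omega)
    have e : n - (n - i) = i := by omega
    rw [e] at this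
    exact this
  · intro i hi1 hi2
    have := h.colc (n - i) (by omega)
    have e : n - (n - i) = i := by omega
    rw [e] at this
    exact this

theorem Theta_flip (f : ℕ → ℕ → V) (b n : ℕ) (B : Set V) :
    Theta (flip f) b n B = Theta f b n B := by
  classical
  unfold Theta
  refine Finset.card_bij' (fun p _ => (p.2, p.1)) (fun p _ => (p.2, p.1)) ?_ ?_ ?_ ?_
  · intro p hp
    rw [Finset.mem_filter, Finset.mem_product] at hp ⊢
    exact ⟨⟨hp.1.2, hp.1.1⟩, (Nat.add_comm (p.2 / b) (p.1 / b)).trans_lt hp.2.1, hp.2.2⟩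
  · intro p hp
    rw [Finset.mem_filter, Finset.mem_product] at hp ⊢
    exact ⟨⟨hp.1.2, hp.1.1⟩, (Nat.add_comm (p.2 / b) (p.1 / b)).trans_lt hp.2.1, hp.2.2⟩
  · intro p _; rfl
  · intro p _; rfl

end Contain
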